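import Mathlib

set_option autoImplicit false

/-!
# A compass which has to be disobeyed almost always on the way to any member of a thin set of words

(the halving algorithm for infinite weighted families of words)
-/

namespace Pool.Agent.H48.GM

open scoped ENNReal

variable {α : Type*}

/-- the number of the letters of the word `w` which are the ones prescribed by the rule `σ`, which
prescribes a letter after every word -/
def obeys [DecidableEq α] (σ : List α → α) (w : List α) : ℕ :=
  ((Finset.range w.length).filter fun i => w[i]? = some (σ (w.take i))).card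

section
variable [DecidableEq α]

theorem obeys_nil (σ : List α → α) : obeys σ [] = 0 := by simp [obeys]

theorem obeys_snoc (σ : List α → α) (w : List α) (c : α) :
    obeys σ (w ++ [c]) = obeys σ w + if c = σ w then 1 else 0 := by
  unfold obeys
  rw [List.length_append, List.length_singleton, Finset.range_add_one, Finset.filter_insert]
  have h1 : (w ++ [c])[w.length]? = some c := by simp
  have h2 : (w ++ [c]).take w.length = w := by simp
  have h3 : (Finset.range w.length).filter (fun i => (w ++ [c])[i]? = some (σ ((w ++ [c]).take i)))
      = (Finset.range w.length).filter (fun i => w[i]? = some (σ (w.take i))) := by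
    apply Finset.filter_congr
    intro i hi
    rw [Finset.mem_range] at hi
    rw [List.getElem?_append_left hi, List.take_append_of_le_length hi.le]
  rw [h1, h2, h3]
  by_cases hc : c = σ w
  · rw [if_pos (by rw [hc]), if_pos hc, Finset.card_insert_of_notMem (by simp)]
  · rw [if_neg (by simpa using hc), if_neg hc, add_zero]

theorem obeys_le_length (σ : List α → α) (w : List α) : obeys σ w ≤ w.length := by
  unfold obeys
  exact (Finset.card_filter_le _ _).trans (by simp)

theorem obeys_append_ge (σ : List α → α) (w v : List α) : obeys σ w ≤ obeys σ (w ++ v) := by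
  induction v using List.reverseRecOn with
  | nil => simp
  | append_singleton v c ih =>
    rw [← List.append_assoc, obeys_snoc]
    omega

/-- total weight of the words with prefix `u` -/
noncomputable def wt (f : List α → ℝ≥0∞) (u : List α) : ℝ≥0∞ :=
  ∑' w : List α, if u <+: w then f w else 0

theorem wt_ge (f : List α → ℝ≥0∞) (u : List α) : f u ≤ wt f u := by
  unfold wt
  refine le_trans ?_ (ENNReal.le_tsum u)
  simp

theorem wt_children [Fintype α] (f : List α → ℝ≥0∞) (u : List α) :
    ∑ c : α, wt f (u ++ [c]) ≤ wt f u := by
  unfold wt
  rw [← Summable.tsum_finsetSum (fun _ _ => ENNReal.summable)]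
  refine ENNReal.tsum_le_tsum fun w => ?_
  by_cases h : ∃ c : α, (u ++ [c]) <+: w
  · obtain ⟨c, hc⟩ := h
    rw [Finset.sum_eq_single c]
    · rw [if_pos hc, if_pos ((List.prefix_append u [c]).trans hc)]
    · intro d _ hd
      rw [if_neg]
      intro hd'
      obtain ⟨s, hs⟩ := hc
      obtain ⟨t, ht⟩ := hd'
      rw [← hs] at ht
      simp only [List.append_assoc, List.append_cancel_left_eq, List.cons_append, List.cons.injEq] at ht
      exact hd ht.1
    · intro h; exact absurd (Finset.mem_univ c) h
  · rw [Finset.sum_eq_zero]
    · exact zero_le
    · intro c _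
      rw [if_neg fun hc => h ⟨c, hc⟩]

theorem wt_child_le [Fintype α] (f : List α → ℝ≥0∞) (u : List α) (c : α) :
    wt f (u ++ [c]) ≤ wt f u :=
  (Finset.single_le_sum (f := fun c => wt f (u ++ [c])) (fun _ _ => zero_le) (Finset.mem_univ c)).trans
    (wt_children f u)

theorem exists_light [Fintype α] [Nonempty α] (f : List α → ℝ≥0∞) (u : List α) :
    ∃ c : α, (Fintype.card α : ℝ≥0∞) * wt f (u ++ [c]) ≤ wt f u := by
  obtain ⟨c, -, hc⟩ := Finset.exists_min_image Finset.univ (fun c => wt f (u ++ [c])) Finset.univ_nonempty
  refine ⟨c, le_trans ?_ (wt_children f u)⟩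
  have h := Finset.card_nsmul_le_sum Finset.univ (fun c => wt f (u ++ [c])) (wt f (u ++ [c])) hc
  simpa [nsmul_eq_mul] using h

/-- the compass: it points to the letter with the least weight behind it -/
noncomputable def compass [Fintype α] [Nonempty α] (f : List α → ℝ≥0∞) (u : List α) : α :=
  (exists_light f u).choose

theorem compass_spec [Fintype α] [Nonempty α] (f : List α → ℝ≥0∞) (u : List α) :
    (Fintype.card α : ℝ≥0∞) * wt f (u ++ [compass f u]) ≤ wt f u :=
  (exists_light f u).choose_spec

theorem wt_obeys [Fintype α] [Nonempty α] (f : List α → ℝ≥0∞) (w : List α) :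
    (Fintype.card α : ℝ≥0∞) ^ obeys (compass f) w * wt f w ≤ wt f [] := by
  induction w using List.reverseRecOn with
  | nil => simp [obeys_nil]
  | append_singleton w c ih =>
    rw [obeys_snoc]
    refine le_trans ?_ ih
    by_cases hc : c = compass f w
    · rw [if_pos hc, pow_succ, mul_assoc]
      subst hc
      gcongr
      exact compass_spec f w
    · rw [if_neg hc, add_zero]
      gcongr
      exact wt_child_le f w c

/-- **the compass theorem**: words of positive weight obey the compass rarely -/
theorem compass_main [Fintype α] [Nonempty α] (f : List α → ℝ≥0∞) (w : List α) :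
    (Fintype.card α : ℝ≥0∞) ^ obeys (compass f) w * f w ≤ ∑' w, f w := by
  have h := wt_obeys f w
  have h2 : wt f [] = ∑' w, f w := by
    unfold wt; simp
  rw [h2] at h
  refine le_trans ?_ h
  gcongr
  exact wt_ge f w

end

end Pool.Agent.H48.GM
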