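import Mathlib
import Pool.Agent.H48.GM.Compass

set_option autoImplicit false

/-!
# The compass for a thin family of objects, each of which has a code word
-/

namespace Pool.Agent.H48.GM

open scoped ENNReal

/-- A family of objects of summable weights `g`, coded by words: the compass is obeyed rarely. -/
theorem coded {α β : Type*} [DecidableEq α] [Fintype α] [Nonempty α] (code : β → List α)
    (g : β → ℝ≥0∞) : ∃ σ : List α → α, ∀ e : β,
      (Fintype.card α : ℝ≥0∞) ^ obeys σ (code e) * g e ≤ ∑' e, g e := by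
  classical
  let f : List α → ℝ≥0∞ := fun w => ∑' e : β, if code e = w then g e else 0
  refine ⟨compass f, fun e => ?_⟩
  have h1 : g e ≤ f (code e) := by
    refine le_trans ?_ (ENNReal.le_tsum e)
    simp
  have h2 : ∑' w, f w = ∑' e, g e := by
    show ∑' w, ∑' e : β, (if code e = w then g e else 0) = _
    rw [ENNReal.tsum_comm]
    apply tsum_congr
    intro e
    rw [tsum_eq_single (code e)]
    · simp
    · intro w hw
      rw [if_neg (Ne.symm hw)]
  rw [← h2]
  refine le_trans ?_ (compass_main f (code e))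
  gcongr

/-- If there are at most `C (n + 1) ^ K` objects with `L e ≤ n`, the compass is obeyed at most
`κ log (L e + 2) + C'` times, `κ` depending on `K` only. -/
theorem thin {α β : Type*} [DecidableEq α] [Fintype α] [Nontrivial α] (code : β → List α)
    (L : β → ℝ) (hL : ∀ e, 0 ≤ L e) (C : ℝ) (K : ℕ)
    (hfin : ∀ n : ℕ, {e | L e ≤ n}.Finite)
    (hcount : ∀ n : ℕ, ({e | L e ≤ n}.ncard : ℝ) ≤ C * (n + 1 : ℝ) ^ K) :
    ∃ (σ : List α → α) (C' : ℝ), ∀ e : β,
      (obeys σ (code e) : ℝ) ≤ (K + 2 : ℝ) / Real.log 2 * Real.log (L e + 2) + C' := by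
  classical
  have hC : 0 ≤ C := by
    have := hcount 0
    have h0 : (0 : ℝ) ≤ ({e | L e ≤ (0 : ℕ)}.ncard : ℝ) := Nat.cast_nonneg _
    simp only [Nat.cast_zero, zero_add, one_pow, mul_one] at this h0
    linarith
  let G : β → ℝ := fun e => ((L e + 2) ^ (K + 2))⁻¹
  have hGpos : ∀ e, 0 < G e := fun e => by
    have := hL e
    positivity
  let g : β → ℝ≥0∞ := fun e => ENNReal.ofReal (G e)
  obtain ⟨σ, hσ⟩ := coded code g
  -- summability
  have hsum : ∑' e, g e ≠ ⊤ := by
    let N : β → ℕ := fun e => ⌊L e⌋₊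
    have hN : ∀ e, (N e : ℝ) ≤ L e := fun e => Nat.floor_le (hL e)
    have hN2 : ∀ e, L e < N e + 1 := fun e => Nat.lt_floor_add_one _
    have h1 : ∑' e, g e = ∑' n : ℕ, ∑' e : {e // N e = n}, g e := by
      rw [← (Equiv.sigmaFiberEquiv N).tsum_eq]
      exact ENNReal.tsum_sigma' (fun p : (Σ n, {e // N e = n}) => g p.2)
    rw [h1]
    have h2 : ∀ n : ℕ, ∑' e : {e // N e = n}, g e ≤
        ENNReal.ofReal (C * 2 ^ K * (1 / ((n : ℝ) + 1) ^ 2)) := by
      intro n
      have hsub : {e | N e = n} ⊆ {e | L e ≤ ((n + 1 : ℕ) : ℝ)} := by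
        intro e he
        have he' : N e = n := he
        have := hN2 e
        rw [he'] at this
        push_cast
        exact this.le
      have hf : {e | N e = n}.Finite := (hfin (n + 1)).subset hsub
      haveI : Fintype {e // N e = n} := hf.fintype
      rw [tsum_fintype]
      have h3 : ∀ e : {e // N e = n}, g e ≤ ENNReal.ofReal (((n : ℝ) + 2) ^ (K + 2))⁻¹ := by
        intro e
        apply ENNReal.ofReal_le_ofReal
        show ((L e + 2) ^ (K + 2))⁻¹ ≤ _
        have := hN e.1
        rw [e.2] at this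
        gcongr
      refine (Finset.sum_le_card_nsmul _ _ _ fun e _ => h3 e).trans ?_
      rw [nsmul_eq_mul]
      have h4 : ((Finset.univ : Finset {e // N e = n}).card : ℝ) ≤ C * ((n : ℝ) + 2) ^ K := by
        have e1 : (Finset.univ : Finset {e // N e = n}).card = {e | N e = n}.ncard := by
          rw [Finset.card_univ, ← Nat.card_eq_fintype_card]
          rfl
        rw [e1]
        have e2 : ({e | N e = n}.ncard : ℝ) ≤ ({e | L e ≤ ((n + 1 : ℕ) : ℝ)}.ncard : ℝ) := by
          exact_mod_cast Set.ncard_le_ncard hsub (hfin (n + 1))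
        refine e2.trans ((hcount (n + 1)).trans (le_of_eq ?_))
        push_cast
        ring
      have h5 : ((Finset.univ : Finset {e // N e = n}).card : ℝ≥0∞)
          = ENNReal.ofReal ((Finset.univ : Finset {e // N e = n}).card : ℝ) := by
        rw [ENNReal.ofReal_natCast]
      rw [h5, ← ENNReal.ofReal_mul (Nat.cast_nonneg _)]
      apply ENNReal.ofReal_le_ofReal
      calc ((Finset.univ : Finset {e // N e = n}).card : ℝ) * (((n : ℝ) + 2) ^ (K + 2))⁻¹
          ≤ C * ((n : ℝ) + 2) ^ K * (((n : ℝ) + 2) ^ (K + 2))⁻¹ := by gcongr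
        _ = C * (1 / ((n : ℝ) + 2) ^ 2) := by
          have : (n : ℝ) + 2 ≠ 0 := by positivity
          rw [pow_add]
          field_simp
        _ ≤ C * 2 ^ K * (1 / ((n : ℝ) + 1) ^ 2) := by
          have e1 : (1 : ℝ) ≤ 2 ^ K := one_le_pow₀ (by norm_num)
          have e2 : 1 / ((n : ℝ) + 2) ^ 2 ≤ 1 / ((n : ℝ) + 1) ^ 2 := by
            gcongr
            norm_num
          calc C * (1 / ((n : ℝ) + 2) ^ 2) ≤ C * (1 / ((n : ℝ) + 1) ^ 2) := by gcongr
            _ = C * 1 * (1 / ((n : ℝ) + 1) ^ 2) := by ring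
            _ ≤ C * 2 ^ K * (1 / ((n : ℝ) + 1) ^ 2) := by gcongr
    refine ne_top_of_le_ne_top ?_ (ENNReal.tsum_le_tsum h2)
    have hs : Summable fun n : ℕ => C * 2 ^ K * (1 / ((n : ℝ) + 1) ^ 2) := by
      apply Summable.mul_left
      have := (summable_nat_add_iff 1).mpr (Real.summable_one_div_nat_pow (p := 2) |>.mpr (by norm_num))
      simpa using this
    rw [← ENNReal.ofReal_tsum_of_nonneg (fun n => by positivity) hs]
    exact ENNReal.ofReal_ne_top
  set S : ℝ := (∑' e, g e).toReal with hS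
  refine ⟨σ, |Real.log (S + 1)| / Real.log 2, fun e => ?_⟩
  have hlog2 : 0 < Real.log 2 := Real.log_pos (by norm_num)
  have hcard : (2 : ℝ) ≤ Fintype.card α := by
    exact_mod_cast Fintype.one_lt_card
  have h := hσ e
  have h' : (Fintype.card α : ℝ) ^ obeys σ (code e) * G e ≤ S := by
    have e1 := ENNReal.toReal_mono hsum h
    rw [ENNReal.toReal_mul, ENNReal.toReal_pow, ENNReal.toReal_natCast,
      ENNReal.toReal_ofReal (hGpos e).le] at e1
    exact e1
  have hLe := hL e
  have hL2 : 0 < L e + 2 := by linarith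
  have h'' : (2 : ℝ) ^ obeys σ (code e) ≤ (S + 1) * (L e + 2) ^ (K + 2) := by
    have e1 : (2 : ℝ) ^ obeys σ (code e) ≤ (Fintype.card α : ℝ) ^ obeys σ (code e) := by gcongr
    have e2 : (Fintype.card α : ℝ) ^ obeys σ (code e) ≤ S * (L e + 2) ^ (K + 2) := by
      have e3 : (Fintype.card α : ℝ) ^ obeys σ (code e) * G e * (L e + 2) ^ (K + 2)
          = (Fintype.card α : ℝ) ^ obeys σ (code e) := by
        show _ * ((L e + 2) ^ (K + 2))⁻¹ * _ = _
        field_simp
      rw [← e3]
      gcongr
    have e4 : S * (L e + 2) ^ (K + 2) ≤ (S + 1) * (L e + 2) ^ (K + 2) := by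
      gcongr
      linarith
    linarith
  have hS0 : 0 ≤ S := ENNReal.toReal_nonneg
  have h3 : (obeys σ (code e) : ℝ) * Real.log 2 ≤
      Real.log (S + 1) + (K + 2 : ℝ) * Real.log (L e + 2) := by
    have e1 := Real.log_le_log (by positivity) h''
    rw [Real.log_pow, Real.log_mul (by positivity) (by positivity), Real.log_pow] at e1
    push_cast at e1
    exact e1
  have h4 : (obeys σ (code e) : ℝ) ≤
      (|Real.log (S + 1)| + (K + 2 : ℝ) * Real.log (L e + 2)) / Real.log 2 := by
    rw [le_div_iff₀ hlog2]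
    have := le_abs_self (Real.log (S + 1))
    linarith
  refine h4.trans (le_of_eq ?_)
  ring

end Pool.Agent.H48.GM
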