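import Mathlib
import Pool.Agent.H48.GM.Weighted

set_option autoImplicit false

/-!
# One compass for countably many thin families of objects

`universal_weights`: for countably many summable weights on the objects there is one rule which the code of an
object of weight `g i e` follows at most `log (c i / g i e) / log q` times. `universal`: the same for countably many
families `E i` with at most `C exp (κ i n)` members of size at most `n`. `digit_game`: the game form for the digits of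
integers.
-/

namespace Pool.Agent.H48.GM

open scoped ENNReal

/-- One compass for countably many summable weights. -/
theorem universal_weights {α β ι : Type*} [DecidableEq α] [Fintype α] [Nonempty α] [Countable ι]
    (code : β → List α) (g : ι → β → ℝ≥0∞) (hg : ∀ i, ∑' e, g i e ≠ ⊤) :
    ∃ σ : List α → α, ∀ i, ∃ c : ℝ≥0∞, c ≠ ⊤ ∧ ∀ e : β,
      (Fintype.card α : ℝ≥0∞) ^ obeys σ (code e) * g i e ≤ c := by
  classical
  obtain ⟨δ, hδ, hδsum⟩ := ENNReal.exists_pos_sum_of_countable' (ι := ι) (ε := 1) one_ne_zero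
  let c : ι → ℝ≥0∞ := fun i => δ i / (∑' e, g i e + 1)
  have hc0 : ∀ i, c i ≠ 0 := by
    intro i
    simp only [c, ne_eq, ENNReal.div_eq_zero_iff, not_or]
    refine ⟨(hδ i).ne', ?_⟩
    rw [ENNReal.add_eq_top]
    push Not
    exact ⟨hg i, ENNReal.one_ne_top⟩
  have hδtop : ∀ i, δ i ≠ ⊤ := by
    intro i h
    have h1 : δ i ≤ ∑' i, δ i := ENNReal.le_tsum i
    rw [h] at h1
    have h2 := h1.trans_lt hδsum
    exact absurd h2 (by simp)
  have hsum1 : ∀ i, ∑' e, c i * g i e ≤ δ i := by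
    intro i
    rw [ENNReal.tsum_mul_left]
    have h1 : ∑' e, g i e ≤ ∑' e, g i e + 1 := le_self_add
    calc c i * ∑' e, g i e ≤ c i * (∑' e, g i e + 1) := by gcongr
      _ = δ i := ENNReal.div_mul_cancel (by simp) (by
          rw [ne_eq, ENNReal.add_eq_top]
          push Not
          exact ⟨hg i, ENNReal.one_ne_top⟩)
  let f : β → ℝ≥0∞ := fun e => ∑' i, c i * g i e
  have hf : ∑' e, f e ≤ 1 := by
    show ∑' e, ∑' i, c i * g i e ≤ 1
    rw [ENNReal.tsum_comm]
    exact (ENNReal.tsum_le_tsum hsum1).trans hδsum.le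
  obtain ⟨σ, hσ⟩ := coded code f
  refine ⟨σ, fun i => ⟨(c i)⁻¹, ENNReal.inv_ne_top.mpr (hc0 i), fun e => ?_⟩⟩
  have h1 : c i * g i e ≤ f e := ENNReal.le_tsum i
  have h2 : (Fintype.card α : ℝ≥0∞) ^ obeys σ (code e) * (c i * g i e) ≤ 1 := by
    refine le_trans ?_ ((hσ e).trans hf)
    gcongr
  have hct : c i ≠ ⊤ := by
    simp only [c]
    exact ENNReal.div_ne_top (hδtop i) (by simp)
  have h3 : c i * ((Fintype.card α : ℝ≥0∞) ^ obeys σ (code e) * g i e) ≤ 1 := by
    calc c i * ((Fintype.card α : ℝ≥0∞) ^ obeys σ (code e) * g i e)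
        = (Fintype.card α : ℝ≥0∞) ^ obeys σ (code e) * (c i * g i e) := by ring
      _ ≤ 1 := h2
  rw [ENNReal.le_inv_iff_mul_le, mul_comm]
  exact h3

/-- summability of exponential weights on a family with at most `C exp (κ n)` members of size at most `n` -/
theorem exp_weight_sum {β : Type*} (E : Set β) (M : β → ℝ) (hM : ∀ e, 0 ≤ M e) (C κ ε : ℝ) (hκ : 0 ≤ κ)
    (hε : 0 < ε)
    (h : ∀ n : ℕ, {e | e ∈ E ∧ M e ≤ n}.Finite ∧ ({e | e ∈ E ∧ M e ≤ n}.ncard : ℝ) ≤ C * Real.exp (κ * n)) :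
    ∑' e : E, ENNReal.ofReal (Real.exp (-((κ + ε) * M e))) ≠ ⊤ := by
  classical
  have hC : 0 ≤ C := by
    have := (h 0).2
    have h0 : (0 : ℝ) ≤ ({e | e ∈ E ∧ M e ≤ (0 : ℕ)}.ncard : ℝ) := Nat.cast_nonneg _
    simp only [Nat.cast_zero, mul_zero, Real.exp_zero, mul_one] at this h0
    linarith
  let N : E → ℕ := fun e => ⌊M e⌋₊
  have hN : ∀ e : E, (N e : ℝ) ≤ M e := fun e => Nat.floor_le (hM e)
  have hN2 : ∀ e : E, M e < N e + 1 := fun e => Nat.lt_floor_add_one _
  have h1 : ∑' e : E, ENNReal.ofReal (Real.exp (-((κ + ε) * M e))) =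
      ∑' n : ℕ, ∑' e : {e : E // N e = n}, ENNReal.ofReal (Real.exp (-((κ + ε) * M e.1))) := by
    rw [← (Equiv.sigmaFiberEquiv N).tsum_eq]
    exact ENNReal.tsum_sigma'
      (fun p : (Σ n, {e : E // N e = n}) => ENNReal.ofReal (Real.exp (-((κ + ε) * M p.2.1))))
  rw [h1]
  have h2 : ∀ n : ℕ, ∑' e : {e : E // N e = n}, ENNReal.ofReal (Real.exp (-((κ + ε) * M e.1))) ≤
      ENNReal.ofReal (C * Real.exp κ * Real.exp (-ε) ^ n) := by
    intro n
    let S : Set E := {e | N e = n}
    have hS : S = {e : E | N e = n} := rfl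
    have hsub : (Subtype.val '' S) ⊆ {e | e ∈ E ∧ M e ≤ ((n + 1 : ℕ) : ℝ)} := by
      rintro _ ⟨e, he, rfl⟩
      have he' : N e = n := he
      have := hN2 e
      rw [he'] at this
      push_cast
      exact ⟨e.2, this.le⟩
    have hf0 : (Subtype.val '' S).Finite := (h (n + 1)).1.subset hsub
    have hf : S.Finite := hf0.of_finite_image Subtype.val_injective.injOn
    haveI : Fintype {e : E // N e = n} := hf.fintype
    rw [tsum_fintype]
    have h3 : ∀ e : {e : E // N e = n}, ENNReal.ofReal (Real.exp (-((κ + ε) * M e.1))) ≤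
        ENNReal.ofReal (Real.exp (-((κ + ε) * n))) := by
      intro e
      apply ENNReal.ofReal_le_ofReal
      apply Real.exp_le_exp.mpr
      have := hN e.1
      rw [e.2] at this
      have h4 : 0 ≤ κ + ε := by linarith
      nlinarith
    refine (Finset.sum_le_card_nsmul _ _ _ fun e _ => h3 e).trans ?_
    rw [nsmul_eq_mul]
    have h4 : ((Finset.univ : Finset {e : E // N e = n}).card : ℝ) ≤ C * Real.exp (κ * (n + 1)) := by
      have e1 : (Finset.univ : Finset {e : E // N e = n}).card = S.ncard := by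
        rw [Finset.card_univ, ← Nat.card_eq_fintype_card]
        rfl
      rw [e1, ← Set.ncard_image_of_injective _ Subtype.val_injective]
      have e2 : ((Subtype.val '' S).ncard : ℝ) ≤ ({e | e ∈ E ∧ M e ≤ ((n + 1 : ℕ) : ℝ)}.ncard : ℝ) := by
        exact_mod_cast Set.ncard_le_ncard hsub (h (n + 1)).1
      refine e2.trans ((h (n + 1)).2.trans (le_of_eq ?_))
      push_cast
      ring
    have h5 : ((Finset.univ : Finset {e : E // N e = n}).card : ℝ≥0∞)
        = ENNReal.ofReal ((Finset.univ : Finset {e : E // N e = n}).card : ℝ) := by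
      rw [ENNReal.ofReal_natCast]
    rw [h5, ← ENNReal.ofReal_mul (Nat.cast_nonneg _)]
    apply ENNReal.ofReal_le_ofReal
    calc ((Finset.univ : Finset {e : E // N e = n}).card : ℝ) * Real.exp (-((κ + ε) * n))
        ≤ C * Real.exp (κ * (n + 1)) * Real.exp (-((κ + ε) * n)) := by gcongr
      _ = C * Real.exp κ * Real.exp (-ε) ^ n := by
        rw [← Real.exp_nat_mul, mul_assoc, mul_assoc, ← Real.exp_add, ← Real.exp_add]
        congr 2
        ring
  refine ne_top_of_le_ne_top ?_ (ENNReal.tsum_le_tsum h2)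
  have hs : Summable fun n : ℕ => C * Real.exp κ * Real.exp (-ε) ^ n := by
    apply Summable.mul_left
    exact summable_geometric_of_lt_one (Real.exp_pos _).le (by rw [Real.exp_lt_one_iff]; linarith)
  rw [← ENNReal.ofReal_tsum_of_nonneg (fun n => by positivity) hs]
  exact ENNReal.ofReal_ne_top

/-- One compass for countably many families `E i` with at most `C exp (κ i n)` members of size at most `n`. -/
theorem universal {α β ι : Type*} [DecidableEq α] [Fintype α] [Nontrivial α] [Countable ι]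
    (code : β → List α) (E : ι → Set β) (M : β → ℝ) (hM : ∀ e, 0 ≤ M e) (κ : ι → ℝ) (hκ : ∀ i, 0 ≤ κ i)
    (h : ∀ i, ∃ C : ℝ, ∀ n : ℕ, {e | e ∈ E i ∧ M e ≤ n}.Finite ∧
      ({e | e ∈ E i ∧ M e ≤ n}.ncard : ℝ) ≤ C * Real.exp (κ i * n)) :
    ∃ σ : List α → α, ∀ i, ∀ ε : ℝ, 0 < ε → ∃ C' : ℝ, ∀ e ∈ E i,
      (obeys σ (code e) : ℝ) * Real.log (Fintype.card α) ≤ (κ i + ε) * M e + C' := by
  classical
  let g : ι × ℕ → β → ℝ≥0∞ := fun p => (E p.1).indicator
    (fun e => ENNReal.ofReal (Real.exp (-((κ p.1 + 1 / ((p.2 : ℝ) + 1)) * M e))))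
  have hg : ∀ p, ∑' e, g p e ≠ ⊤ := by
    rintro ⟨i, j⟩
    obtain ⟨C, hC⟩ := h i
    show ∑' e, (E i).indicator _ e ≠ ⊤
    rw [← tsum_subtype]
    exact exp_weight_sum (E i) M hM C (κ i) (1 / ((j : ℝ) + 1)) (hκ i) (by positivity) hC
  obtain ⟨σ, hσ⟩ := universal_weights code g hg
  refine ⟨σ, fun i ε hε => ?_⟩
  obtain ⟨j, hj⟩ := exists_nat_one_div_lt hε
  obtain ⟨c, hc, hce⟩ := hσ (i, j)
  refine ⟨Real.log (c.toReal + 1), fun e he => ?_⟩
  have h1 := hce e
  have h2 : g (i, j) e = ENNReal.ofReal (Real.exp (-((κ i + 1 / ((j : ℝ) + 1)) * M e))) :=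
    Set.indicator_of_mem he _
  rw [h2] at h1
  have h3 := ENNReal.toReal_mono hc h1
  rw [ENNReal.toReal_mul, ENNReal.toReal_pow, ENNReal.toReal_natCast,
    ENNReal.toReal_ofReal (Real.exp_pos _).le] at h3
  have hcard : (1 : ℝ) < Fintype.card α := by exact_mod_cast Fintype.one_lt_card
  have hc0 : 0 ≤ c.toReal := ENNReal.toReal_nonneg
  have h4 : (Fintype.card α : ℝ) ^ obeys σ (code e) * Real.exp (-((κ i + 1 / ((j : ℝ) + 1)) * M e))
      ≤ c.toReal + 1 := by linarith
  have h5 := Real.log_le_log (by positivity) h4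
  rw [Real.log_mul (by positivity) (Real.exp_pos _).ne', Real.log_pow, Real.log_exp] at h5
  have h6 : (κ i + 1 / ((j : ℝ) + 1)) * M e ≤ (κ i + ε) * M e := by
    apply mul_le_mul_of_nonneg_right _ (hM e)
    linarith
  linarith

/-- the first `n` moves of the infinite play `x` -/
def play {α : Type*} (x : ℕ → α) (n : ℕ) : List α := (List.range n).map x

/-- the number of those of the first `n` moves of the play `x` which are the ones prescribed by the rule `σ` -/
def moves {α : Type*} [DecidableEq α] (σ : List α → α) (x : ℕ → α) (n : ℕ) : ℕ :=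
  ((Finset.range n).filter fun i => x i = σ (play x i)).card

theorem play_succ {α : Type*} (x : ℕ → α) (n : ℕ) : play x (n + 1) = play x n ++ [x n] := by
  simp [play, List.range_succ]

theorem play_length {α : Type*} (x : ℕ → α) (n : ℕ) : (play x n).length = n := by simp [play]

theorem moves_eq {α : Type*} [DecidableEq α] (σ : List α → α) (x : ℕ → α) (n : ℕ) :
    moves σ x n = obeys σ (play x n) := by
  induction n with
  | zero => simp [moves, play, obeys]
  | succ n ih =>
    rw [play_succ, obeys_snoc, ← ih]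
    unfold moves
    rw [Finset.range_add_one, Finset.filter_insert]
    by_cases h : x n = σ (play x n)
    · rw [if_pos h, if_pos h, Finset.card_insert_of_notMem (by simp)]
    · rw [if_neg h, if_neg h, add_zero]

/-- **The game form for digits.** One rule for countably many sets of integers. -/
theorem digit_game {ι : Type*} [Countable ι] {b : ℕ} (hb : 2 ≤ b) (E : ι → Set ℕ) (M : ℕ → ℝ)
    (hM : ∀ e, 0 ≤ M e) (κ : ι → ℝ) (hκ : ∀ i, 0 ≤ κ i)
    (h : ∀ i, ∃ C : ℝ, ∀ n : ℕ, {e | e ∈ E i ∧ M e ≤ n}.Finite ∧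
      ({e | e ∈ E i ∧ M e ≤ n}.ncard : ℝ) ≤ C * Real.exp (κ i * n)) :
    ∃ σ : List ℕ → ℕ, (∀ u, σ u < b) ∧ ∀ i, ∀ ε : ℝ, 0 < ε → ∃ C' : ℝ,
      ∀ (x : ℕ → ℕ) (n m : ℕ), m ∈ E i → play x n <+: (Nat.digits b m).reverse →
        (moves σ x n : ℝ) * Real.log b ≤ (κ i + ε) * M m + C' := by
  classical
  haveI : Nontrivial (Fin b) := Fin.nontrivial_iff_two_le.mpr hb
  haveI : NeZero b := ⟨by omega⟩
  let toF : ℕ → Fin b := fun d => Fin.ofNat b d
  obtain ⟨σ, hσ⟩ := universal (α := Fin b) (fun m : ℕ => ((Nat.digits b m).reverse).map toF) E M hM κ hκ h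
  let σ' : List ℕ → ℕ := fun u => (σ (u.map toF)).val
  refine ⟨σ', fun u => (σ (u.map toF)).isLt, fun i ε hε => ?_⟩
  obtain ⟨C', hC'⟩ := hσ i ε hε
  refine ⟨C', fun x n m hm hpre => ?_⟩
  have h1 := hC' m hm
  rw [Fintype.card_fin] at h1
  have h2 : moves σ' x n ≤ obeys σ (((Nat.digits b m).reverse).map toF) := by
    rw [moves_eq]
    obtain ⟨s, hs⟩ := hpre
    rw [← hs]
    have e1 := obeys_append_ge σ ((play x n).map toF) (s.map toF)
    rw [← List.map_append] at e1
    refine le_trans ?_ e1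
    unfold obeys
    rw [List.length_map]
    apply Finset.card_le_card
    intro i hi
    rw [Finset.mem_filter] at hi ⊢
    refine ⟨hi.1, ?_⟩
    rw [List.getElem?_map, hi.2, Option.map_some, ← List.map_take]
    congr 1
    show Fin.ofNat b (σ (((play x n).take i).map toF)).val = _
    apply Fin.ext
    rw [Fin.val_ofNat]
    exact Nat.mod_eq_of_lt (σ (((play x n).take i).map toF)).isLt
  have h3 : ((moves σ' x n : ℕ) : ℝ) ≤ (obeys σ (((Nat.digits b m).reverse).map toF) : ℝ) := by
    exact_mod_cast h2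
  have hlb : 0 ≤ Real.log b := Real.log_natCast_nonneg b
  have h4 := mul_le_mul_of_nonneg_right h3 hlb
  linarith

end Pool.Agent.H48.GM
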