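import Mathlib
import Pool.Agent.H48.GM.Universal

set_option autoImplicit false

/-!
# The digit game for the truncated expansions of real numbers

The objects are the finite sequences of digits `w`, with the value `val b w = 0.w` in base `b`. If for all `δ > 0` at most
`C b ^ (δ n)` of the sequences of length `n` are exceptional, a player who makes a positive proportion of the choices
avoids all exceptional truncations from some point on.
-/

namespace Pool.Agent.H48.GM

open Real

/-- the value of the finite expansion `0.w` in base `b` -/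
def val (b : ℕ) : List ℕ → ℚ
  | [] => 0
  | d :: w => ((d : ℚ) + val b w) / b

theorem val_nonneg (b : ℕ) (w : List ℕ) : 0 ≤ val b w := by
  induction w with
  | nil => simp [val]
  | cons d w ih =>
    unfold val
    positivity

theorem val_lt_one {b : ℕ} (hb : 2 ≤ b) (w : List ℕ) (hw : ∀ d ∈ w, d < b) : val b w < 1 := by
  induction w with
  | nil => simp [val]
  | cons d w ih =>
    have hb' : (0 : ℚ) < b := by exact_mod_cast (by omega : 0 < b)
    have h1 : (d : ℚ) + 1 ≤ b := by exact_mod_cast hw d (List.mem_cons_self)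
    have h2 := ih fun e he => hw e (List.mem_cons_of_mem _ he)
    unfold val
    rw [div_lt_one hb']
    linarith

theorem val_inj {b : ℕ} (hb : 2 ≤ b) : ∀ (w v : List ℕ), (∀ d ∈ w, d < b) → (∀ d ∈ v, d < b) →
    w.length = v.length → val b w = val b v → w = v := by
  intro w
  induction w with
  | nil =>
    intro v _ _ hl _
    exact (List.length_eq_zero_iff.mp hl.symm).symm
  | cons d w ih =>
    intro v hw hv hl he
    cases v with
    | nil => simp at hl
    | cons e v =>
      have hb' : (b : ℚ) ≠ 0 := by exact_mod_cast (by omega : b ≠ 0)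
      unfold val at he
      rw [div_left_inj' hb'] at he
      have h1 := val_nonneg b w
      have h2 := val_nonneg b v
      have h3 := val_lt_one hb w fun e he => hw e (List.mem_cons_of_mem _ he)
      have h4 := val_lt_one hb v fun e he => hv e (List.mem_cons_of_mem _ he)
      have h5 : (d : ℤ) < e + 1 := by
        have : (d : ℚ) < (e : ℚ) + 1 := by linarith
        exact_mod_cast this
      have h6 : (e : ℤ) < d + 1 := by
        have : (e : ℚ) < (d : ℚ) + 1 := by linarith
        exact_mod_cast this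
      have h7 : d = e := by omega
      subst h7
      have h8 : val b w = val b v := by linarith
      rw [ih v (fun e he => hw e (List.mem_cons_of_mem _ he)) (fun e he => hv e (List.mem_cons_of_mem _ he))
        (by simpa using hl) h8]

theorem val_int {b : ℕ} (hb : 2 ≤ b) (w : List ℕ) : ∃ z : ℤ, (z : ℚ) = val b w * (b : ℚ) ^ w.length := by
  induction w with
  | nil => exact ⟨0, by simp [val]⟩
  | cons d w ih =>
    obtain ⟨z, hz⟩ := ih
    have hb' : (b : ℚ) ≠ 0 := by exact_mod_cast (by omega : b ≠ 0)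
    refine ⟨d * b ^ w.length + z, ?_⟩
    unfold val
    push_cast
    rw [List.length_cons, pow_succ, hz]
    field_simp

theorem val_snoc {b : ℕ} (hb : 2 ≤ b) (w : List ℕ) (c : ℕ) :
    val b (w ++ [c]) = val b w + c / (b : ℚ) ^ (w.length + 1) := by
  have hb' : (b : ℚ) ≠ 0 := by exact_mod_cast (by omega : b ≠ 0)
  induction w with
  | nil => simp [val]
  | cons d w ih =>
    rw [List.cons_append, val, ih, val, List.length_cons, pow_succ]
    field_simp
    ring

theorem val_play {b : ℕ} (hb : 2 ≤ b) (x : ℕ → ℕ) (n : ℕ) :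
    val b (play x n) = ∑ i ∈ Finset.range n, (x i : ℚ) / (b : ℚ) ^ (i + 1) := by
  induction n with
  | zero => simp [play, val]
  | succ n ih => rw [play_succ, val_snoc hb, ih, play_length, Finset.sum_range_succ]

theorem den_le {q : ℚ} {m : ℕ} (hm : 0 < m) (z : ℤ) (h : (z : ℚ) = q * m) : q.den ≤ m := by
  have h1 : q = (z : ℚ) / (m : ℚ) := by
    have : (m : ℚ) ≠ 0 := by exact_mod_cast hm.ne'
    rw [h]
    field_simp
  have h2 : q.den ∣ m := by
    have := Rat.den_dvd z m
    rw [h1]
    have e : ((z : ℚ) / (m : ℚ)) = ((z : ℚ) / ((m : ℤ) : ℚ)) := by push_cast; rfl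
    rw [e]
    exact_mod_cast this
  exact Nat.le_of_dvd hm h2

theorem words_finite (b n : ℕ) : {w : List ℕ | w.length = n ∧ ∀ d ∈ w, d < b}.Finite := by
  have h : {w : List ℕ | w.length = n ∧ ∀ d ∈ w, d < b} ⊆
      (fun f : Fin n → Fin b => List.ofFn fun i => (f i : ℕ)) '' Set.univ := by
    rintro w ⟨hl, hw⟩
    subst hl
    refine ⟨fun i => ⟨w.get i, hw _ (List.get_mem _ _)⟩, trivial, ?_⟩
    simp
  exact (Set.finite_univ.image _).subset h

theorem words_card (b n : ℕ) : {w : List ℕ | w.length = n ∧ ∀ d ∈ w, d < b}.ncard ≤ b ^ n := by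
  have h : {w : List ℕ | w.length = n ∧ ∀ d ∈ w, d < b} ⊆
      (fun f : Fin n → Fin b => List.ofFn fun i => (f i : ℕ)) '' Set.univ := by
    rintro w ⟨hl, hw⟩
    subst hl
    refine ⟨fun i => ⟨w.get i, hw _ (List.get_mem _ _)⟩, trivial, ?_⟩
    simp
  refine (Set.ncard_le_ncard h (Set.finite_univ.image _)).trans ((Set.ncard_image_le Set.finite_univ).trans ?_)
  rw [Set.ncard_univ, Nat.card_eq_fintype_card, Fintype.card_fun, Fintype.card_fin, Fintype.card_fin]

/-- the exceptional words of length `n`, counted by short intervals -/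
theorem count_short' {b : ℕ} (hb : 2 ≤ b) (a : ℤ) (P : ℝ → ℚ → Prop) (C : ℕ) (T₀ δ : ℝ) (hδ : 0 < δ)
    (h : ∀ T : ℝ, T₀ ≤ T → ∀ Y : Finset ℚ,
      (∀ x ∈ Y, (a : ℝ) ≤ x ∧ (x : ℝ) ≤ a + 1 ∧ (x.den : ℝ) ≤ T) → (∀ x ∈ Y, P T x) →
      (∀ x ∈ Y, ∀ y ∈ Y, |(x : ℝ) - y| ≤ T ^ (-δ)) → Y.card ≤ C) :
    ∃ C' : ℝ, ∀ n : ℕ,
      ({w : List ℕ | w.length = n ∧ (∀ d ∈ w, d < b) ∧ P ((b : ℝ) ^ n) (a + val b w)}.ncard : ℝ) ≤
        C' * ((b : ℝ) ^ n) ^ δ := by
  classical
  refine ⟨2 * C + |T₀|, fun n => ?_⟩
  set T : ℝ := (b : ℝ) ^ n with hT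
  have hb1 : (1 : ℝ) ≤ b := by exact_mod_cast (by omega : 1 ≤ b)
  have hT1 : 1 ≤ T := one_le_pow₀ hb1
  have hTδ : 1 ≤ T ^ δ := one_le_rpow hT1 hδ.le
  set W : Set (List ℕ) := {w : List ℕ | w.length = n ∧ (∀ d ∈ w, d < b) ∧ P T (a + val b w)} with hW
  have hWfin : W.Finite := (words_finite b n).subset fun w hw => ⟨hw.1, hw.2.1⟩
  by_cases hT0 : T₀ ≤ T
  · set J : ℕ := ⌈T ^ δ⌉₊ with hJ
    have hJ0 : 0 < J := Nat.ceil_pos.mpr (by positivity)
    have hJr : T ^ δ ≤ J := Nat.le_ceil _
    have hJr' : (J : ℝ) < T ^ δ + 1 := Nat.ceil_lt_add_one (by positivity)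
    have hJq : (0 : ℚ) < J := by exact_mod_cast hJ0
    let cell : List ℕ → ℕ := fun w => ⌊val b w * J⌋₊
    have hcell : ∀ w ∈ W, cell w ∈ Finset.range J := by
      intro w hw
      rw [Finset.mem_range]
      have h1 := val_lt_one hb w hw.2.1
      have h2 := val_nonneg b w
      rw [Nat.floor_lt (by positivity)]
      calc val b w * J < 1 * J := by gcongr
        _ = J := one_mul _
    have hcard : (hWfin.toFinset).card ≤ C * (Finset.range J).card := by
      apply Finset.card_le_mul_card_image_of_maps_to (f := cell)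
      · intro w hw
        exact hcell w (hWfin.mem_toFinset.mp hw)
      · intro j hj
        set Wj := hWfin.toFinset.filter fun w => cell w = j with hWj
        have hmem : ∀ w ∈ Wj, w ∈ W ∧ cell w = j := by
          intro w hw
          rw [hWj, Finset.mem_filter, hWfin.mem_toFinset] at hw
          exact hw
        set Y : Finset ℚ := Wj.image fun w => (a : ℚ) + val b w with hY
        have hinj : Set.InjOn (fun w => (a : ℚ) + val b w) Wj := by
          intro w hw v hv he
          have h1 := (hmem w hw).1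
          have h2 := (hmem v hv).1
          exact val_inj hb w v h1.2.1 h2.2.1 (h1.1.trans h2.1.symm) (by simpa using he)
        have hYP : ∀ x ∈ Y, P T x := by
          intro x hx
          rw [hY, Finset.mem_image] at hx
          obtain ⟨w, hw, rfl⟩ := hx
          exact (hmem w hw).1.2.2
        have h1 := h T hT0 Y (by
          intro x hx
          rw [hY, Finset.mem_image] at hx
          obtain ⟨w, hw, rfl⟩ := hx
          obtain ⟨⟨hl, hd, -⟩, -⟩ := hmem w hw
          have e1 := val_nonneg b w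
          have e2 := val_lt_one hb w hd
          obtain ⟨z, hz⟩ := val_int hb w
          have e3 : ((a : ℚ) + val b w).den ≤ b ^ n := by
            apply den_le (by positivity) (a * b ^ n + z)
            push_cast
            rw [hz, hl]
            ring
          refine ⟨?_, ?_, ?_⟩
          · push_cast
            have : (0 : ℝ) ≤ (val b w : ℝ) := by exact_mod_cast e1
            linarith
          · push_cast
            have : (val b w : ℝ) ≤ 1 := by exact_mod_cast e2.le
            linarith
          · rw [hT]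
            exact_mod_cast e3) hYP (by
          intro x hx y hy
          rw [hY, Finset.mem_image] at hx hy
          obtain ⟨w, hw, rfl⟩ := hx
          obtain ⟨v, hv, rfl⟩ := hy
          have c1 : ⌊val b w * J⌋₊ = j := (hmem w hw).2
          have c2 : ⌊val b v * J⌋₊ = j := (hmem v hv).2
          have w0 := val_nonneg b w
          have v0 := val_nonneg b v
          have d1 := Nat.floor_le (show 0 ≤ val b w * J by positivity)
          have d2 := Nat.lt_floor_add_one (val b w * J)
          have d3 := Nat.floor_le (show 0 ≤ val b v * J by positivity)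
          have d4 := Nat.lt_floor_add_one (val b v * J)
          rw [c1] at d1 d2
          rw [c2] at d3 d4
          have e1 : |(((a : ℚ) + val b w : ℚ) : ℝ) - (((a : ℚ) + val b v : ℚ) : ℝ)| * J ≤ 1 := by
            have f1 : |(((a : ℚ) + val b w) - ((a : ℚ) + val b v))| * J ≤ 1 := by
              rw [show ((a : ℚ) + val b w) - ((a : ℚ) + val b v) = val b w - val b v by ring,
                ← abs_of_pos hJq, ← abs_mul, abs_le]
              constructor <;> nlinarith
            exact_mod_cast f1
          have hJR : (0 : ℝ) < J := by exact_mod_cast hJ0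
          rw [rpow_neg (by linarith)]
          calc |(((a : ℚ) + val b w : ℚ) : ℝ) - (((a : ℚ) + val b v : ℚ) : ℝ)| ≤ 1 / J := by
                rw [le_div_iff₀ hJR]
                exact e1
            _ ≤ (T ^ δ)⁻¹ := by
                rw [one_div]
                gcongr)
        rw [hY, Finset.card_image_of_injOn hinj] at h1
        exact h1
    have h2 : W.ncard = (hWfin.toFinset).card := Set.ncard_eq_toFinset_card W hWfin
    rw [h2]
    have h3 : ((hWfin.toFinset).card : ℝ) ≤ C * J := by
      rw [Finset.card_range] at hcard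
      exact_mod_cast hcard
    refine h3.trans ?_
    have hC : (0 : ℝ) ≤ C := Nat.cast_nonneg _
    have h4 : (J : ℝ) ≤ 2 * T ^ δ := by linarith
    have h5 := abs_nonneg T₀
    nlinarith [mul_le_mul_of_nonneg_left h4 hC, mul_nonneg h5 (zero_le_one.trans hTδ)]
  · push Not at hT0
    have h1 : W.ncard ≤ b ^ n := (Set.ncard_le_ncard
      (show W ⊆ {w : List ℕ | w.length = n ∧ ∀ d ∈ w, d < b} from fun w hw => ⟨hw.1, hw.2.1⟩)
      (words_finite b n)).trans (words_card b n)
    have h2 : (W.ncard : ℝ) ≤ T := by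
      rw [hT]
      exact_mod_cast h1
    have h3 : T ≤ |T₀| := hT0.le.trans (le_abs_self _)
    have hC : (0 : ℝ) ≤ C := Nat.cast_nonneg _
    have h5 := abs_nonneg T₀
    nlinarith [mul_nonneg hC (zero_le_one.trans hTδ), mul_le_mul_of_nonneg_left hTδ h5]

/-- the exceptional words of length `n`, counted by short intervals -/
theorem count_short {b : ℕ} (hb : 2 ≤ b) (a : ℤ) (P : ℝ → ℚ → Prop) (C : ℕ) (T₀ δ : ℝ) (hδ : 0 < δ)
    (h : ∀ T : ℝ, T₀ ≤ T → ∀ Y : Finset ℚ,
      (∀ x ∈ Y, (a : ℝ) ≤ x ∧ (x : ℝ) ≤ a + 1 ∧ (x.den : ℝ) ≤ T) →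
      (∀ x ∈ Y, ∀ y ∈ Y, |(x : ℝ) - y| ≤ T ^ (-δ)) → {x : ℚ | x ∈ Y ∧ P T x}.ncard ≤ C) :
    ∃ C' : ℝ, ∀ n : ℕ,
      ({w : List ℕ | w.length = n ∧ (∀ d ∈ w, d < b) ∧ P ((b : ℝ) ^ n) (a + val b w)}.ncard : ℝ) ≤
        C' * ((b : ℝ) ^ n) ^ δ := by
  apply count_short' hb a P C T₀ δ hδ
  intro T hT Y hY hYP hYd
  have h1 := h T hT Y hY hYd
  have h2 : {x : ℚ | x ∈ Y ∧ P T x} = (Y : Set ℚ) := by
    ext x
    simp only [Set.mem_setOf_eq, Finset.mem_coe]
    exact ⟨fun hx => hx.1, fun hx => ⟨hx, hYP x hx⟩⟩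
  rw [h2, Set.ncard_coe_finset] at h1
  exact h1

/-- **The digit game for truncated expansions.** -/
theorem trunc_game {ι : Type*} [Countable ι] {b : ℕ} (hb : 2 ≤ b) (E : ι → Set (List ℕ))
    (h : ∀ i, ∀ δ : ℝ, 0 < δ → ∃ C : ℝ, ∀ n : ℕ,
      ({w : List ℕ | w.length = n ∧ (∀ d ∈ w, d < b) ∧ w ∈ E i}.ncard : ℝ) ≤ C * ((b : ℝ) ^ n) ^ δ) :
    ∃ σ : List ℕ → ℕ, (∀ u, σ u < b) ∧ ∀ i, ∀ δ : ℝ, 0 < δ → ∃ C : ℝ,
      ∀ (x : ℕ → ℕ), (∀ i, x i < b) → ∀ n : ℕ, δ * n + C < moves σ x n → play x n ∉ E i := by
  classical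
  haveI : Nontrivial (Fin b) := Fin.nontrivial_iff_two_le.mpr hb
  haveI : NeZero b := ⟨by omega⟩
  have hb' : (1 : ℝ) < b := by exact_mod_cast hb
  have hlb : 0 < log (b : ℝ) := log_pos hb'
  let toF : ℕ → Fin b := fun d => Fin.ofNat b d
  obtain ⟨σ, hσ⟩ := universal (α := Fin b) (β := List (Fin b)) (ι := ι × ℕ) id
    (fun p => {w | w.map Fin.val ∈ E p.1}) (fun w => w.length) (fun w => Nat.cast_nonneg _)
    (fun p => 1 / ((p.2 : ℝ) + 1)) (fun p => by positivity) (by
      rintro ⟨i, j⟩
      set δ : ℝ := 1 / ((j : ℝ) + 1) with hδ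
      have hδ0 : 0 < δ := by positivity
      obtain ⟨C, hC⟩ := h i (δ / log b) (by positivity)
      have hC' : ∀ n : ℕ, ({w : List ℕ | w.length = n ∧ (∀ d ∈ w, d < b) ∧ w ∈ E i}.ncard : ℝ) ≤
          C * exp (δ * n) := by
        intro n
        refine (hC n).trans (le_of_eq ?_)
        congr 1
        rw [rpow_def_of_pos (by positivity), log_pow]
        congr 1
        field_simp
      have hfin : ∀ n : ℕ, {w : List (Fin b) | w.length = n}.Finite := fun n => List.finite_length_eq _ _
      have hCnn : 0 ≤ C := by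
        have h1 := hC' 0
        have h0 : (0 : ℝ) ≤ ({w : List ℕ | w.length = 0 ∧ (∀ d ∈ w, d < b) ∧ w ∈ E i}.ncard : ℝ) :=
          Nat.cast_nonneg _
        simp only [Nat.cast_zero, mul_zero, exp_zero, mul_one] at h1
        linarith
      have hone : ∀ n : ℕ, ({w : List (Fin b) | w.length = n ∧ w.map Fin.val ∈ E i}.ncard : ℝ) ≤
          C * exp (δ * n) := by
        intro n
        refine le_trans ?_ (hC' n)
        have hinj : Function.Injective (List.map (Fin.val : Fin b → ℕ)) :=
          List.map_injective_iff.mpr Fin.val_injective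
        rw [← Set.ncard_image_of_injective _ hinj]
        have hsub : (List.map (Fin.val : Fin b → ℕ)) '' {w : List (Fin b) | w.length = n ∧ w.map Fin.val ∈ E i} ⊆
            {w : List ℕ | w.length = n ∧ (∀ d ∈ w, d < b) ∧ w ∈ E i} := by
          rintro _ ⟨w, ⟨hl, hw⟩, rfl⟩
          refine ⟨by simpa using hl, ?_, hw⟩
          intro d hd
          rw [List.mem_map] at hd
          obtain ⟨c, -, rfl⟩ := hd
          exact c.isLt
        exact_mod_cast Set.ncard_le_ncard hsub ((words_finite b n).subset fun w hw => ⟨hw.1, hw.2.1⟩)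
      refine ⟨C / (1 - exp (-δ)), fun n => ?_⟩
      have hU : {w : List (Fin b) | w ∈ {w : List (Fin b) | w.map Fin.val ∈ E i} ∧ ((w.length : ℕ) : ℝ) ≤ n} ⊆
          ⋃ l ∈ Finset.range (n + 1), {w : List (Fin b) | w.length = l ∧ w.map Fin.val ∈ E i} := by
        rintro w ⟨hw, hl⟩
        rw [Set.mem_iUnion₂]
        have : w.length ≤ n := by exact_mod_cast hl
        exact ⟨w.length, Finset.mem_range.mpr (by omega), rfl, hw⟩
      have hUfin : (⋃ l ∈ Finset.range (n + 1),
          {w : List (Fin b) | w.length = l ∧ w.map Fin.val ∈ E i}).Finite :=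
        Set.Finite.biUnion (Finset.finite_toSet _) fun l _ => (hfin l).subset fun w hw => hw.1
      refine ⟨hUfin.subset hU, ?_⟩
      have h1 : (⋃ l ∈ Finset.range (n + 1),
          {w : List (Fin b) | w.length = l ∧ w.map Fin.val ∈ E i}).ncard ≤
          ∑ l ∈ Finset.range (n + 1), {w : List (Fin b) | w.length = l ∧ w.map Fin.val ∈ E i}.ncard := by
        generalize n + 1 = m
        induction m with
        | zero => simp
        | succ J ih =>
          rw [Finset.sum_range_succ, Finset.range_add_one, Finset.set_biUnion_insert, Set.union_comm]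
          refine (Set.ncard_union_le _ _).trans ?_
          gcongr
      have h2 : ({w : List (Fin b) | w ∈ {w : List (Fin b) | w.map Fin.val ∈ E i} ∧
          ((w.length : ℕ) : ℝ) ≤ n}.ncard : ℝ) ≤ ∑ l ∈ Finset.range (n + 1), C * exp (δ * l) := by
        refine le_trans ?_ (Finset.sum_le_sum fun l _ => hone l)
        exact_mod_cast (Set.ncard_le_ncard hU hUfin).trans h1
      refine h2.trans ?_
      have hq : exp (-δ) < 1 := by rw [exp_lt_one_iff]; linarith
      have hgeo : ∀ m : ℕ, ∑ l ∈ Finset.range (m + 1), C * exp (δ * l) ≤ C / (1 - exp (-δ)) * exp (δ * m) := by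
        intro m
        induction m with
        | zero =>
          simp only [zero_add, Finset.range_one, Finset.sum_singleton, Nat.cast_zero, mul_zero, exp_zero, mul_one]
          rw [le_div_iff₀ (by linarith)]
          nlinarith [exp_pos (-δ)]
        | succ m ih =>
          rw [Finset.sum_range_succ]
          refine (add_le_add_left ih _).trans ?_
          have e1 : exp (δ * m) = exp (-δ) * exp (δ * ((m + 1 : ℕ) : ℝ)) := by
            rw [← exp_add]
            congr 1
            push_cast
            ring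
          rw [e1]
          have e2 : (0 : ℝ) < 1 - exp (-δ) := by linarith
          have e3 : C / (1 - exp (-δ)) * (exp (-δ) * exp (δ * ((m + 1 : ℕ) : ℝ))) +
              C * exp (δ * ((m + 1 : ℕ) : ℝ)) = C / (1 - exp (-δ)) * exp (δ * ((m + 1 : ℕ) : ℝ)) := by
            field_simp
            ring
          exact e3.le
      exact hgeo n)
  let σ' : List ℕ → ℕ := fun u => (σ (u.map toF)).val
  refine ⟨σ', fun u => (σ (u.map toF)).isLt, fun i δ hδ => ?_⟩
  obtain ⟨j, hj⟩ := exists_nat_one_div_lt (show 0 < δ * log b / 2 by positivity)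
  obtain ⟨C', hC'⟩ := hσ (i, j) (δ * log b / 2) (by positivity)
  refine ⟨C' / log b, fun x hx n hmov hE => ?_⟩
  have hmap : ((play x n).map toF).map Fin.val = play x n := by
    rw [List.map_map]
    unfold play
    rw [List.map_map]
    apply List.map_congr_left
    intro k _
    show (Fin.ofNat b (x k)).val = x k
    rw [Fin.val_ofNat]
    exact Nat.mod_eq_of_lt (hx k)
  have h1 := hC' ((play x n).map toF) (by
    show ((play x n).map toF).map Fin.val ∈ E i
    rw [hmap]
    exact hE)
  simp only [id_eq, List.length_map, play_length, Fintype.card_fin] at h1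
  have h2 : moves σ' x n ≤ obeys σ ((play x n).map toF) := by
    rw [moves_eq]
    unfold obeys
    rw [List.length_map]
    apply Finset.card_le_card
    intro i hi
    rw [Finset.mem_filter] at hi ⊢
    refine ⟨hi.1, ?_⟩
    rw [List.getElem?_map, hi.2, Option.map_some, ← List.map_take]
    congr 1
    show Fin.ofNat b (σ (((play x n).take i).map toF)).val = _
    apply Fin.ext
    rw [Fin.val_ofNat]
    exact Nat.mod_eq_of_lt (σ (((play x n).take i).map toF)).isLt
  have h3 : ((moves σ' x n : ℕ) : ℝ) ≤ (obeys σ ((play x n).map toF) : ℝ) := by exact_mod_cast h2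
  have h4 := mul_le_mul_of_nonneg_right h3 hlb.le
  have h5 := mul_lt_mul_of_pos_right hmov hlb
  have h6 : (δ * n + C' / log b) * log b = δ * log b * n + C' := by
    field_simp
  rw [h6] at h5
  have hn : (0 : ℝ) ≤ n := Nat.cast_nonneg _
  have h7 : (1 / ((j : ℝ) + 1) + δ * log b / 2) * n ≤ (δ * log b) * n := by
    apply mul_le_mul_of_nonneg_right _ hn
    linarith
  linarith

end Pool.Agent.H48.GM
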