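import Mathlib
import Pool.Agent.H48.GM.Trunc

set_option autoImplicit false

/-!
# The digit game of fixed length for an arbitrary finite set
-/

namespace Pool.Agent.H48.GM

open scoped ENNReal

/-- `n` digits are written down; `f` is the object determined by them. A set with fewer than `b ^ M` members of this
form is avoided by a player who makes at least `M` of the `n` moves. -/
theorem avoid {b : ℕ} (hb : 2 ≤ b) (n M : ℕ) {X : Type*} (f : (Fin n → Fin b) → X) (hf : Function.Injective f)
    (E : Set X) (hE : {w : Fin n → Fin b | f w ∈ E}.ncard < b ^ M) :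
    ∃ σ : List ℕ → ℕ, (∀ u, σ u < b) ∧ ∀ x : ℕ → ℕ, (∀ j, x j < b) → M ≤ moves σ x n →
      ∀ w : Fin n → Fin b, (∀ j, (w j : ℕ) = x j) → f w ∉ E := by
  classical
  haveI : Nontrivial (Fin b) := Fin.nontrivial_iff_two_le.mpr hb
  haveI : NeZero b := ⟨by omega⟩
  -- the words of length `n`
  let fn : List (Fin b) → (Fin n → Fin b) := fun w j => w[(j : ℕ)]?.getD 0
  let W : Set (List (Fin b)) := {w | w.length = n ∧ f (fn w) ∈ E}
  have hinj : Set.InjOn fn W := by
    intro w hw v hv h
    apply List.ext_getElem (hw.1.trans hv.1.symm)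
    intro i hi hi'
    have h3 := congrFun h ⟨i, by rw [← hw.1]; exact hi⟩
    simpa [fn, List.getElem?_eq_getElem hi, List.getElem?_eq_getElem hi'] using h3
  have himg : fn '' W ⊆ {w : Fin n → Fin b | f w ∈ E} := by
    rintro _ ⟨w, hw, rfl⟩
    exact hw.2
  have hWfin : W.Finite := Set.Finite.of_finite_image ((Set.toFinite _).subset himg) hinj
  have hWcard : W.ncard < b ^ M := by
    refine lt_of_le_of_lt ?_ hE
    rw [← hinj.ncard_image]
    exact Set.ncard_le_ncard himg (Set.toFinite _)
  let g : List (Fin b) → ℝ≥0∞ := fun w => if w ∈ W then 1 else 0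
  have hg : ∑' w, g w = (W.ncard : ℝ≥0∞) := by
    rw [tsum_eq_sum (s := hWfin.toFinset) (by
      intro w hw
      rw [hWfin.mem_toFinset] at hw
      exact if_neg hw)]
    rw [Finset.sum_congr rfl (g := fun _ => (1 : ℝ≥0∞)) (by
      intro w hw
      rw [hWfin.mem_toFinset] at hw
      exact if_pos hw)]
    rw [Finset.sum_const, nsmul_eq_mul, mul_one, Set.ncard_eq_toFinset_card _ hWfin]
  let toF : ℕ → Fin b := fun d => Fin.ofNat b d
  refine ⟨fun u => (compass g (u.map toF)).val, fun u => (compass g (u.map toF)).isLt, ?_⟩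
  intro x hx hm v hv hE'
  have hpl : ∀ t, play (fun i => toF (x i)) t = (play x t).map toF := by
    intro t
    unfold play
    rw [List.map_map]
    rfl
  have hmv : moves (fun u => (compass g (u.map toF)).val) x n = obeys (compass g) (play (fun i => toF (x i)) n) := by
    rw [← moves_eq]
    unfold moves
    congr 1
    apply Finset.filter_congr
    intro i _
    rw [hpl]
    constructor
    · intro h1
      show toF (x i) = _
      rw [h1]
      apply Fin.ext
      show (Fin.ofNat b (compass g ((play x i).map toF)).val).val = _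
      rw [Fin.val_ofNat]
      exact Nat.mod_eq_of_lt (compass g ((play x i).map toF)).isLt
    · intro h1
      show x i = (compass g ((play x i).map toF)).val
      rw [← h1]
      show x i = (Fin.ofNat b (x i)).val
      rw [Fin.val_ofNat]
      exact (Nat.mod_eq_of_lt (hx i)).symm
  rw [hmv] at hm
  set w := play (fun i => toF (x i)) n with hw
  have hfn : fn w = v := by
    funext j
    apply Fin.ext
    rw [hv j]
    show ((w[(j : ℕ)]?.getD 0 : Fin b) : ℕ) = x j
    rw [hw]
    unfold play
    rw [List.getElem?_map, List.getElem?_range j.isLt]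
    simp only [Option.map_some, Option.getD_some]
    show (Fin.ofNat b (x j)).val = x j
    rw [Fin.val_ofNat]
    exact Nat.mod_eq_of_lt (hx j)
  have hwW : w ∈ W := ⟨play_length _ _, by rw [hfn]; exact hE'⟩
  have h1 := compass_main g w
  rw [hg] at h1
  have h2 : g w = 1 := if_pos hwW
  rw [h2, mul_one, Fintype.card_fin] at h1
  have h3 : (b : ℝ≥0∞) ^ M ≤ (W.ncard : ℝ≥0∞) := by
    refine le_trans ?_ h1
    exact pow_le_pow_right₀ (by exact_mod_cast (by omega : 1 ≤ b)) hm
  have h4 : b ^ M ≤ W.ncard := by exact_mod_cast h3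
  omega

/-- The point of `ℕ ^ k` with the coordinates `a_i + ∑_l x_(i,l) b ^ l`; the digits `x_(i,l)` are written down in the
order `π`. -/
def coords (b k L : ℕ) (a : Fin k → ℕ) (π : Fin (k * L) ≃ Fin k × Fin L) (x : ℕ → ℕ) : Fin k → ℕ :=
  fun i => a i + ∑ l : Fin L, x (π.symm (i, l) : Fin (k * L)) * b ^ (l : ℕ)

/-- A set with fewer than `b ^ M` points in the box `∏ [a_i, a_i + b ^ L)` is avoided by a player who makes at least `M`
of the `k L` moves. -/
theorem avoid_box {b : ℕ} (hb : 2 ≤ b) (k L M : ℕ) (a : Fin k → ℕ) (π : Fin (k * L) ≃ Fin k × Fin L)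
    (E : Set (Fin k → ℕ)) (hE : {t : Fin k → ℕ | (∀ i, a i ≤ t i ∧ t i < a i + b ^ L) ∧ t ∈ E}.ncard < b ^ M) :
    ∃ σ : List ℕ → ℕ, (∀ u, σ u < b) ∧ ∀ x : ℕ → ℕ, (∀ j, x j < b) → M ≤ moves σ x (k * L) →
      coords b k L a π x ∉ E := by
  classical
  let f : (Fin (k * L) → Fin b) → (Fin k → ℕ) := fun w i =>
    a i + (finFunctionFinEquiv (fun l : Fin L => w (π.symm (i, l))) : ℕ)
  have hf : Function.Injective f := by
    intro w v h
    funext p
    have h1 := congrFun h (π p).1
    have h2 := finFunctionFinEquiv.injective (Fin.ext (Nat.add_left_cancel h1))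
    have h3 := congrFun h2 (π p).2
    simpa using h3
  have hbox : ∀ w i, a i ≤ f w i ∧ f w i < a i + b ^ L := by
    intro w i
    refine ⟨Nat.le_add_right _ _, ?_⟩
    have := (finFunctionFinEquiv (fun l : Fin L => w (π.symm (i, l)))).isLt
    simp only [f]
    omega
  have hfin : {t : Fin k → ℕ | (∀ i, a i ≤ t i ∧ t i < a i + b ^ L) ∧ t ∈ E}.Finite :=
    (Set.finite_Iic (fun i : Fin k => a i + b ^ L)).subset fun t ht i => (ht.1 i).2.le
  obtain ⟨σ, hσb, hσ⟩ := avoid hb (k * L) M f hf E (by
    refine lt_of_le_of_lt ?_ hE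
    rw [← Set.ncard_image_of_injective _ hf]
    refine Set.ncard_le_ncard ?_ hfin
    rintro _ ⟨w, hw, rfl⟩
    exact ⟨hbox w, hw⟩)
  refine ⟨σ, hσb, fun x hx hmov => ?_⟩
  have h1 := hσ x hx hmov (fun j => ⟨x j, hx j⟩) (fun j => rfl)
  have h2 : f (fun j => ⟨x j, hx j⟩) = coords b k L a π x := by
    funext i
    simp only [f, coords]
    rw [finFunctionFinEquiv_apply]
  rwa [h2] at h1

end Pool.Agent.H48.GM
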