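import Mathlib

set_option autoImplicit false

/-!
# Rules for binary digits: a potential and special moves
-/

namespace Pool.Agent.H48.GM.BR

open Finset

/-- the number of the moves `j < n` at which the digit `x j` is the one named by the rule `σ` -/
def moves (σ : List ℕ → ℕ) (x : ℕ → ℕ) (n : ℕ) : ℕ :=
  ((range n).filter fun j => x j = σ ((List.range j).map x)).card

theorem moves_succ (σ : List ℕ → ℕ) (x : ℕ → ℕ) (n : ℕ) :
    moves σ x (n + 1) = moves σ x n + if x n = σ ((List.range n).map x) then 1 else 0 := by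
  unfold moves
  rw [range_add_one, filter_insert]
  split_ifs with h
  · rw [card_insert_of_notMem (by simp)]
  · rw [add_zero]

theorem moves_le (σ : List ℕ → ℕ) (x : ℕ → ℕ) (n : ℕ) : moves σ x n ≤ n := by
  unfold moves
  exact (card_filter_le _ _).trans (by simp)

theorem moves_mono (σ : List ℕ → ℕ) (x : ℕ → ℕ) {m n : ℕ} (h : m ≤ n) : moves σ x m ≤ moves σ x n := by
  unfold moves
  exact card_le_card (filter_subset_filter _ (range_subset_range.2 h))

theorem moves_add_le (σ : List ℕ → ℕ) (x : ℕ → ℕ) (m n : ℕ) : moves σ x (m + n) ≤ moves σ x m + n := by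
  induction n with
  | zero => simp
  | succ n ih =>
    rw [← add_assoc, moves_succ]
    split_ifs <;> omega

/-- the number of agreements with the decisions, for the list of the digits in reversed order -/
def cnt (dec : ℕ → List ℕ → ℕ) : List ℕ → ℕ
  | [] => 0
  | e :: r => cnt dec r + if e = dec (cnt dec r) r.reverse then 1 else 0

/-- the rule that follows the decisions, which may depend on the number of the moves so far -/
def rule (dec : ℕ → List ℕ → ℕ) (u : List ℕ) : ℕ := dec (cnt dec u.reverse) u

theorem cnt_eq (dec : ℕ → List ℕ → ℕ) (x : ℕ → ℕ) (n : ℕ) :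
    cnt dec ((List.range n).map x).reverse = moves (rule dec) x n := by
  induction n with
  | zero => simp [cnt, moves]
  | succ n ih =>
    rw [List.range_succ, List.map_append, List.reverse_append, List.map_singleton, List.reverse_singleton,
      List.singleton_append, cnt, ih, List.reverse_reverse, moves_succ]
    have h : rule dec ((List.range n).map x) = dec (moves (rule dec) x n) ((List.range n).map x) := by
      rw [← ih]
      rfl
    rw [h]

theorem rule_eq (dec : ℕ → List ℕ → ℕ) (x : ℕ → ℕ) (n : ℕ) :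
    rule dec ((List.range n).map x) = dec (moves (rule dec) x n) ((List.range n).map x) := by
  conv_lhs => rw [rule, cnt_eq]

/-- the binary digits of `t` -/
def digit (t j : ℕ) : ℕ := t / 2 ^ j % 2

theorem digit_lt (t j : ℕ) : digit t j < 2 := Nat.mod_lt _ (by norm_num)

theorem mod_succ (t k : ℕ) : t % 2 ^ (k + 1) = t % 2 ^ k + 2 ^ k * digit t k := by
  rw [Nat.mod_pow_succ, digit]

theorem ofDigits_digit (t k : ℕ) : Nat.ofDigits 2 ((List.range k).map (digit t)) = t % 2 ^ k := by
  induction k with
  | zero => simp [Nat.mod_one]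
  | succ k ih =>
    rw [List.range_succ, List.map_append, Nat.ofDigits_append, ih, mod_succ]
    simp

/-- the potential at the time `k'`, of the numbers born until the time `k` -/
noncomputable def pot (u : ℕ → ℕ → ℕ → ℝ) (b : ℕ → ℕ) (lam : ℝ) (k k' s : ℕ) : ℝ :=
  ∑' p, if b p ≤ k then (1 / 2 : ℝ) ^ p * lam ^ b p * u p k' s else 0

open scoped Classical in
/-- the decisions -/
noncomputable def dec (u : ℕ → ℕ → ℕ → ℝ) (b : ℕ → ℕ) (lam : ℝ) (A : ℕ → ℕ → ℕ → ℕ) (J m : ℕ) (l : List ℕ) : ℕ :=
  if J ∣ m + 1 then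
    if A (padicValNat 2 ((m + 1) / J)) (l.length + 1) (Nat.ofDigits 2 l) ≤
      A (padicValNat 2 ((m + 1) / J)) (l.length + 1) (Nat.ofDigits 2 l + 2 ^ l.length) then 1 else 0
  else if pot u b lam l.length (l.length + 1) (Nat.ofDigits 2 l + 2 ^ l.length) ≤
      pot u b lam l.length (l.length + 1) (Nat.ofDigits 2 l) then 1 else 0

section

variable {u : ℕ → ℕ → ℕ → ℝ} {b : ℕ → ℕ} {lam : ℝ}

theorem summable_half : Summable fun p : ℕ => (1 / 2 : ℝ) ^ p :=
  summable_geometric_of_lt_one (by norm_num) (by norm_num)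

theorem summable_pot (hu0 : ∀ p k s, 0 ≤ u p k s) (hu1 : ∀ p k s, u p k s ≤ 1) (h0 : 0 < lam) (h1 : lam ≤ 1)
    (P : ℕ → Prop) [DecidablePred P] (k' s : ℕ) :
    Summable fun p => if P p then (1 / 2 : ℝ) ^ p * lam ^ b p * u p k' s else 0 := by
  refine Summable.of_nonneg_of_le (fun p => ?_) (fun p => ?_) summable_half
  · split_ifs
    · have := hu0 p k' s
      positivity
    · exact le_rfl
  · split_ifs
    · have e1 := hu0 p k' s
      have e2 := hu1 p k' s
      have e3 : lam ^ b p ≤ 1 := pow_le_one₀ h0.le h1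
      have e4 : (0 : ℝ) < (1 / 2 : ℝ) ^ p := by positivity
      calc (1 / 2 : ℝ) ^ p * lam ^ b p * u p k' s ≤ (1 / 2 : ℝ) ^ p * 1 * 1 := by
            have : (0 : ℝ) ≤ lam ^ b p := by positivity
            gcongr
        _ = _ := by ring
    · positivity

theorem summable_half' (P : ℕ → Prop) [DecidablePred P] :
    Summable fun p : ℕ => if P p then (1 / 2 : ℝ) ^ p else 0 := by
  refine Summable.of_nonneg_of_le (fun p => ?_) (fun p => ?_) summable_half
  · split_ifs <;> positivity
  · split_ifs
    · exact le_rfl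
    · positivity

/-- the number of the growth moves among the first `m` moves -/
def grow (J m : ℕ) : ℕ := m - m / J

theorem grow_succ {J : ℕ} (hJ : 2 ≤ J) (m : ℕ) : grow J (m + 1) = grow J m + if J ∣ m + 1 then 0 else 1 := by
  unfold grow
  rw [Nat.succ_div]
  have h1 : m / J ≤ m := Nat.div_le_self _ _
  split_ifs with h
  · omega
  · omega

theorem grow_le (J m : ℕ) : grow J m ≤ m := Nat.sub_le _ _

theorem pot_le_two (hu0 : ∀ p k s, 0 ≤ u p k s) (hu1 : ∀ p k s, u p k s ≤ 1) (h0 : 0 < lam) (h1 : lam ≤ 1)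
    (hmono : ∀ p k s e, b p ≤ k → s < 2 ^ k → e < 2 → u p (k + 1) (s + 2 ^ k * e) ≤ u p k s)
    (hsum : ∀ p k s, b p ≤ k → s < 2 ^ k → u p (k + 1) s + u p (k + 1) (s + 2 ^ k) ≤ 2 * lam * u p k s)
    (A : ℕ → ℕ → ℕ → ℕ) {J : ℕ} (hJ : 2 ≤ J) (t k : ℕ) :
    pot u b lam k k (t % 2 ^ k) ≤ lam ^ grow J (moves (rule (dec u b lam A J)) (digit t) k) *
      ∑' p : ℕ, if b p ≤ k then (1 / 2 : ℝ) ^ p else 0 := by
  induction k with
  | zero =>
    have e0 : moves (rule (dec u b lam A J)) (digit t) 0 = 0 := by simp [moves]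
    rw [e0]
    have e1 : grow J 0 = 0 := by simp [grow]
    have e1' : lam ^ 0 = 1 := pow_zero _
    rw [e1, e1', one_mul]
    unfold pot
    refine (summable_pot hu0 hu1 h0 h1 _ _ _).tsum_le_tsum (fun p => ?_) (summable_half' _)
    split_ifs with h
    · have e2 := hu1 p 0 (t % 2 ^ 0)
      have e3 : lam ^ b p ≤ 1 := pow_le_one₀ h0.le h1
      have e4 : (0 : ℝ) < (1 / 2 : ℝ) ^ p := by positivity
      have e5 := hu0 p 0 (t % 2 ^ 0)
      have e6 : (0 : ℝ) ≤ lam ^ b p := by positivity
      calc (1 / 2 : ℝ) ^ p * lam ^ b p * u p 0 (t % 2 ^ 0) ≤ (1 / 2 : ℝ) ^ p * 1 * 1 := by gcongr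
        _ = _ := by ring
    · exact le_rfl
  | succ k ih =>
    set σ := rule (dec u b lam A J) with hσ
    have hs : t % 2 ^ k < 2 ^ k := Nat.mod_lt _ (by positivity)
    have hm := moves_succ σ (digit t) k
    -- the old part
    have hold : pot u b lam k (k + 1) (t % 2 ^ (k + 1)) ≤
        lam ^ grow J (moves σ (digit t) (k + 1)) * ∑' p : ℕ, if b p ≤ k then (1 / 2 : ℝ) ^ p else 0 := by
      have hSpos : 0 ≤ ∑' p : ℕ, if b p ≤ k then (1 / 2 : ℝ) ^ p else 0 :=
        tsum_nonneg fun p => by split_ifs <;> positivity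
      have hle : pot u b lam k (k + 1) (t % 2 ^ (k + 1)) ≤ pot u b lam k k (t % 2 ^ k) := by
        unfold pot
        refine (summable_pot hu0 hu1 h0 h1 _ _ _).tsum_le_tsum (fun p => ?_) (summable_pot hu0 hu1 h0 h1 _ _ _)
        split_ifs with h
        · rw [mod_succ]
          have := hmono p k (t % 2 ^ k) (digit t k) h hs (digit_lt _ _)
          have e4 : (0 : ℝ) ≤ (1 / 2 : ℝ) ^ p * lam ^ b p := by positivity
          exact mul_le_mul_of_nonneg_left this e4
        · exact le_rfl
      by_cases hx : digit t k = σ ((List.range k).map (digit t))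
      · rw [if_pos hx] at hm
        rw [hm, grow_succ hJ]
        by_cases hd : J ∣ moves σ (digit t) k + 1
        · rw [if_pos hd, add_zero]
          exact hle.trans ih
        · rw [if_neg hd, pow_succ]
          have hdec := rule_eq (dec u b lam A J) (digit t) k
          rw [← hσ, ← hx] at hdec
          unfold dec at hdec
          rw [if_neg hd] at hdec
          simp only [List.length_map, List.length_range] at hdec
          rw [ofDigits_digit] at hdec
          have hsum2 : pot u b lam k (k + 1) (t % 2 ^ k) + pot u b lam k (k + 1) (t % 2 ^ k + 2 ^ k) ≤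
              2 * lam * pot u b lam k k (t % 2 ^ k) := by
            unfold pot
            rw [← (summable_pot hu0 hu1 h0 h1 _ _ _).tsum_add (summable_pot hu0 hu1 h0 h1 _ _ _), ← tsum_mul_left]
            refine ((summable_pot hu0 hu1 h0 h1 _ _ _).add (summable_pot hu0 hu1 h0 h1 _ _ _)).tsum_le_tsum
              (fun p => ?_) ((summable_pot hu0 hu1 h0 h1 _ _ _).mul_left _)
            split_ifs with h
            · have e1 := hsum p k (t % 2 ^ k) h hs
              have e4 : (0 : ℝ) ≤ (1 / 2 : ℝ) ^ p * lam ^ b p := by positivity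
              have e5 := mul_le_mul_of_nonneg_left e1 e4
              linarith
            · simp
          have hmin : pot u b lam k (k + 1) (t % 2 ^ (k + 1)) ≤ lam * pot u b lam k k (t % 2 ^ k) := by
            rw [mod_succ]
            split_ifs at hdec with hc
            · rw [hdec, mul_one]
              linarith
            · rw [hdec, mul_zero, add_zero]
              push Not at hc
              linarith
          calc _ ≤ lam * pot u b lam k k (t % 2 ^ k) := hmin
            _ ≤ lam * (lam ^ grow J (moves σ (digit t) k) * ∑' p : ℕ, if b p ≤ k then (1 / 2 : ℝ) ^ p else 0) :=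
                mul_le_mul_of_nonneg_left ih h0.le
            _ = _ := by ring
      · rw [if_neg hx, add_zero] at hm
        rw [hm]
        exact hle.trans ih
    have hsplit : pot u b lam (k + 1) (k + 1) (t % 2 ^ (k + 1)) ≤ pot u b lam k (k + 1) (t % 2 ^ (k + 1)) +
        lam ^ grow J (moves σ (digit t) (k + 1)) * ∑' p : ℕ, if b p = k + 1 then (1 / 2 : ℝ) ^ p else 0 := by
      unfold pot
      rw [← tsum_mul_left, ← (summable_pot hu0 hu1 h0 h1 _ _ _).tsum_add ((summable_half' _).mul_left _)]
      refine (summable_pot hu0 hu1 h0 h1 _ _ _).tsum_le_tsum (fun p => ?_)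
        ((summable_pot hu0 hu1 h0 h1 _ _ _).add ((summable_half' _).mul_left _))
      rcases Nat.lt_trichotomy (b p) (k + 1) with h | h | h
      · rw [if_pos (by omega), if_pos (by omega), if_neg (by omega), mul_zero, add_zero]
      · rw [if_pos (by omega), if_neg (by omega), if_pos h, zero_add, h]
        have e1 : lam ^ (k + 1) ≤ lam ^ grow J (moves σ (digit t) (k + 1)) :=
          pow_le_pow_of_le_one h0.le h1 ((grow_le _ _).trans (moves_le _ _ _))
        have e2 := hu1 p (k + 1) (t % 2 ^ (k + 1))
        have e3 := hu0 p (k + 1) (t % 2 ^ (k + 1))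
        have e4 : (0 : ℝ) ≤ lam ^ (k + 1) := by positivity
        calc (1 / 2 : ℝ) ^ p * lam ^ (k + 1) * u p (k + 1) (t % 2 ^ (k + 1)) ≤
            (1 / 2 : ℝ) ^ p * lam ^ grow J (moves σ (digit t) (k + 1)) * 1 := by gcongr
          _ = _ := by ring
      · rw [if_neg (by omega), if_neg (by omega), if_neg (by omega), mul_zero, add_zero]
    have hS : ∑' p : ℕ, (if b p ≤ k + 1 then (1 / 2 : ℝ) ^ p else 0) =
        ∑' p : ℕ, (if b p ≤ k then (1 / 2 : ℝ) ^ p else 0) + ∑' p : ℕ, if b p = k + 1 then (1 / 2 : ℝ) ^ p else 0 := by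
      rw [← (summable_half' _).tsum_add (summable_half' _)]
      refine tsum_congr fun p => ?_
      rcases Nat.lt_trichotomy (b p) (k + 1) with h | h | h
      · rw [if_pos (by omega), if_pos (by omega), if_neg (by omega), add_zero]
      · rw [if_pos (by omega), if_neg (by omega), if_pos h, zero_add]
      · rw [if_neg (by omega), if_neg (by omega), if_neg (by omega), add_zero]
    rw [hS, mul_add]
    linarith

/-- **The rule.** The numbers `u p k s` do not increase when digits are added, and the sum over the two digits is at most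
`2 λ` times the number. The rule makes them smaller than `λ ^ g`, up to constants, where `g = m - ⌊m / J⌋` and `m` is the
number of the moves; the moves `m` divisible by `J` are used to make `A r` large, where `r` is the 2-adic valuation of `m / J`. -/
theorem exists_rule (hu0 : ∀ p k s, 0 ≤ u p k s) (hu1 : ∀ p k s, u p k s ≤ 1) (h0 : 0 < lam) (h1 : lam ≤ 1)
    (hmono : ∀ p k s e, b p ≤ k → s < 2 ^ k → e < 2 → u p (k + 1) (s + 2 ^ k * e) ≤ u p k s)
    (hsum : ∀ p k s, b p ≤ k → s < 2 ^ k → u p (k + 1) s + u p (k + 1) (s + 2 ^ k) ≤ 2 * lam * u p k s)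
    (A : ℕ → ℕ → ℕ → ℕ) {J : ℕ} (hJ : 2 ≤ J) :
    ∃ σ : List ℕ → ℕ, (∀ l, σ l < 2) ∧ ∀ t k : ℕ,
      (∀ p, b p ≤ k → (1 / 2 : ℝ) ^ p * lam ^ b p * u p k (t % 2 ^ k) ≤ 2 * lam ^ grow J (moves σ (digit t) k)) ∧
      ∀ r a, J * (2 ^ r * (2 * a + 1)) ≤ moves σ (digit t) k → ∃ k' < k,
        moves σ (digit t) k' + 1 = J * (2 ^ r * (2 * a + 1)) ∧
        A r (k' + 1) (t % 2 ^ k') ≤ A r (k' + 1) (t % 2 ^ (k' + 1)) ∧
        A r (k' + 1) (t % 2 ^ k' + 2 ^ k') ≤ A r (k' + 1) (t % 2 ^ (k' + 1)) := by
  refine ⟨rule (dec u b lam A J), fun l => ?_, fun t k => ⟨fun p hp => ?_, fun r a ha => ?_⟩⟩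
  · unfold rule dec
    split_ifs <;> norm_num
  · have h2 := pot_le_two hu0 hu1 h0 h1 hmono hsum A hJ t k
    have h3 : (1 / 2 : ℝ) ^ p * lam ^ b p * u p k (t % 2 ^ k) ≤ pot u b lam k k (t % 2 ^ k) := by
      unfold pot
      have h4 := (summable_pot (b := b) hu0 hu1 h0 h1 (fun p => b p ≤ k) k (t % 2 ^ k)).le_tsum p (fun q _ => by
        split_ifs
        · have := hu0 q k (t % 2 ^ k)
          positivity
        · exact le_rfl)
      rw [if_pos hp] at h4
      exact h4
    refine h3.trans (h2.trans ?_)
    rw [mul_comm]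
    refine mul_le_mul_of_nonneg_right ?_ (by positivity)
    calc ∑' p : ℕ, (if b p ≤ k then (1 / 2 : ℝ) ^ p else 0) ≤ ∑' p : ℕ, (1 / 2 : ℝ) ^ p := by
          refine (summable_half' _).tsum_le_tsum (fun p => ?_) summable_half
          split_ifs
          · exact le_rfl
          · positivity
      _ = 2 := tsum_geometric_two
  · induction k with
    | zero =>
      exfalso
      have e0 : moves (rule (dec u b lam A J)) (digit t) 0 = 0 := by simp [moves]
      rw [e0] at ha
      have : 0 < J * (2 ^ r * (2 * a + 1)) := by positivity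
      omega
    | succ k ih =>
      set σ := rule (dec u b lam A J) with hσ
      by_cases h2 : J * (2 ^ r * (2 * a + 1)) ≤ moves σ (digit t) k
      · obtain ⟨k', h3, h4⟩ := ih h2
        exact ⟨k', by omega, h4⟩
      · have hm := moves_succ σ (digit t) k
        have hx : digit t k = σ ((List.range k).map (digit t)) := by
          by_contra hx
          rw [if_neg hx] at hm
          omega
        rw [if_pos hx] at hm
        have hM : moves σ (digit t) k + 1 = J * (2 ^ r * (2 * a + 1)) := by omega
        refine ⟨k, by omega, hM, ?_⟩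
        have hdec := rule_eq (dec u b lam A J) (digit t) k
        rw [← hσ, ← hx] at hdec
        unfold dec at hdec
        rw [if_pos (by rw [hM]; exact dvd_mul_right _ _), hM, Nat.mul_div_cancel_left _ (by omega)] at hdec
        have hv : padicValNat 2 (2 ^ r * (2 * a + 1)) = r := by
          rw [padicValNat.mul (by positivity) (by omega), padicValNat.prime_pow,
            padicValNat.eq_zero_of_not_dvd (by omega), add_zero]
        rw [hv] at hdec
        simp only [List.length_map, List.length_range] at hdec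
        rw [ofDigits_digit] at hdec
        rw [mod_succ]
        split_ifs at hdec with hc
        · rw [hdec, mul_one]
          exact ⟨hc, le_rfl⟩
        · rw [hdec, mul_zero, add_zero]
          push Not at hc
          exact ⟨le_rfl, hc.le⟩

end

end Pool.Agent.H48.GM.BR
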