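import Mathlib
import Pool.Agent.H48.GM.Universal

set_option autoImplicit false

/-!
# The digit game for countably many summable weights on the integers
-/

namespace Pool.Agent.H48.GM

open scoped ENNReal

/-- **The game form for digits**, for weights. -/
theorem digit_weights {ι : Type*} [Countable ι] {b : ℕ} (hb : 2 ≤ b) (g : ι → ℕ → ℝ≥0∞)
    (hg : ∀ i, ∑' m, g i m ≠ ⊤) :
    ∃ σ : List ℕ → ℕ, (∀ u, σ u < b) ∧ ∀ i, ∃ c : ℝ≥0∞, c ≠ ⊤ ∧
      ∀ (x : ℕ → ℕ) (n m : ℕ), play x n <+: (Nat.digits b m).reverse →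
        (b : ℝ≥0∞) ^ moves σ x n * g i m ≤ c := by
  classical
  haveI : Nontrivial (Fin b) := Fin.nontrivial_iff_two_le.mpr hb
  haveI : NeZero b := ⟨by omega⟩
  let toF : ℕ → Fin b := fun d => Fin.ofNat b d
  obtain ⟨σ, hσ⟩ := universal_weights (α := Fin b) (fun m : ℕ => ((Nat.digits b m).reverse).map toF) g hg
  let σ' : List ℕ → ℕ := fun u => (σ (u.map toF)).val
  refine ⟨σ', fun u => (σ (u.map toF)).isLt, fun i => ?_⟩
  obtain ⟨c, hc, hC'⟩ := hσ i
  refine ⟨c, hc, fun x n m hpre => ?_⟩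
  have h1 := hC' m
  rw [Fintype.card_fin] at h1
  have h2 : moves σ' x n ≤ obeys σ (((Nat.digits b m).reverse).map toF) := by
    rw [moves_eq]
    obtain ⟨s, hs⟩ := hpre
    rw [← hs]
    have e1 := obeys_append_ge σ ((play x n).map toF) (s.map toF)
    rw [← List.map_append] at e1
    refine le_trans ?_ e1
    unfold obeys
    rw [List.length_map]
    apply Finset.card_le_card
    intro i hi
    rw [Finset.mem_filter] at hi ⊢
    refine ⟨hi.1, ?_⟩
    rw [List.getElem?_map, hi.2, Option.map_some, ← List.map_take]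
    congr 1
    show Fin.ofNat b (σ (((play x n).take i).map toF)).val = _
    apply Fin.ext
    rw [Fin.val_ofNat]
    exact Nat.mod_eq_of_lt (σ (((play x n).take i).map toF)).isLt
  refine le_trans ?_ h1
  gcongr
  · exact_mod_cast (by omega : 1 ≤ b)

/-- **The level game.** The sets `B i y`, `y = 0, 1, 2, …`, have at most `C 2 ^ (ρ y)` elements each. One rule: a
player who makes more than `κ y log 2 / log b + C'` moves avoids `B i y`, whatever the size of the integers. -/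
theorem level_game {ι : Type*} [Countable ι] {b : ℕ} (hb : 2 ≤ b) (B : ι → ℕ → Set ℕ) (ρ : ι → ℝ)
    (h : ∀ i, ∃ C : ℝ, ∀ y : ℕ, (B i y).Finite ∧ ((B i y).ncard : ℝ) ≤ C * (2 : ℝ) ^ (ρ i * y)) :
    ∃ σ : List ℕ → ℕ, (∀ u, σ u < b) ∧ ∀ i, ∀ κ : ℝ, ρ i < κ → ∃ C : ℝ,
      ∀ (x : ℕ → ℕ) (n m y : ℕ), play x n <+: (Nat.digits b m).reverse → m ∈ B i y →
        (moves σ x n : ℝ) * Real.log b ≤ κ * (y * Real.log 2) + C := by
  classical
  let g : ι × ℕ → ℕ → ℝ≥0∞ := fun p m => ∑' y : ℕ, (B p.1 y).indicator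
    (fun _ => ENNReal.ofReal ((2 : ℝ) ^ (-(ρ p.1 + 1 / ((p.2 : ℝ) + 1)) * y))) m
  have hg : ∀ p, ∑' m, g p m ≠ ⊤ := by
    rintro ⟨i, k⟩
    obtain ⟨C, hC⟩ := h i
    have hCnn : 0 ≤ C := by
      have h1 := (hC 0).2
      have h0 : (0 : ℝ) ≤ ((B i 0).ncard : ℝ) := Nat.cast_nonneg _
      simp only [Nat.cast_zero, mul_zero, Real.rpow_zero, mul_one] at h1
      linarith
    set η : ℝ := 1 / ((k : ℝ) + 1) with hη
    have hη0 : 0 < η := by positivity
    show ∑' m, ∑' y : ℕ, (B i y).indicator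
      (fun _ => ENNReal.ofReal ((2 : ℝ) ^ (-(ρ i + η) * y))) m ≠ ⊤
    rw [ENNReal.tsum_comm]
    have h2 : ∀ y : ℕ, ∑' m, (B i y).indicator
        (fun _ => ENNReal.ofReal ((2 : ℝ) ^ (-(ρ i + η) * y))) m ≤ ENNReal.ofReal (C * ((2 : ℝ) ^ (-η)) ^ y) := by
      intro y
      obtain ⟨hf, hn⟩ := hC y
      rw [tsum_eq_sum (s := hf.toFinset) (by
        intro m hm
        rw [hf.mem_toFinset] at hm
        exact Set.indicator_of_notMem hm _)]
      rw [Finset.sum_congr rfl (g := fun _ => ENNReal.ofReal ((2 : ℝ) ^ (-(ρ i + η) * y))) (by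
        intro m hm
        rw [hf.mem_toFinset] at hm
        exact Set.indicator_of_mem hm _)]
      rw [Finset.sum_const, nsmul_eq_mul]
      have h5 : ((hf.toFinset).card : ℝ≥0∞) = ENNReal.ofReal ((hf.toFinset).card : ℝ) := by
        rw [ENNReal.ofReal_natCast]
      rw [h5, ← ENNReal.ofReal_mul (Nat.cast_nonneg _)]
      apply ENNReal.ofReal_le_ofReal
      rw [Set.ncard_eq_toFinset_card _ hf] at hn
      calc ((hf.toFinset).card : ℝ) * (2 : ℝ) ^ (-(ρ i + η) * y)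
          ≤ C * (2 : ℝ) ^ (ρ i * y) * (2 : ℝ) ^ (-(ρ i + η) * y) := by gcongr
        _ = C * ((2 : ℝ) ^ (-η)) ^ y := by
          rw [mul_assoc, ← Real.rpow_add (by norm_num), ← Real.rpow_natCast, ← Real.rpow_mul (by norm_num)]
          congr 2
          ring
    refine ne_top_of_le_ne_top ?_ (ENNReal.tsum_le_tsum h2)
    have hs : Summable fun y : ℕ => C * ((2 : ℝ) ^ (-η)) ^ y := by
      apply Summable.mul_left
      exact summable_geometric_of_lt_one (by positivity)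
        (Real.rpow_lt_one_of_one_lt_of_neg (by norm_num) (by linarith))
    rw [← ENNReal.ofReal_tsum_of_nonneg (fun n => by positivity) hs]
    exact ENNReal.ofReal_ne_top
  obtain ⟨σ, hσb, hσ⟩ := digit_weights hb g hg
  refine ⟨σ, hσb, fun i κ hκ => ?_⟩
  obtain ⟨k, hk⟩ := exists_nat_one_div_lt (show 0 < κ - ρ i by linarith)
  obtain ⟨c, hc, hce⟩ := hσ (i, k)
  refine ⟨Real.log (c.toReal + 1), fun x n m y hpre hm => ?_⟩
  have h1 := hce x n m hpre
  have h2 : ENNReal.ofReal ((2 : ℝ) ^ (-(ρ i + 1 / ((k : ℝ) + 1)) * y)) ≤ g (i, k) m := by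
    refine le_trans ?_ (ENNReal.le_tsum y)
    rw [Set.indicator_of_mem hm]
  have h3 : (b : ℝ≥0∞) ^ moves σ x n * ENNReal.ofReal ((2 : ℝ) ^ (-(ρ i + 1 / ((k : ℝ) + 1)) * y)) ≤ c := by
    refine le_trans ?_ h1
    gcongr
  have h4 := ENNReal.toReal_mono hc h3
  rw [ENNReal.toReal_mul, ENNReal.toReal_pow, ENNReal.toReal_natCast,
    ENNReal.toReal_ofReal (by positivity)] at h4
  have hc0 : 0 ≤ c.toReal := ENNReal.toReal_nonneg
  have hbpos : (0 : ℝ) < b := by exact_mod_cast (by omega : 0 < b)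
  have h5 : (b : ℝ) ^ moves σ x n * (2 : ℝ) ^ (-(ρ i + 1 / ((k : ℝ) + 1)) * y) ≤ c.toReal + 1 := by linarith
  have h6 := Real.log_le_log (by positivity) h5
  rw [Real.log_mul (by positivity) (by positivity), Real.log_pow, Real.log_rpow (by norm_num)] at h6
  have h7 : (ρ i + 1 / ((k : ℝ) + 1)) * (y * Real.log 2) ≤ κ * (y * Real.log 2) := by
    apply mul_le_mul_of_nonneg_right (by linarith)
    positivity
  linarith

end Pool.Agent.H48.GM
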