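import Mathlib
import Pool.Agent.H48.GM.Universal

set_option autoImplicit false

/-!
# The digit game for sets of integers with at most `O(log log X)` members up to `X`
-/

namespace Pool.Agent.H48.GM

open Real

theorem log_sixteen : exp 1 < log 16 := by
  have e3 : log 16 = 4 * log 2 := by
    rw [show (16 : ℝ) = 2 ^ 4 by norm_num, log_pow]; norm_num
  have e4 := log_two_gt_d9
  have e5 := exp_one_lt_d9
  linarith

theorem one_le_loglog (m : ℕ) : 1 ≤ log (log ((m : ℝ) + 16)) := by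
  have h0 : (0 : ℝ) ≤ m := Nat.cast_nonneg _
  have h1 : log 16 ≤ log ((m : ℝ) + 16) := log_le_log (by norm_num) (by linarith)
  have h2 := log_sixteen
  rw [le_log_iff_exp_le (by linarith [exp_pos 1])]
  linarith

/-- the size used below: `log log log (m + 16)` -/
noncomputable def M3 (m : ℕ) : ℝ := log (log (log ((m : ℝ) + 16)))

theorem M3_nonneg (m : ℕ) : 0 ≤ M3 m := log_nonneg (one_le_loglog m)

theorem M3_le_iff (m : ℕ) (t : ℝ) : M3 m ≤ t ↔ (m : ℝ) + 16 ≤ exp (exp (exp t)) := by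
  have h1 := one_le_loglog m
  have hm : (0 : ℝ) ≤ m := Nat.cast_nonneg _
  have h2 : 0 < log ((m : ℝ) + 16) := log_pos (by linarith)
  unfold M3
  rw [log_le_iff_le_exp (by linarith), log_le_iff_le_exp h2, log_le_iff_le_exp (by linarith)]

/-- the size of the integers with at most `D` digits in base `b` -/
theorem M3_digits {b : ℕ} (hb : 2 ≤ b) : ∃ B : ℝ, ∀ m D : ℕ, 3 ≤ D → (Nat.digits b m).length ≤ D →
    M3 m ≤ log (log D) + B := by
  refine ⟨log (1 + |log (log b)|) + log 3, fun m D hD3 hD => ?_⟩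
  have hb' : (2 : ℝ) ≤ b := by exact_mod_cast hb
  have hb0 : 0 < log (b : ℝ) := log_pos (by linarith)
  have h1 : m < b ^ D := (Nat.lt_base_pow_length_digits (by omega)).trans_le (Nat.pow_le_pow_right (by omega) hD)
  have h2 : m + 16 ≤ b ^ (D + 5) := by
    have e1 : 2 ^ 5 ≤ b ^ 5 := Nat.pow_le_pow_left hb 5
    have e2 : 1 ≤ b ^ D := Nat.one_le_pow _ _ (by omega)
    rw [pow_add]
    nlinarith
  have h3 : (m : ℝ) + 16 ≤ (b : ℝ) ^ (D + 5) := by exact_mod_cast h2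
  have hm : (0 : ℝ) ≤ m := Nat.cast_nonneg _
  have hD0 : (3 : ℝ) ≤ D := by exact_mod_cast hD3
  have h4 : log ((m : ℝ) + 16) ≤ (D + 5) * log b := by
    refine (log_le_log (by positivity) h3).trans ?_
    rw [log_pow]
    push_cast
    exact le_rfl
  have hpos : 0 < log ((m : ℝ) + 16) := log_pos (by linarith)
  have h5 : log (log ((m : ℝ) + 16)) ≤ log ((D : ℝ) + 5) + log (log b) := by
    refine (log_le_log hpos h4).trans ?_
    rw [log_mul (by positivity) hb0.ne']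
  have hlogD : 1 < log (D : ℝ) := by
    rw [lt_log_iff_exp_lt (by linarith)]
    have := exp_one_lt_d9
    linarith
  have h6 : log ((D : ℝ) + 5) ≤ 3 * log D := by
    have e1 : (D : ℝ) + 5 ≤ (D : ℝ) ^ 3 := by nlinarith [mul_le_mul hD0 hD0 (by norm_num) (by linarith)]
    refine (log_le_log (by positivity) e1).trans ?_
    rw [log_pow]
    norm_num
  have h8 : log (log ((m : ℝ) + 16)) ≤ 3 * log D * (1 + |log (log b)|) := by
    have e1 := le_abs_self (log (log (b : ℝ)))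
    have e2 := abs_nonneg (log (log (b : ℝ)))
    nlinarith
  have g1 := one_le_loglog m
  unfold M3
  refine (log_le_log (by linarith) h8).trans (le_of_eq ?_)
  have e2 := abs_nonneg (log (log (b : ℝ)))
  rw [log_mul (by positivity) (by positivity), log_mul (by norm_num) (by linarith)]
  ring

/-- counting from windows `[N, N ^ 2]` -/
theorem count_windows (E : Set ℕ) (Z : ℕ)
    (h : ∀ N : ℝ, 1 ≤ N → {n : ℕ | N ≤ n ∧ (n : ℝ) ≤ N ^ (2 : ℝ) ∧ n ∈ E}.ncard ≤ Z) (k : ℕ) :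
    {n | n ∈ E ∧ M3 n ≤ k}.Finite ∧
      ({n | n ∈ E ∧ M3 n ≤ k}.ncard : ℝ) ≤ (5 * Z + 2 : ℝ) * exp (1 * k) := by
  classical
  have hfin : {n : ℕ | n ∈ E ∧ M3 n ≤ k}.Finite := by
    apply (Set.finite_Iic ⌊exp (exp (exp k))⌋₊).subset
    rintro n ⟨-, hn⟩
    rw [M3_le_iff] at hn
    exact Nat.le_floor (by linarith)
  refine ⟨hfin, ?_⟩
  set J : ℕ := ⌊2 * (exp k + 1)⌋₊ + 1 with hJ
  let W : ℕ → Set ℕ := fun j => {n : ℕ | ((2 : ℝ) ^ (2 ^ j : ℕ)) ≤ n ∧
    (n : ℝ) ≤ ((2 : ℝ) ^ (2 ^ j : ℕ)) ^ (2 : ℝ) ∧ n ∈ E}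
  have hWfin : ∀ j, (W j).Finite := by
    intro j
    apply (Set.finite_Iic ⌊((2 : ℝ) ^ (2 ^ j : ℕ)) ^ (2 : ℝ)⌋₊).subset
    rintro n ⟨-, hn, -⟩
    exact Nat.le_floor hn
  have hsub : {n | n ∈ E ∧ M3 n ≤ k} ⊆ (({0, 1} : Finset ℕ) : Set ℕ) ∪ ⋃ j ∈ Finset.range J, W j := by
    rintro n ⟨hnE, hn⟩
    rw [M3_le_iff] at hn
    by_cases h2 : n < 2
    · left
      simp only [Finset.coe_insert, Finset.coe_singleton, Set.mem_insert_iff, Set.mem_singleton_iff]
      omega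
    · right
      push Not at h2
      set a := Nat.log 2 n with ha
      have ha1 : 1 ≤ a := Nat.log_pos (by norm_num) h2
      set j := Nat.log 2 a with hj
      have h3 : 2 ^ j ≤ a := Nat.pow_log_le_self 2 (by omega)
      have h4 : a < 2 ^ (j + 1) := Nat.lt_pow_succ_log_self (by norm_num) a
      have h5 : 2 ^ a ≤ n := Nat.pow_log_le_self 2 (by omega)
      have h6 : n < 2 ^ (a + 1) := Nat.lt_pow_succ_log_self (by norm_num) n
      have h7 : 2 ^ (2 ^ j) ≤ n := (Nat.pow_le_pow_right (by norm_num) h3).trans h5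
      have h8 : n ≤ (2 ^ (2 ^ j)) ^ 2 := by
        have e1 : 2 ^ (a + 1) ≤ 2 ^ (2 ^ (j + 1)) := Nat.pow_le_pow_right (by norm_num) (by omega)
        rw [← pow_mul, ← pow_succ]
        omega
      rw [Set.mem_iUnion₂]
      refine ⟨j, ?_, ?_, ?_, hnE⟩
      · rw [Finset.mem_range, hJ, Nat.lt_succ_iff]
        apply Nat.le_floor
        have e1 : ((2 : ℝ) ^ (2 ^ j : ℕ)) ≤ exp (exp (exp k)) := by
          have : ((2 ^ (2 ^ j) : ℕ) : ℝ) ≤ n := by exact_mod_cast h7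
          push_cast at this
          linarith
        have e2 := log_le_log (by positivity) e1
        rw [log_pow, log_exp] at e2
        push_cast at e2
        have e3 := log_two_gt_d9
        have e4 : ((2 : ℝ) ^ j) ≤ 2 * exp (exp k) := by
          have : (0 : ℝ) < 2 ^ j := by positivity
          nlinarith
        have e5 := log_le_log (by positivity) e4
        rw [log_pow, log_mul (by norm_num) (exp_pos _).ne', log_exp] at e5
        have e6 := log_two_lt_d9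
        have e7 : (0 : ℝ) ≤ j := Nat.cast_nonneg _
        nlinarith
      · exact_mod_cast h7
      · rw [show ((2 : ℝ)) = ((2 : ℕ) : ℝ) by norm_num, rpow_natCast]
        exact_mod_cast h8
  have hcard : {n | n ∈ E ∧ M3 n ≤ k}.ncard ≤ 2 + J * Z := by
    have hfinU : ((({0, 1} : Finset ℕ) : Set ℕ) ∪ ⋃ j ∈ Finset.range J, W j).Finite := by
      apply Set.Finite.union (Finset.finite_toSet _)
      exact Set.Finite.biUnion (Finset.finite_toSet _) (fun j _ => hWfin j)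
    refine (Set.ncard_le_ncard hsub hfinU).trans ?_
    refine (Set.ncard_union_le _ _).trans ?_
    have e1 : ((({0, 1} : Finset ℕ) : Set ℕ)).ncard = 2 := by
      rw [Set.ncard_coe_finset]; rfl
    rw [e1]
    have e2 : (⋃ j ∈ Finset.range J, W j).ncard ≤ ∑ j ∈ Finset.range J, (W j).ncard := by
      clear hsub hfinU e1
      induction J with
      | zero => simp
      | succ J ih =>
        rw [Finset.sum_range_succ, Finset.range_add_one, Finset.set_biUnion_insert, Set.union_comm]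
        refine (Set.ncard_union_le _ _).trans ?_
        gcongr
    have e3 : ∑ j ∈ Finset.range J, (W j).ncard ≤ J * Z := by
      have : ∀ j ∈ Finset.range J, (W j).ncard ≤ Z := by
        intro j _
        exact h _ (one_le_pow₀ (by norm_num))
      refine (Finset.sum_le_card_nsmul _ _ _ this).trans ?_
      simp
    omega
  have hc : ({n | n ∈ E ∧ M3 n ≤ k}.ncard : ℝ) ≤ 2 + J * Z := by exact_mod_cast hcard
  refine hc.trans ?_
  have hek : (1 : ℝ) ≤ exp k := one_le_exp (Nat.cast_nonneg _)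
  have hJr : (J : ℝ) ≤ 5 * exp k := by
    rw [hJ]
    push_cast
    have := Nat.floor_le (show 0 ≤ 2 * (exp (k : ℝ) + 1) by positivity)
    linarith
  have hZ : (0 : ℝ) ≤ Z := Nat.cast_nonneg _
  rw [one_mul]
  nlinarith [mul_le_mul_of_nonneg_right hJr hZ]

/-- **The digit game for sets with a bounded number of members in every window `[N, N ^ 2]`.** -/
theorem loglog_game {ι : Type*} [Countable ι] {b : ℕ} (hb : 2 ≤ b) (E : ι → Set ℕ)
    (h : ∀ i, ∃ Z : ℕ, ∀ N : ℝ, 1 ≤ N → {n : ℕ | N ≤ n ∧ (n : ℝ) ≤ N ^ (2 : ℝ) ∧ n ∈ E i}.ncard ≤ Z) :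
    ∃ σ : List ℕ → ℕ, (∀ u, σ u < b) ∧ ∀ i, ∀ ε : ℝ, 0 < ε → ∃ C : ℝ,
      ∀ (x : ℕ → ℕ) (n D : ℕ), 3 ≤ D → (1 + ε) * logb b (log D) + C < moves σ x n →
      ∀ m : ℕ, (Nat.digits b m).length ≤ D → play x n <+: (Nat.digits b m).reverse → m ∉ E i := by
  obtain ⟨σ, hσb, hσ⟩ := digit_game hb E M3 M3_nonneg (fun _ => 1) (fun _ => zero_le_one) (fun i => by
    obtain ⟨Z, hZ⟩ := h i
    exact ⟨_, count_windows (E i) Z hZ⟩)
  refine ⟨σ, hσb, fun i ε hε => ?_⟩
  obtain ⟨C', hC'⟩ := hσ i ε hε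
  obtain ⟨B, hB⟩ := M3_digits hb
  have hb' : (1 : ℝ) < b := by exact_mod_cast hb
  have hlb : 0 < log (b : ℝ) := log_pos hb'
  refine ⟨((1 + ε) * B + C') / log b, fun x n D hD3 hmov m hm hpre hmE => ?_⟩
  have h1 := hC' x n m hmE hpre
  have h2 := hB m D hD3 hm
  have h3 := mul_lt_mul_of_pos_right hmov hlb
  have h4 : ((1 + ε) * logb b (log D) + ((1 + ε) * B + C') / log b) * log b
      = (1 + ε) * log (log D) + ((1 + ε) * B + C') := by
    unfold logb
    field_simp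
  rw [h4] at h3
  have h5 : (1 + ε) * M3 m ≤ (1 + ε) * (log (log D) + B) := by gcongr
  linarith

/-- integral windows -/
theorem real_windows (E : Set ℕ) (C N₀ : ℕ)
    (h : ∀ N : ℕ, N₀ ≤ N → {n : ℕ | N ≤ n ∧ n ≤ N ^ 2 ∧ n ∈ E}.ncard ≤ C) :
    ∃ Z : ℕ, ∀ N : ℝ, 1 ≤ N → {n : ℕ | N ≤ n ∧ (n : ℝ) ≤ N ^ (2 : ℝ) ∧ n ∈ E}.ncard ≤ Z := by
  refine ⟨C + (N₀ ^ 2 + 1), fun N hN => ?_⟩
  have key : ∀ n : ℕ, N ≤ n → (n : ℝ) ≤ N ^ (2 : ℝ) → ⌈N⌉₊ ≤ n ∧ n ≤ ⌈N⌉₊ ^ 2 := by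
    intro n h1 h2
    refine ⟨Nat.ceil_le.mpr h1, ?_⟩
    have h3 : (n : ℝ) ≤ (⌈N⌉₊ : ℝ) ^ 2 := by
      refine h2.trans ?_
      rw [show ((2 : ℝ)) = ((2 : ℕ) : ℝ) by norm_num, rpow_natCast]
      have := Nat.le_ceil N
      gcongr
    exact_mod_cast h3
  by_cases hc : N₀ ≤ ⌈N⌉₊
  · have hfin : {n : ℕ | ⌈N⌉₊ ≤ n ∧ n ≤ ⌈N⌉₊ ^ 2 ∧ n ∈ E}.Finite :=
      (Set.finite_Iic (⌈N⌉₊ ^ 2)).subset fun n hn => hn.2.1
    refine (Set.ncard_le_ncard ?_ hfin).trans ((h _ hc).trans (by omega))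
    rintro n ⟨h1, h2, h3⟩
    exact ⟨(key n h1 h2).1, (key n h1 h2).2, h3⟩
  · push Not at hc
    have hsub : {n : ℕ | N ≤ n ∧ (n : ℝ) ≤ N ^ (2 : ℝ) ∧ n ∈ E} ⊆ Set.Iic (N₀ ^ 2) := by
      rintro n ⟨h1, h2, h3⟩
      exact (key n h1 h2).2.trans (Nat.pow_le_pow_left hc.le 2)
    refine (Set.ncard_le_ncard hsub (Set.finite_Iic _)).trans ?_
    rw [Set.ncard_eq_toFinset_card', Set.toFinset_Iic, Nat.card_Iic]
    omega

end Pool.Agent.H48.GM
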