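import Mathlib
import Pool.Agent.H48.GM.Windows

set_option autoImplicit false

/-!
# The digit game for sets of integers with boundedly many members in every interval `[N, 2 N]`
-/

namespace Pool.Agent.H48.GM

open Real

/-- the size used below: `log log (m + 16)` -/
noncomputable def M2 (m : ℕ) : ℝ := log (log ((m : ℝ) + 16))

theorem M2_nonneg (m : ℕ) : 0 ≤ M2 m := zero_le_one.trans (one_le_loglog m)

theorem M2_le_iff (m : ℕ) (t : ℝ) : M2 m ≤ t ↔ (m : ℝ) + 16 ≤ exp (exp t) := by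
  have h1 := one_le_loglog m
  have hm : (0 : ℝ) ≤ m := Nat.cast_nonneg _
  have h2 : 0 < log ((m : ℝ) + 16) := log_pos (by linarith)
  unfold M2
  rw [log_le_iff_le_exp h2, log_le_iff_le_exp (by linarith)]

/-- the size of the integers with at most `D` digits in base `b` -/
theorem M2_digits {b : ℕ} (hb : 2 ≤ b) : ∃ B : ℝ, ∀ m D : ℕ, 1 ≤ D → (Nat.digits b m).length ≤ D →
    M2 m ≤ log D + B := by
  refine ⟨log (6 * (1 + |log b|)), fun m D hD1 hD => ?_⟩
  have hb' : (2 : ℝ) ≤ b := by exact_mod_cast hb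
  have hb0 : 0 < log (b : ℝ) := log_pos (by linarith)
  have h1 : m < b ^ D := (Nat.lt_base_pow_length_digits (by omega)).trans_le (Nat.pow_le_pow_right (by omega) hD)
  have h2 : m + 16 ≤ b ^ (D + 5) := by
    have e1 : 2 ^ 5 ≤ b ^ 5 := Nat.pow_le_pow_left hb 5
    have e2 : 1 ≤ b ^ D := Nat.one_le_pow _ _ (by omega)
    rw [pow_add]
    nlinarith
  have h3 : (m : ℝ) + 16 ≤ (b : ℝ) ^ (D + 5) := by exact_mod_cast h2
  have hm : (0 : ℝ) ≤ m := Nat.cast_nonneg _
  have hD0 : (1 : ℝ) ≤ D := by exact_mod_cast hD1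
  have h4 : log ((m : ℝ) + 16) ≤ (D + 5) * log b := by
    refine (log_le_log (by positivity) h3).trans ?_
    rw [log_pow]
    push_cast
    exact le_rfl
  have hpos : 0 < log ((m : ℝ) + 16) := log_pos (by linarith)
  have h5 : log ((m : ℝ) + 16) ≤ D * (6 * (1 + |log b|)) := by
    have e1 := le_abs_self (log (b : ℝ))
    nlinarith
  unfold M2
  refine (log_le_log hpos h5).trans (le_of_eq ?_)
  have e2 := abs_nonneg (log (b : ℝ))
  rw [log_mul (by positivity) (by positivity)]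

/-- counting from intervals `[N, 2 N]` -/
theorem count_dyadic (E : Set ℕ) (K N₀ : ℕ)
    (h : ∀ N : ℕ, N₀ ≤ N → {n : ℕ | (N ≤ n ∧ n ≤ 2 * N) ∧ n ∈ E}.ncard ≤ K) (k : ℕ) :
    {n | n ∈ E ∧ M2 n ≤ k}.Finite ∧
      ({n | n ∈ E ∧ M2 n ≤ k}.ncard : ℝ) ≤ (N₀ + 1 + 3 * K : ℝ) * exp (1 * k) := by
  classical
  have hfin : {n : ℕ | n ∈ E ∧ M2 n ≤ k}.Finite := by
    apply (Set.finite_Iic ⌊exp (exp k)⌋₊).subset
    rintro n ⟨-, hn⟩
    rw [M2_le_iff] at hn
    exact Nat.le_floor (by linarith)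
  refine ⟨hfin, ?_⟩
  set X : ℕ := ⌊exp (exp k)⌋₊ with hX
  set J : ℕ := Nat.log 2 X + 1 with hJ
  let W : ℕ → Set ℕ := fun j => {n : ℕ | ((N₀ + 1) * 2 ^ j ≤ n ∧ n ≤ 2 * ((N₀ + 1) * 2 ^ j)) ∧ n ∈ E}
  have hWfin : ∀ j, (W j).Finite := fun j => (Set.finite_Iic (2 * ((N₀ + 1) * 2 ^ j))).subset fun n hn => hn.1.2
  have hWcard : ∀ j, (W j).ncard ≤ K := by
    intro j
    apply h
    have : 1 ≤ 2 ^ j := Nat.one_le_two_pow
    nlinarith
  have hsub : {n | n ∈ E ∧ M2 n ≤ k} ⊆ (Finset.range (N₀ + 1) : Set ℕ) ∪ ⋃ j ∈ Finset.range J, W j := by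
    rintro n ⟨hnE, hn⟩
    rw [M2_le_iff] at hn
    by_cases h2 : n < N₀ + 1
    · left
      simpa using h2
    · right
      push Not at h2
      have hnX : n ≤ X := Nat.le_floor (by linarith)
      set q := n / (N₀ + 1) with hq
      have hq1 : 1 ≤ q := (Nat.one_le_div_iff (by omega)).mpr h2
      set j := Nat.log 2 q with hj
      have h3 : 2 ^ j ≤ q := Nat.pow_log_le_self 2 (by omega)
      have h4 : q < 2 ^ (j + 1) := Nat.lt_pow_succ_log_self (by norm_num) q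
      have h5 : (N₀ + 1) * q ≤ n := Nat.mul_div_le n (N₀ + 1)
      have h6 : n < (N₀ + 1) * (q + 1) := by
        have := Nat.lt_mul_div_succ n (show 0 < N₀ + 1 by omega)
        simpa [hq] using this
      have hjJ : j < J := by
        have : j ≤ Nat.log 2 X := Nat.log_mono_right ((Nat.div_le_self _ _).trans hnX)
        omega
      rw [Set.mem_iUnion₂]
      refine ⟨j, Finset.mem_range.mpr hjJ, ⟨?_, ?_⟩, hnE⟩
      · exact (Nat.mul_le_mul_left _ h3).trans h5
      · have h7 : q + 1 ≤ 2 ^ (j + 1) := h4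
        have h8 := Nat.mul_le_mul_left (N₀ + 1) h7
        rw [pow_succ] at h8
        have : (N₀ + 1) * (2 ^ j * 2) = 2 * ((N₀ + 1) * 2 ^ j) := by ring
        omega
  have e1 : ∀ s : Finset ℕ, (⋃ j ∈ s, W j).ncard ≤ ∑ j ∈ s, (W j).ncard := by
    intro s
    induction s using Finset.induction_on with
    | empty => simp
    | insert a s ha ih =>
      rw [Finset.sum_insert ha, Finset.set_biUnion_insert]
      refine (Set.ncard_union_le _ _).trans ?_
      gcongr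
  have hUfin : ((Finset.range (N₀ + 1) : Set ℕ) ∪ ⋃ j ∈ Finset.range J, W j).Finite :=
    (Finset.finite_toSet _).union (Set.Finite.biUnion (Finset.finite_toSet _) fun j _ => hWfin j)
  have hcard : {n | n ∈ E ∧ M2 n ≤ k}.ncard ≤ (N₀ + 1) + J * K := by
    refine (Set.ncard_le_ncard hsub hUfin).trans ?_
    refine (Set.ncard_union_le _ _).trans ?_
    have e2 : ((Finset.range (N₀ + 1) : Finset ℕ) : Set ℕ).ncard = N₀ + 1 := by
      rw [Set.ncard_coe_finset, Finset.card_range]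
    have e3 : ∑ j ∈ Finset.range J, (W j).ncard ≤ J * K := by
      refine (Finset.sum_le_card_nsmul _ _ _ fun j _ => hWcard j).trans ?_
      rw [Finset.card_range, smul_eq_mul]
    have e4 := e1 (Finset.range J)
    omega
  have hlogX : (Nat.log 2 X : ℝ) * log 2 ≤ exp k := by
    have hX1 : 1 ≤ X := by
      apply Nat.le_floor
      rw [Nat.cast_one]
      exact (one_le_exp (exp_pos _).le)
    have e5 : (2 : ℝ) ^ Nat.log 2 X ≤ exp (exp k) := by
      have e6 : ((2 ^ Nat.log 2 X : ℕ) : ℝ) ≤ X := by exact_mod_cast Nat.pow_log_le_self 2 (by omega)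
      push_cast at e6
      exact e6.trans (Nat.floor_le (exp_pos _).le)
    have e7 := log_le_log (by positivity) e5
    rwa [log_pow, log_exp] at e7
  have hexp1 : 1 ≤ exp (k : ℝ) := one_le_exp (Nat.cast_nonneg _)
  have hl2 := log_two_gt_d9
  have hJr : (J : ℝ) ≤ 3 * exp k := by
    rw [hJ]
    push_cast
    have h0 : (0 : ℝ) ≤ Nat.log 2 X := Nat.cast_nonneg _
    nlinarith
  have hK0 : (0 : ℝ) ≤ K := Nat.cast_nonneg _
  have hN0 : (0 : ℝ) ≤ N₀ := Nat.cast_nonneg _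
  have hfinal : ({n | n ∈ E ∧ M2 n ≤ k}.ncard : ℝ) ≤ (N₀ + 1) + J * K := by exact_mod_cast hcard
  rw [one_mul]
  nlinarith [mul_le_mul_of_nonneg_right hJr hK0, mul_le_mul_of_nonneg_left hexp1 (show (0 : ℝ) ≤ N₀ + 1 by linarith)]

/-- **One rule for countably many sets with boundedly many members in every interval `[N, 2 N]`**: `(1 + ε) log_b D + C`
moves among the first digits of the integers with at most `D` digits suffice. -/
theorem dyadic_game {ι : Type*} [Countable ι] {b : ℕ} (hb : 2 ≤ b) (E : ι → Set ℕ)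
    (h : ∀ i, ∃ K N₀ : ℕ, ∀ N : ℕ, N₀ ≤ N → {n : ℕ | (N ≤ n ∧ n ≤ 2 * N) ∧ n ∈ E i}.ncard ≤ K) :
    ∃ σ : List ℕ → ℕ, (∀ u, σ u < b) ∧ ∀ i, ∀ ε : ℝ, 0 < ε → ∃ C : ℝ,
      ∀ (x : ℕ → ℕ) (n D m : ℕ), 1 ≤ D → (Nat.digits b m).length ≤ D → play x n <+: (Nat.digits b m).reverse →
        (1 + ε) * logb b D + C < moves σ x n → m ∉ E i := by
  obtain ⟨σ, hσb, hσ⟩ := digit_game hb E M2 M2_nonneg (fun _ => 1) (fun _ => zero_le_one) (by
    intro i
    obtain ⟨K, N₀, hK⟩ := h i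
    exact ⟨_, count_dyadic (E i) K N₀ hK⟩)
  obtain ⟨B, hB⟩ := M2_digits hb
  refine ⟨σ, hσb, fun i ε hε => ?_⟩
  obtain ⟨C', hC'⟩ := hσ i ε hε
  have hb' : (2 : ℝ) ≤ b := by exact_mod_cast hb
  have hb0 : 0 < log (b : ℝ) := log_pos (by linarith)
  refine ⟨((1 + ε) * B + C') / log b, fun x n D m hD hm hpre hmov hE => ?_⟩
  have h1 := hC' x n m hE hpre
  have h2 := hB m D hD hm
  have h3 : (1 + ε) * M2 m ≤ (1 + ε) * (log D + B) := mul_le_mul_of_nonneg_left h2 (by linarith)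
  have h4 : ((1 + ε) * logb b D + ((1 + ε) * B + C') / log b) * log b = (1 + ε) * (log D + B) + C' := by
    rw [logb]
    field_simp
    ring
  have h5 := mul_lt_mul_of_pos_right hmov hb0
  rw [h4] at h5
  linarith

end Pool.Agent.H48.GM
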