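import Mathlib
import Pool.Agent.H48.GM.Trunc

set_option autoImplicit false

/-!
# A bounded number of moves in the digit game of fixed length, the digits being fixed in any order
-/

namespace Pool.Agent.H48.GM

open scoped ENNReal

/-- A set of fewer than `2 ^ m` integers in `[N, N + b ^ L)` is avoided by a player who makes at least `m` of the
`L` moves, whatever the order `π` in which the digits are fixed. -/
theorem few_moves {b : ℕ} (hb : 2 ≤ b) (L N m : ℕ) (π : Equiv.Perm (Fin L)) (E : Set ℕ)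
    (hE : {k : ℕ | k ∈ E ∧ N ≤ k ∧ k < N + b ^ L}.ncard < 2 ^ m) :
    ∃ σ : List ℕ → ℕ, (∀ u, σ u < b) ∧ ∀ x : ℕ → ℕ, (∀ j, x j < b) → m ≤ moves σ x L →
      N + ∑ j : Fin L, x j * b ^ (π j : ℕ) ∉ E := by
  classical
  haveI : Nontrivial (Fin b) := Fin.nontrivial_iff_two_le.mpr hb
  haveI : NeZero b := ⟨by omega⟩
  -- the number belonging to a word
  let num : List (Fin b) → ℕ := fun w => N + ∑ j : Fin L, ((w[(j : ℕ)]?.getD 0 : Fin b) : ℕ) * b ^ (π j : ℕ)
  let W : Set (List (Fin b)) := {w | w.length = L ∧ num w ∈ E}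
  have hnum : ∀ w : List (Fin b), num w = N +
      ((finFunctionFinEquiv (fun i : Fin L => (w[((π.symm i : Fin L) : ℕ)]?.getD 0 : Fin b))) : ℕ) := by
    intro w
    show N + ∑ j : Fin L, ((w[(j : ℕ)]?.getD 0 : Fin b) : ℕ) * b ^ (π j : ℕ) = _
    rw [finFunctionFinEquiv_apply]
    congr 1
    rw [← Equiv.sum_comp π (fun i : Fin L => ((w[((π.symm i : Fin L) : ℕ)]?.getD 0 : Fin b) : ℕ) * b ^ (i : ℕ))]
    simp
  have hlt : ∀ w, N ≤ num w ∧ num w < N + b ^ L := by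
    intro w
    rw [hnum]
    refine ⟨Nat.le_add_right _ _, ?_⟩
    have := (finFunctionFinEquiv (fun i : Fin L => (w[((π.symm i : Fin L) : ℕ)]?.getD 0 : Fin b))).isLt
    omega
  have hinj : Set.InjOn num W := by
    intro w hw v hv h
    rw [hnum, hnum] at h
    have h1 := finFunctionFinEquiv.injective (Fin.ext (Nat.add_left_cancel h))
    have h2 : ∀ j : Fin L, (w[(j : ℕ)]?.getD 0 : Fin b) = v[(j : ℕ)]?.getD 0 := by
      intro j
      have h3 := congrFun h1 (π j)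
      simpa using h3
    apply List.ext_getElem (hw.1.trans hv.1.symm)
    intro i hi hi'
    have h3 := h2 ⟨i, by rw [← hw.1]; exact hi⟩
    simpa [List.getElem?_eq_getElem hi, List.getElem?_eq_getElem hi'] using h3
  have hfin : {k : ℕ | k ∈ E ∧ N ≤ k ∧ k < N + b ^ L}.Finite :=
    (Set.finite_lt_nat (N + b ^ L)).subset fun k hk => hk.2.2
  have hWfin : W.Finite := by
    refine Set.Finite.of_finite_image (hfin.subset ?_) hinj
    rintro _ ⟨w, hw, rfl⟩
    exact ⟨hw.2, hlt w⟩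
  have hWcard : W.ncard < 2 ^ m := by
    refine lt_of_le_of_lt ?_ hE
    rw [← hinj.ncard_image]
    refine Set.ncard_le_ncard ?_ hfin
    rintro _ ⟨w, hw, rfl⟩
    exact ⟨hw.2, hlt w⟩
  let f : List (Fin b) → ℝ≥0∞ := fun w => if w ∈ W then 1 else 0
  have hf : ∑' w, f w = (W.ncard : ℝ≥0∞) := by
    rw [tsum_eq_sum (s := hWfin.toFinset) (by
      intro w hw
      rw [hWfin.mem_toFinset] at hw
      exact if_neg hw)]
    rw [Finset.sum_congr rfl (g := fun _ => (1 : ℝ≥0∞)) (by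
      intro w hw
      rw [hWfin.mem_toFinset] at hw
      exact if_pos hw)]
    rw [Finset.sum_const, nsmul_eq_mul, mul_one, Set.ncard_eq_toFinset_card _ hWfin]
  let toF : ℕ → Fin b := fun d => Fin.ofNat b d
  refine ⟨fun u => (compass f (u.map toF)).val, fun u => (compass f (u.map toF)).isLt, ?_⟩
  intro x hx hm hE'
  have hpl : ∀ t, play (fun i => toF (x i)) t = (play x t).map toF := by
    intro t
    unfold play
    rw [List.map_map]
    rfl
  have hmv : moves (fun u => (compass f (u.map toF)).val) x L = obeys (compass f) (play (fun i => toF (x i)) L) := by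
    rw [← moves_eq]
    unfold moves
    congr 1
    apply Finset.filter_congr
    intro i _
    rw [hpl]
    constructor
    · intro h1
      show toF (x i) = _
      rw [h1]
      apply Fin.ext
      show (Fin.ofNat b (compass f ((play x i).map toF)).val).val = _
      rw [Fin.val_ofNat]
      exact Nat.mod_eq_of_lt (compass f ((play x i).map toF)).isLt
    · intro h1
      show x i = (compass f ((play x i).map toF)).val
      rw [← h1]
      show x i = (Fin.ofNat b (x i)).val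
      rw [Fin.val_ofNat]
      exact (Nat.mod_eq_of_lt (hx i)).symm
  rw [hmv] at hm
  set w := play (fun i => toF (x i)) L with hw
  have hwW : w ∈ W := by
    refine ⟨play_length _ _, ?_⟩
    have : num w = N + ∑ j : Fin L, x j * b ^ (π j : ℕ) := by
      show N + ∑ j : Fin L, ((w[(j : ℕ)]?.getD 0 : Fin b) : ℕ) * b ^ (π j : ℕ) = _
      congr 1
      apply Finset.sum_congr rfl
      intro j _
      congr 1
      rw [hw]
      unfold play
      rw [List.getElem?_map, List.getElem?_range j.isLt]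
      simp only [Option.map_some, Option.getD_some]
      show (Fin.ofNat b (x j)).val = x j
      rw [Fin.val_ofNat]
      exact Nat.mod_eq_of_lt (hx j)
    rw [this]
    exact hE'
  have h1 := compass_main f w
  rw [hf] at h1
  have h2 : f w = 1 := if_pos hwW
  rw [h2, mul_one, Fintype.card_fin] at h1
  have h3 : (b : ℝ≥0∞) ^ m ≤ (W.ncard : ℝ≥0∞) := by
    refine le_trans ?_ h1
    exact pow_le_pow_right₀ (by exact_mod_cast (by omega : 1 ≤ b)) hm
  have h4 : b ^ m ≤ W.ncard := by exact_mod_cast h3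
  have h5 : 2 ^ m ≤ b ^ m := Nat.pow_le_pow_left hb m
  omega

/-- A property `Bad C k` with a real parameter `C > 1` which is convex in `C` and holds for at most `K` of the
`k ∈ [N, 2 N]`, if `N ≥ N₀(C)`: one rule for all `C`. -/
theorem few_moves_heights (Bad : ℝ → ℕ → Prop)
    (hconv : ∀ (c₁ C c₂ : ℝ) (k : ℕ), 1 < c₁ → c₁ ≤ C → C ≤ c₂ → Bad C k → Bad c₁ k ∨ Bad c₂ k)
    (h : ∃ K : ℕ, ∀ C : ℝ, 1 < C → ∃ N0 : ℕ, ∀ N : ℕ, N0 ≤ N →
      {k : ℕ | (N ≤ k ∧ k ≤ 2 * N) ∧ Bad C k}.ncard ≤ K) :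
    ∃ (m : ℕ) (N₁ : ℝ → ℕ), ∀ b : ℕ, 2 ≤ b → ∀ N L : ℕ, b ^ L ≤ N → ∀ π : Equiv.Perm (Fin L),
      ∃ σ : List ℕ → ℕ, (∀ u, σ u < b) ∧ ∀ x : ℕ → ℕ, (∀ j, x j < b) → m ≤ moves σ x L →
        ∀ C : ℝ, 1 < C → N₁ C ≤ N → ¬ Bad C (N + ∑ j : Fin L, x j * b ^ (π j : ℕ)) := by
  classical
  obtain ⟨K, hK⟩ := h
  choose! N0 hN0 using hK
  -- the heights `1 + 1 / (j + 1)` and `j + 2`
  let lo : ℕ → ℝ := fun j => 1 + 1 / ((j : ℝ) + 1)
  let hi : ℕ → ℝ := fun j => (j : ℝ) + 2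
  have hlo1 : ∀ j, 1 < lo j := fun j => by
    show 1 < 1 + 1 / ((j : ℝ) + 1)
    have : (0 : ℝ) < 1 / ((j : ℝ) + 1) := by positivity
    linarith
  have hhi1 : ∀ j, 1 < hi j := fun j => by
    show 1 < (j : ℝ) + 2
    have : (0 : ℝ) ≤ j := Nat.cast_nonneg j
    linarith
  have hloa : ∀ i j, i ≤ j → lo j ≤ lo i := fun i j hij => by
    show 1 + 1 / ((j : ℝ) + 1) ≤ 1 + 1 / ((i : ℝ) + 1)
    have : (i : ℝ) ≤ j := by exact_mod_cast hij
    gcongr
  have hhia : ∀ i j, i ≤ j → hi i ≤ hi j := fun i j hij => by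
    show (i : ℝ) + 2 ≤ (j : ℝ) + 2
    have : (i : ℝ) ≤ j := by exact_mod_cast hij
    linarith
  -- thresholds
  let M : ℕ → ℕ := fun j => j + ∑ i ∈ Finset.range (j + 1), (N0 (lo i) + N0 (hi i))
  have hM : ∀ j, N0 (lo j) ≤ M j ∧ N0 (hi j) ≤ M j := by
    intro j
    have : N0 (lo j) + N0 (hi j) ≤ ∑ i ∈ Finset.range (j + 1), (N0 (lo i) + N0 (hi i)) :=
      Finset.single_le_sum (f := fun i => N0 (lo i) + N0 (hi i)) (fun _ _ => Nat.zero_le _)
        (Finset.mem_range.2 (Nat.lt_succ_self j))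
    constructor <;> simp only [M] <;> omega
  have hMj : ∀ j, j ≤ M j := fun j => Nat.le_add_right _ _
  have hj : ∀ C : ℝ, 1 < C → ∃ j : ℕ, lo j ≤ C ∧ C ≤ hi j := by
    intro C hC
    obtain ⟨i, hi'⟩ := exists_nat_one_div_lt (show 0 < C - 1 by linarith)
    obtain ⟨i', hi''⟩ := exists_nat_ge C
    refine ⟨max i i', ?_, ?_⟩
    · refine (hloa _ _ (le_max_left i i')).trans ?_
      show 1 + 1 / ((i : ℝ) + 1) ≤ C
      linarith
    · refine le_trans ?_ (hhia _ _ (le_max_right i i'))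
      show C ≤ (i' : ℝ) + 2
      linarith
  choose! jj hjlo hjhi using hj
  obtain ⟨m, hm⟩ : ∃ m : ℕ, 2 * K < 2 ^ m := ⟨2 * K, Nat.lt_two_pow_self⟩
  refine ⟨m, fun C => M (jj C), fun b hb N L hL π => ?_⟩
  -- the largest usable height
  by_cases hex : ∃ j, j ≤ N ∧ M j ≤ N
  · let J := Nat.findGreatest (fun j => M j ≤ N) N
    have hJ : M J ≤ N := by
      obtain ⟨j, h1, h2⟩ := hex
      exact Nat.findGreatest_spec (P := fun j => M j ≤ N) h1 h2
    let E : Set ℕ := {k | Bad (lo J) k ∨ Bad (hi J) k}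
    have hE : {k : ℕ | k ∈ E ∧ N ≤ k ∧ k < N + b ^ L}.ncard < 2 ^ m := by
      have h1 := hN0 (lo J) (hlo1 J) N ((hM J).1.trans hJ)
      have h2 := hN0 (hi J) (hhi1 J) N ((hM J).2.trans hJ)
      have hsub : {k : ℕ | k ∈ E ∧ N ≤ k ∧ k < N + b ^ L} ⊆
          {k : ℕ | (N ≤ k ∧ k ≤ 2 * N) ∧ Bad (lo J) k} ∪ {k : ℕ | (N ≤ k ∧ k ≤ 2 * N) ∧ Bad (hi J) k} := by
        rintro k ⟨h3, h4, h5⟩
        rcases h3 with h3 | h3
        · exact Or.inl ⟨⟨h4, by omega⟩, h3⟩
        · exact Or.inr ⟨⟨h4, by omega⟩, h3⟩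
      have hfin : ({k : ℕ | (N ≤ k ∧ k ≤ 2 * N) ∧ Bad (lo J) k} ∪
          {k : ℕ | (N ≤ k ∧ k ≤ 2 * N) ∧ Bad (hi J) k}).Finite :=
        (Set.finite_le_nat (2 * N)).subset (by
          rintro k (hk | hk)
          · exact hk.1.2
          · exact hk.1.2)
      have h3 := Set.ncard_le_ncard hsub hfin
      have h4 := Set.ncard_union_le {k : ℕ | (N ≤ k ∧ k ≤ 2 * N) ∧ Bad (lo J) k}
        {k : ℕ | (N ≤ k ∧ k ≤ 2 * N) ∧ Bad (hi J) k}
      omega
    obtain ⟨σ, hσb, hσ⟩ := few_moves hb L N m π E hE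
    refine ⟨σ, hσb, fun x hx hmov C hC hCN hbad => hσ x hx hmov ?_⟩
    have hjN : jj C ≤ N := (hMj _).trans hCN
    have h5 : jj C ≤ J := Nat.le_findGreatest hjN hCN
    exact hconv _ _ _ _ (hlo1 J) ((hloa _ _ h5).trans (hjlo C hC)) ((hjhi C hC).trans (hhia _ _ h5)) hbad
  · exact ⟨fun _ => 0, fun _ => by show 0 < b; omega, fun x hx hmov C hC hCN _ => hex ⟨jj C, (hMj _).trans hCN, hCN⟩⟩

end Pool.Agent.H48.GM
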