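import Mathlib
import Pool.Agent.H48.GM.Trunc

set_option autoImplicit false

/-!
# The digit game with only logarithmically many moves in every window

If every word `u` has a bounded number of exceptional extensions of each length `l ≤ K |u|`, there is a rule such that
the player needs only `O(log n)` moves in the window `[δ n, n)` to avoid the exceptional words of length `n`.
-/

namespace Pool.Agent.H48.GM

open scoped ENNReal
open Real

theorem moves_succ {α : Type*} [DecidableEq α] (σ : List α → α) (x : ℕ → α) (n : ℕ) :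
    moves σ x (n + 1) = moves σ x n + if x n = σ (play x n) then 1 else 0 := by
  rw [moves_eq, moves_eq, play_succ, obeys_snoc]

theorem moves_mono {α : Type*} [DecidableEq α] (σ : List α → α) (x : ℕ → α) : Monotone (moves σ x) := by
  apply monotone_nat_of_le_succ
  intro n
  rw [moves_succ]
  omega

theorem play_take {α : Type*} (x : ℕ → α) {m n : ℕ} (h : m ≤ n) : play x m <+: play x n := by
  obtain ⟨k, rfl⟩ := Nat.exists_eq_add_of_le h
  induction k with
  | zero => simp
  | succ k ih =>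
    rw [← Nat.add_assoc, play_succ]
    exact (ih (by omega)).trans (List.prefix_append _ _)

/-- in one window -/
theorem one_window {α : Type*} [DecidableEq α] [Fintype α] [Nonempty α] (f : List α → ℝ≥0∞) (σ : List α → α)
    (x : ℕ → α) (s t : ℕ) (hst : s ≤ t) (hσ : ∀ r, s ≤ r → r < t → σ (play x r) = compass f (play x r)) :
    (Fintype.card α : ℝ≥0∞) ^ (moves σ x t - moves σ x s) * wt f (play x t) ≤ wt f (play x s) := by
  obtain ⟨k, rfl⟩ := Nat.exists_eq_add_of_le hst
  induction k with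
  | zero => simp
  | succ k ih =>
    have ih' := ih (by omega) (fun r h1 h2 => hσ r h1 (by omega))
    have hm := moves_mono σ x (show s ≤ s + k by omega)
    rw [← Nat.add_assoc, play_succ, moves_succ]
    refine le_trans ?_ ih'
    by_cases h : x (s + k) = σ (play x (s + k))
    · rw [if_pos h, Nat.sub_add_comm hm, pow_succ, mul_assoc]
      gcongr
      rw [h, hσ (s + k) (by omega) (by omega)]
      exact compass_spec f _
    · rw [if_neg h, add_zero]
      gcongr
      exact wt_child_le f _ _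

theorem tsum_ind_le {β : Type*} (P : β → Prop) [DecidablePred P] (hf : {w | P w}.Finite) (N : ℕ)
    (h : {w | P w}.ncard ≤ N) : ∑' w, (if P w then (1 : ℝ≥0∞) else 0) ≤ N := by
  classical
  rw [tsum_eq_sum (s := hf.toFinset)]
  · rw [Finset.sum_congr rfl (g := fun _ => (1 : ℝ≥0∞))]
    · rw [Finset.sum_const, nsmul_eq_mul, mul_one]
      rw [Set.ncard_eq_toFinset_card _ hf] at h
      exact_mod_cast h
    · intro w hw
      rw [hf.mem_toFinset] at hw
      exact if_pos hw
  · intro w hw
    rw [hf.mem_toFinset] at hw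
    exact if_neg hw

/-- **The game with few moves in every window**, for an arbitrary alphabet. -/
theorem window_core {α ι : Type*} [DecidableEq α] [Fintype α] [Nontrivial α] [Countable ι]
    (E : ι → Set (List α))
    (h : ∀ i (g : ℕ), ∃ C : ℕ, ∀ (u : List α) (l : ℕ), l ≤ 2 ^ g * u.length →
      {w : List α | w.length = l ∧ u <+: w ∧ w ∈ E i}.ncard ≤ C) :
    ∃ σ : List α → α, ∀ i, ∀ δ : ℝ, 0 < δ → ∃ K C : ℝ, ∀ (x : ℕ → α) (n : ℕ), 1 ≤ n → play x n ∈ E i →
      (moves σ x n : ℝ) - moves σ x ⌊δ * n⌋₊ ≤ K * log n + C := by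
  classical
  choose C hC using h
  obtain ⟨ε, hε, hεsum⟩ := ENNReal.exists_pos_sum_of_countable (ε := 1) one_ne_zero (ι × ℕ)
  let D : ι × ℕ → ℕ := fun p => 2 ^ p.2 * C p.1 (p.2 + 1)
  let c : ι × ℕ → NNReal := fun p => ε p / ((D p : NNReal) + 1)
  have hc : ∀ p, 0 < c p := fun p => div_pos (hε p) (by positivity)
  have hcD : ∀ p, (c p : ℝ≥0∞) * (D p : ℝ≥0∞) ≤ ε p := by
    intro p
    have h1 : c p * (D p : NNReal) ≤ ε p := by
      simp only [c]
      rw [div_mul_eq_mul_div, div_le_iff₀ (by positivity)]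
      gcongr
      exact le_self_add
    exact_mod_cast h1
  let f : ℕ → List α → ℝ≥0∞ := fun j w => ∑' p : ι × ℕ, (c p : ℝ≥0∞) *
    (if w ∈ E p.1 ∧ 2 ^ (j + p.2) ≤ w.length ∧ w.length < 2 ^ (j + p.2 + 1) then 1 else 0)
  let σ : List α → α := fun u => compass (f (Nat.log 2 u.length)) u
  -- the weight at the beginning of a window
  have hstart : ∀ (j : ℕ) (u : List α), u.length = 2 ^ j → wt (f j) u ≤ 2 ^ j := by
    intro j u hu
    have h1 : wt (f j) u = ∑' p : ι × ℕ, (c p : ℝ≥0∞) * ∑' w : List α,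
        (if u <+: w ∧ w ∈ E p.1 ∧ 2 ^ (j + p.2) ≤ w.length ∧ w.length < 2 ^ (j + p.2 + 1) then 1 else 0) := by
      unfold wt
      simp only [f]
      have : ∀ w : List α, (if u <+: w then ∑' p : ι × ℕ, (c p : ℝ≥0∞) *
          (if w ∈ E p.1 ∧ 2 ^ (j + p.2) ≤ w.length ∧ w.length < 2 ^ (j + p.2 + 1) then 1 else 0) else 0) =
          ∑' p : ι × ℕ, (c p : ℝ≥0∞) *
          (if u <+: w ∧ w ∈ E p.1 ∧ 2 ^ (j + p.2) ≤ w.length ∧ w.length < 2 ^ (j + p.2 + 1) then 1 else 0) := by
        intro w
        by_cases hw : u <+: w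
        · simp [hw]
        · simp [hw]
      rw [tsum_congr this, ENNReal.tsum_comm]
      apply tsum_congr
      intro p
      rw [ENNReal.tsum_mul_left]
    rw [h1]
    have h2 : ∀ p : ι × ℕ, (c p : ℝ≥0∞) * ∑' w : List α,
        (if u <+: w ∧ w ∈ E p.1 ∧ 2 ^ (j + p.2) ≤ w.length ∧ w.length < 2 ^ (j + p.2 + 1) then (1 : ℝ≥0∞) else 0)
        ≤ 2 ^ j * ε p := by
      rintro ⟨i, g⟩
      simp only
      have hfinl : ∀ l : ℕ, {w : List α | w.length = l ∧ u <+: w ∧ w ∈ E i}.Finite := fun l =>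
        (List.finite_length_eq α l).subset fun w hw => hw.1
      have hU : {w : List α | u <+: w ∧ w ∈ E i ∧ 2 ^ (j + g) ≤ w.length ∧ w.length < 2 ^ (j + g + 1)} ⊆
          ⋃ l ∈ Finset.Ico (2 ^ (j + g)) (2 ^ (j + g + 1)), {w : List α | w.length = l ∧ u <+: w ∧ w ∈ E i} := by
        rintro w ⟨h3, h4, h5, h6⟩
        rw [Set.mem_iUnion₂]
        exact ⟨w.length, Finset.mem_Ico.mpr ⟨h5, h6⟩, rfl, h3, h4⟩
      have hUfin : (⋃ l ∈ Finset.Ico (2 ^ (j + g)) (2 ^ (j + g + 1)),
          {w : List α | w.length = l ∧ u <+: w ∧ w ∈ E i}).Finite :=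
        Set.Finite.biUnion (Finset.finite_toSet _) fun l _ => hfinl l
      have hcard : {w : List α | u <+: w ∧ w ∈ E i ∧ 2 ^ (j + g) ≤ w.length ∧
          w.length < 2 ^ (j + g + 1)}.ncard ≤ 2 ^ (j + g) * C i (g + 1) := by
        refine (Set.ncard_le_ncard hU hUfin).trans ?_
        have e1 : ∀ s : Finset ℕ, (⋃ l ∈ s, {w : List α | w.length = l ∧ u <+: w ∧ w ∈ E i}).ncard ≤
            ∑ l ∈ s, {w : List α | w.length = l ∧ u <+: w ∧ w ∈ E i}.ncard := by
          intro s
          induction s using Finset.induction_on with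
          | empty => simp
          | insert a s ha ih =>
            rw [Finset.sum_insert ha, Finset.set_biUnion_insert]
            refine (Set.ncard_union_le _ _).trans ?_
            gcongr
        refine (e1 _).trans ?_
        have e2 : ∀ l ∈ Finset.Ico (2 ^ (j + g)) (2 ^ (j + g + 1)),
            {w : List α | w.length = l ∧ u <+: w ∧ w ∈ E i}.ncard ≤ C i (g + 1) := by
          intro l hl
          rw [Finset.mem_Ico] at hl
          apply hC i (g + 1) u l
          rw [hu, ← pow_add]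
          have : j + g + 1 = g + 1 + j := by ring
          rw [← this]
          exact hl.2.le
        refine (Finset.sum_le_card_nsmul _ _ _ e2).trans ?_
        rw [Nat.card_Ico, smul_eq_mul, pow_succ]
        have : 2 ^ (j + g) * 2 - 2 ^ (j + g) = 2 ^ (j + g) := by omega
        rw [this]
      have h3 := tsum_ind_le (fun w : List α => u <+: w ∧ w ∈ E i ∧ 2 ^ (j + g) ≤ w.length ∧
          w.length < 2 ^ (j + g + 1)) (hUfin.subset hU) _ hcard
      calc (c (i, g) : ℝ≥0∞) * _ ≤ (c (i, g) : ℝ≥0∞) * ((2 ^ (j + g) * C i (g + 1) : ℕ) : ℝ≥0∞) := by gcongr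
        _ = 2 ^ j * ((c (i, g) : ℝ≥0∞) * (D (i, g) : ℝ≥0∞)) := by
          simp only [D]
          push_cast
          rw [pow_add]
          ring
        _ ≤ 2 ^ j * ε (i, g) := by
          gcongr
          exact hcD (i, g)
    refine (ENNReal.tsum_le_tsum h2).trans ?_
    rw [ENNReal.tsum_mul_left]
    calc (2 : ℝ≥0∞) ^ j * ∑' p, (ε p : ℝ≥0∞) ≤ 2 ^ j * 1 := by
          gcongr
      _ = 2 ^ j := mul_one _
  have hcard1 : (1 : ℝ) < Fintype.card α := by exact_mod_cast Fintype.one_lt_card
  have hlq : 0 < log (Fintype.card α : ℝ) := log_pos hcard1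
  -- moves in a window
  have hwin : ∀ (i : ι) (g j t n : ℕ) (x : ℕ → α), 2 ^ j ≤ t → t ≤ 2 ^ (j + 1) → t ≤ n →
      2 ^ (j + g) ≤ n → n < 2 ^ (j + g + 1) → play x n ∈ E i →
      ((moves σ x t : ℝ) - moves σ x (2 ^ j)) * log (Fintype.card α) ≤ j * log 2 - log (c (i, g)) := by
    intro i g j t n x h1 h2 h3 h4 h5 h6
    have e1 := one_window (f j) σ x (2 ^ j) t h1 (by
      intro r hr1 hr2
      simp only [σ, play_length]
      have : Nat.log 2 r = j := by
        rw [Nat.log_eq_iff (Or.inr ⟨by norm_num, by have := Nat.one_le_two_pow (n := j); omega⟩)]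
        exact ⟨hr1, by omega⟩
      rw [this])
    have e2 := hstart j (play x (2 ^ j)) (play_length x _)
    have e3 : (c (i, g) : ℝ≥0∞) ≤ wt (f j) (play x t) := by
      unfold wt
      refine le_trans ?_ (ENNReal.le_tsum (play x n))
      rw [if_pos (play_take x h3)]
      refine le_trans ?_ (ENNReal.le_tsum (i, g))
      rw [if_pos ⟨h6, by rw [play_length]; exact h4, by rw [play_length]; exact h5⟩, mul_one]
    have e4 : (Fintype.card α : ℝ≥0∞) ^ (moves σ x t - moves σ x (2 ^ j)) * (c (i, g) : ℝ≥0∞) ≤ 2 ^ j := by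
      refine le_trans ?_ (e1.trans e2)
      gcongr
    have e5 : (Fintype.card α : ℝ) ^ (moves σ x t - moves σ x (2 ^ j)) * (c (i, g) : ℝ) ≤ 2 ^ j := by
      have := ENNReal.toReal_mono (by simp) e4
      rw [ENNReal.toReal_mul, ENNReal.toReal_pow, ENNReal.toReal_natCast, ENNReal.coe_toReal] at this
      simpa using this
    have hcp : (0 : ℝ) < c (i, g) := by exact_mod_cast hc (i, g)
    have e6 := log_le_log (by positivity) e5
    rw [log_mul (by positivity) hcp.ne', log_pow, log_pow, Nat.cast_sub (moves_mono σ x h1)] at e6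
    linarith
  refine ⟨σ, fun i δ hδ => ?_⟩
  obtain ⟨G, hG⟩ := exists_pow_lt_of_lt_one hδ (show (1 / 2 : ℝ) < 1 by norm_num)
  set M : ℝ := ∑ g ∈ Finset.range (G + 1), |log (c (i, g))| with hM
  have hM0 : 0 ≤ M := Finset.sum_nonneg fun _ _ => abs_nonneg _
  refine ⟨(G + 1) / log (Fintype.card α), (G + 1) * M / log (Fintype.card α) + 1, fun x n hn hE => ?_⟩
  set J := Nat.log 2 n with hJ
  have hJ1 : 2 ^ J ≤ n := Nat.pow_log_le_self 2 (by omega)
  have hJ2 : n < 2 ^ (J + 1) := Nat.lt_pow_succ_log_self (by norm_num) n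
  have hJlog : (J : ℝ) * log 2 ≤ log n := by
    have : ((2 : ℝ) ^ J) ≤ n := by exact_mod_cast hJ1
    have := log_le_log (by positivity) this
    rwa [log_pow] at this
  have hl2 : 0 < log 2 := log_pos (by norm_num)
  -- one window
  have hB : ∀ g : ℕ, g ≤ G → g ≤ J → ∀ t, 2 ^ (J - g) ≤ t → t ≤ 2 ^ (J - g + 1) → t ≤ n →
      ((moves σ x t : ℝ) - moves σ x (2 ^ (J - g))) * log (Fintype.card α) ≤ log n + M := by
    intro g hgG hgJ t ht1 ht2 ht3
    have e1 := hwin i g (J - g) t n x ht1 ht2 ht3 (by rw [Nat.sub_add_cancel hgJ]; exact hJ1)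
      (by rw [Nat.sub_add_cancel hgJ]; exact hJ2) hE
    have e2 : |log (c (i, g))| ≤ M :=
      Finset.single_le_sum (f := fun g => |log ((c (i, g) : NNReal) : ℝ)|) (fun _ _ => abs_nonneg _)
        (Finset.mem_range.mpr (by omega))
    have e3 := neg_abs_le (log ((c (i, g) : NNReal) : ℝ))
    have e4 : ((J - g : ℕ) : ℝ) * log 2 ≤ J * log 2 := by
      gcongr
      omega
    linarith
  have hind : ∀ k : ℕ, k ≤ G → k ≤ J →
      ((moves σ x n : ℝ) - moves σ x (2 ^ (J - k))) * log (Fintype.card α) ≤ (k + 1) * (log n + M) := by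
    intro k
    induction k with
    | zero =>
      intro h1 h2
      have := hB 0 (by omega) (by omega) n (by simpa using hJ1) (by simpa using hJ2.le) le_rfl
      simpa using this
    | succ k ih =>
      intro h1 h2
      have e1 := ih (by omega) (by omega)
      have e2 := hB (k + 1) h1 h2 (2 ^ (J - k)) (Nat.pow_le_pow_right (by norm_num) (by omega))
        (by
          have : J - (k + 1) + 1 = J - k := by omega
          rw [this])
        ((Nat.pow_le_pow_right (by norm_num) (by omega)).trans hJ1)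
      push_cast
      linarith
  have hlogn : 0 ≤ log (n : ℝ) := log_natCast_nonneg n
  have hfinal : ((moves σ x n : ℝ) - moves σ x ⌊δ * n⌋₊ - 1) * log (Fintype.card α) ≤
      (G + 1) * (log n + M) := by
    by_cases hGJ : G ≤ J
    · have e1 := hind G le_rfl hGJ
      have e2 : moves σ x (2 ^ (J - G)) ≤ moves σ x ⌊δ * n⌋₊ := by
        apply moves_mono
        apply Nat.le_floor
        have e3 : ((2 : ℝ) ^ J) ≤ n := by exact_mod_cast hJ1
        have e4 : ((2 ^ (J - G) : ℕ) : ℝ) = (1 / 2) ^ G * 2 ^ J := by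
          push_cast
          rw [one_div, inv_pow, ← div_eq_inv_mul, eq_div_iff (by positivity), ← pow_add, Nat.sub_add_cancel hGJ]
        rw [e4]
        have e5 : (0 : ℝ) < 2 ^ J := by positivity
        have e6 : (0 : ℝ) < (1 / 2) ^ G := by positivity
        nlinarith
      have e2' : (moves σ x (2 ^ (J - G)) : ℝ) ≤ moves σ x ⌊δ * n⌋₊ := by exact_mod_cast e2
      nlinarith
    · push Not at hGJ
      have e1 := hind J hGJ.le le_rfl
      rw [Nat.sub_self, pow_zero] at e1
      have e2 : moves σ x 1 ≤ 1 := by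
        rw [moves_eq]
        exact (obeys_le_length σ _).trans (by rw [play_length])
      have e2' : (moves σ x 1 : ℝ) ≤ 1 := by exact_mod_cast e2
      have e3 : (0 : ℝ) ≤ moves σ x ⌊δ * n⌋₊ := Nat.cast_nonneg _
      have e4 : ((J : ℝ) + 1) * (log n + M) ≤ (G + 1) * (log n + M) := by
        gcongr
      nlinarith
  have h7 : (moves σ x n : ℝ) - moves σ x ⌊δ * n⌋₊ - 1 ≤ (G + 1) * (log n + M) / log (Fintype.card α) := by
    rw [le_div_iff₀ hlq]
    exact hfinal
  have h8 : (G + 1 : ℝ) * (log n + M) / log (Fintype.card α) =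
      (G + 1) / log (Fintype.card α) * log n + (G + 1) * M / log (Fintype.card α) := by ring
  linarith

/-- **The game with few moves in every window**, for digits. -/
theorem window_game {ι : Type*} [Countable ι] {b : ℕ} (hb : 2 ≤ b) (E : ι → Set (List ℕ))
    (h : ∀ i (g : ℕ), ∃ C : ℕ, ∀ (u : List ℕ) (l : ℕ), (∀ d ∈ u, d < b) → l ≤ 2 ^ g * u.length →
      {w : List ℕ | w.length = l ∧ (∀ d ∈ w, d < b) ∧ u <+: w ∧ w ∈ E i}.ncard ≤ C) :
    ∃ σ : List ℕ → ℕ, (∀ u, σ u < b) ∧ ∀ i, ∀ δ : ℝ, 0 < δ → ∃ K C : ℝ,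
      ∀ (x : ℕ → ℕ), (∀ i, x i < b) → ∀ n : ℕ, 1 ≤ n →
        K * log n + C < (moves σ x n : ℝ) - moves σ x ⌊δ * n⌋₊ → play x n ∉ E i := by
  classical
  haveI : Nontrivial (Fin b) := Fin.nontrivial_iff_two_le.mpr hb
  haveI : NeZero b := ⟨by omega⟩
  let toF : ℕ → Fin b := fun d => Fin.ofNat b d
  obtain ⟨σ, hσ⟩ := window_core (α := Fin b) (ι := ι) (fun i => {w | w.map Fin.val ∈ E i}) (by
    intro i g
    obtain ⟨C, hC⟩ := h i g
    refine ⟨C, fun u l hl => ?_⟩
    have hinj : Function.Injective (List.map (Fin.val : Fin b → ℕ)) :=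
      List.map_injective_iff.mpr Fin.val_injective
    rw [← Set.ncard_image_of_injective _ hinj]
    have hsub : (List.map (Fin.val : Fin b → ℕ)) '' {w : List (Fin b) | w.length = l ∧ u <+: w ∧
        w ∈ {w : List (Fin b) | w.map Fin.val ∈ E i}} ⊆
        {w : List ℕ | w.length = l ∧ (∀ d ∈ w, d < b) ∧ u.map Fin.val <+: w ∧ w ∈ E i} := by
      rintro _ ⟨w, ⟨h1, h2, h3⟩, rfl⟩
      refine ⟨by simpa using h1, ?_, h2.map _, h3⟩
      intro d hd
      rw [List.mem_map] at hd
      obtain ⟨e, -, rfl⟩ := hd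
      exact e.isLt
    refine (Set.ncard_le_ncard hsub ((words_finite b l).subset fun w hw => ⟨hw.1, hw.2.1⟩)).trans ?_
    apply hC (u.map Fin.val) l
    · intro d hd
      rw [List.mem_map] at hd
      obtain ⟨e, -, rfl⟩ := hd
      exact e.isLt
    · simpa using hl)
  let σ' : List ℕ → ℕ := fun u => (σ (u.map toF)).val
  refine ⟨σ', fun u => (σ (u.map toF)).isLt, fun i δ hδ => ?_⟩
  obtain ⟨K, C, hKC⟩ := hσ i δ hδ
  refine ⟨K, C, fun x hx n hn hmov hE => ?_⟩
  have hpl : ∀ t, play (fun i => toF (x i)) t = (play x t).map toF := by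
    intro t
    unfold play
    rw [List.map_map]
    rfl
  have hmv : ∀ t, moves σ' x t = moves σ (fun i => toF (x i)) t := by
    intro t
    unfold moves
    congr 1
    apply Finset.filter_congr
    intro i _
    rw [hpl]
    constructor
    · intro h1
      show toF (x i) = _
      rw [h1]
      apply Fin.ext
      show (Fin.ofNat b (σ ((play x i).map toF)).val).val = _
      rw [Fin.val_ofNat]
      exact Nat.mod_eq_of_lt (σ ((play x i).map toF)).isLt
    · intro h1
      show x i = (σ ((play x i).map toF)).val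
      rw [← h1]
      show x i = (Fin.ofNat b (x i)).val
      rw [Fin.val_ofNat]
      exact (Nat.mod_eq_of_lt (hx i)).symm
  have hmap : ((play x n).map toF).map Fin.val = play x n := by
    rw [List.map_map]
    unfold play
    rw [List.map_map]
    apply List.map_congr_left
    intro k _
    show (Fin.ofNat b (x k)).val = x k
    rw [Fin.val_ofNat]
    exact Nat.mod_eq_of_lt (hx k)
  have h1 := hKC (fun i => toF (x i)) n hn (by
    show (play (fun i => toF (x i)) n).map Fin.val ∈ E i
    rw [hpl, hmap]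
    exact hE)
  rw [← hmv, ← hmv] at h1
  linarith

end Pool.Agent.H48.GM
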