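import Mathlib
import Pool.Agent.H48.GM.Window

set_option autoImplicit false

/-!
# The digit game in fine windows: one rule for families with few exceptions in short intervals only

If every word `u` has a bounded number of extensions in `E i` of each length `l ≤ (1 + κ i) |u|`, where `κ i > 0` may be
arbitrarily small, there is one rule for all `i` such that the player needs only `O(h(n) log n)` moves in the window
`[δ n, n)`, `δ > 1 / (1 + κ i)`, in order to avoid the words of `E i` of length `n`; `h` is a given function which tends to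
infinity arbitrarily slowly.
-/

namespace Pool.Agent.H48.GM

open scoped ENNReal
open Real Filter

/-- the ends of the windows -/
def bnd (h : ℕ → ℕ) : ℕ → ℕ
  | 0 => 1
  | m + 1 => bnd h m + bnd h m / h (bnd h m) + 1

theorem bnd_lt_succ (h : ℕ → ℕ) (m : ℕ) : bnd h m < bnd h (m + 1) := by
  rw [bnd]
  have := Nat.zero_le (bnd h m / h (bnd h m))
  exact Nat.lt_succ_of_le (Nat.le_add_right _ _)

theorem bnd_mono (h : ℕ → ℕ) : StrictMono (bnd h) := strictMono_nat_of_lt_succ (bnd_lt_succ h)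

theorem bnd_gt (h : ℕ → ℕ) (m : ℕ) : m < bnd h m := by
  induction m with
  | zero => simp [bnd]
  | succ m ih =>
    have := bnd_lt_succ h m
    omega

/-- the number of the window of `r` -/
def win (h : ℕ → ℕ) (r : ℕ) : ℕ := Nat.findGreatest (fun m => bnd h m ≤ r) r

theorem bnd_win_le (h : ℕ → ℕ) {r : ℕ} (hr : 1 ≤ r) : bnd h (win h r) ≤ r := by
  unfold win
  exact Nat.findGreatest_spec (P := fun m => bnd h m ≤ r) (Nat.zero_le r) (by simpa [bnd] using hr)

theorem lt_bnd_win (h : ℕ → ℕ) (r : ℕ) : r < bnd h (win h r + 1) := by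
  by_contra hcon
  push Not at hcon
  have h1 := bnd_gt h (win h r + 1)
  have h2 : win h r + 1 ≤ r := by omega
  have h3 := Nat.le_findGreatest (P := fun m => bnd h m ≤ r) h2 hcon
  have h4 : win h r + 1 ≤ win h r := h3
  omega

theorem win_eq (h : ℕ → ℕ) {r m : ℕ} (h1 : bnd h m ≤ r) (h2 : r < bnd h (m + 1)) : win h r = m := by
  have hr : 1 ≤ r := by
    have := bnd_gt h m
    omega
  have h3 := bnd_win_le h hr
  have h4 := lt_bnd_win h r
  have h5 : win h r < m + 1 := (bnd_mono h).lt_iff_lt.mp (h3.trans_lt h2)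
  have h6 : m < win h r + 1 := (bnd_mono h).lt_iff_lt.mp (h1.trans_lt h4)
  omega

/-- growth of the ends of the windows -/
theorem bnd_growth (h : ℕ → ℕ) (hm : Monotone h) (h1 : ∀ n, 1 ≤ h n) (n m d : ℕ) (hmd : bnd h (m + d) ≤ n) :
    (bnd h m : ℝ) * (1 + 1 / (h n : ℝ)) ^ d ≤ bnd h (m + d) := by
  induction d with
  | zero => simp
  | succ d ih =>
    have h2 : bnd h (m + d) ≤ n := (bnd_lt_succ h (m + d)).le.trans hmd
    have h3 := ih h2
    have h4 : (h (bnd h (m + d)) : ℝ) ≤ h n := by exact_mod_cast hm h2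
    have h5 : (1 : ℝ) ≤ h (bnd h (m + d)) := by exact_mod_cast h1 _
    have h6 : (bnd h (m + d) : ℝ) / h n ≤ (bnd h (m + d) / h (bnd h (m + d)) : ℕ) + 1 := by
      calc (bnd h (m + d) : ℝ) / h n ≤ (bnd h (m + d) : ℝ) / h (bnd h (m + d)) := by gcongr
        _ ≤ (bnd h (m + d) / h (bnd h (m + d)) : ℕ) + 1 := (Nat.lt_floor_add_one _).le.trans (by
            rw [Nat.floor_div_natCast, Nat.floor_natCast])
    have h7 : (bnd h (m + (d + 1)) : ℝ) = bnd h (m + d) + (bnd h (m + d) / h (bnd h (m + d)) : ℕ) + 1 := by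
      rw [← Nat.add_assoc, bnd]
      push_cast
      ring
    rw [h7, pow_succ, ← mul_assoc]
    have h8 : (0 : ℝ) ≤ 1 / (h n : ℝ) := by positivity
    calc (bnd h m : ℝ) * (1 + 1 / (h n : ℝ)) ^ d * (1 + 1 / (h n : ℝ))
        ≤ (bnd h (m + d) : ℝ) * (1 + 1 / (h n : ℝ)) := mul_le_mul_of_nonneg_right h3 (by linarith)
      _ = bnd h (m + d) + (bnd h (m + d) : ℝ) / h n := by ring
      _ ≤ _ := by linarith

/-- **The game in fine windows**, for an arbitrary alphabet. -/
theorem fine_core {α ι : Type*} [DecidableEq α] [Fintype α] [Nontrivial α] [Countable ι]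
    (h : ℕ → ℕ) (hm : Monotone h) (h1 : ∀ n, 1 ≤ h n) (hlim : Tendsto h atTop atTop)
    (E : ι → Set (List α)) (κ : ι → ℝ) (hκ : ∀ i, 0 < κ i)
    (hE : ∀ i, ∃ C : ℕ, ∀ (u : List α) (l : ℕ), (l : ℝ) ≤ (1 + κ i) * u.length →
      {w : List α | w.length = l ∧ u <+: w ∧ w ∈ E i}.ncard ≤ C) :
    ∃ σ : List α → α, ∀ i, ∀ δ : ℝ, 1 < δ * (1 + κ i) → δ ≤ 1 → ∃ K : ℝ, ∃ n₀ : ℕ, ∀ (x : ℕ → α) (n : ℕ), n₀ ≤ n →
      play x n ∈ E i → (moves σ x n : ℝ) - moves σ x ⌊δ * n⌋₊ ≤ K * h n * log n := by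
  classical
  choose C hC using hE
  obtain ⟨ε, hε, hεsum⟩ := ENNReal.exists_pos_sum_of_countable (ε := 1) one_ne_zero ι
  let D : ι → ℕ := fun i => (⌊κ i⌋₊ + 3) * C i
  let c : ι → NNReal := fun i => ε i / ((D i : NNReal) + 1)
  have hc : ∀ i, 0 < c i := fun i => div_pos (hε i) (by positivity)
  have hcD : ∀ i, (c i : ℝ≥0∞) * (D i : ℝ≥0∞) ≤ ε i := by
    intro i
    have e1 : c i * (D i : NNReal) ≤ ε i := by
      simp only [c]
      rw [div_mul_eq_mul_div, div_le_iff₀ (by positivity)]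
      gcongr
      exact le_self_add
    exact_mod_cast e1
  let f : ℕ → List α → ℝ≥0∞ := fun m w => ∑' i : ι, (c i : ℝ≥0∞) *
    (if w ∈ E i ∧ (w.length : ℝ) ≤ (1 + κ i) * bnd h m then 1 else 0)
  let σ : List α → α := fun u => compass (f (win h u.length)) u
  -- the weight at the beginning of a window
  have hstart : ∀ (m : ℕ) (u : List α), u.length = bnd h m → wt (f m) u ≤ bnd h m := by
    intro m u hu
    have e0 : wt (f m) u = ∑' i : ι, (c i : ℝ≥0∞) * ∑' w : List α,
        (if u <+: w ∧ w ∈ E i ∧ (w.length : ℝ) ≤ (1 + κ i) * bnd h m then 1 else 0) := by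
      unfold wt
      simp only [f]
      have : ∀ w : List α, (if u <+: w then ∑' i : ι, (c i : ℝ≥0∞) *
          (if w ∈ E i ∧ (w.length : ℝ) ≤ (1 + κ i) * bnd h m then 1 else 0) else 0) =
          ∑' i : ι, (c i : ℝ≥0∞) *
          (if u <+: w ∧ w ∈ E i ∧ (w.length : ℝ) ≤ (1 + κ i) * bnd h m then 1 else 0) := by
        intro w
        by_cases hw : u <+: w
        · simp [hw]
        · simp [hw]
      rw [tsum_congr this, ENNReal.tsum_comm]
      apply tsum_congr
      intro p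
      rw [ENNReal.tsum_mul_left]
    rw [e0]
    have e2 : ∀ i : ι, (c i : ℝ≥0∞) * ∑' w : List α,
        (if u <+: w ∧ w ∈ E i ∧ (w.length : ℝ) ≤ (1 + κ i) * bnd h m then (1 : ℝ≥0∞) else 0)
        ≤ bnd h m * ε i := by
      intro i
      have hfinl : ∀ l : ℕ, {w : List α | w.length = l ∧ u <+: w ∧ w ∈ E i}.Finite := fun l =>
        (List.finite_length_eq α l).subset fun w hw => hw.1
      set L : ℕ := ⌊(1 + κ i) * bnd h m⌋₊ + 1 with hL
      have hU : {w : List α | u <+: w ∧ w ∈ E i ∧ (w.length : ℝ) ≤ (1 + κ i) * bnd h m} ⊆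
          ⋃ l ∈ Finset.range L, {w : List α | w.length = l ∧ u <+: w ∧ w ∈ E i ∧ (l : ℝ) ≤ (1 + κ i) * bnd h m} := by
        rintro w ⟨h3, h4, h5⟩
        rw [Set.mem_iUnion₂]
        exact ⟨w.length, Finset.mem_range.mpr (by have := Nat.le_floor h5; omega), rfl, h3, h4, h5⟩
      have hfinl' : ∀ l : ℕ, {w : List α | w.length = l ∧ u <+: w ∧ w ∈ E i ∧ (l : ℝ) ≤ (1 + κ i) * bnd h m}.Finite :=
        fun l => (List.finite_length_eq α l).subset fun w hw => hw.1
      have hUfin : (⋃ l ∈ Finset.range L,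
          {w : List α | w.length = l ∧ u <+: w ∧ w ∈ E i ∧ (l : ℝ) ≤ (1 + κ i) * bnd h m}).Finite :=
        Set.Finite.biUnion (Finset.finite_toSet _) fun l _ => hfinl' l
      have hLle : L ≤ (⌊κ i⌋₊ + 3) * bnd h m := by
        have hb1 : 1 ≤ bnd h m := by have := bnd_gt h m; omega
        have hk1 : κ i ≤ ⌊κ i⌋₊ + 1 := (Nat.lt_floor_add_one _).le
        have hb0 : (0 : ℝ) ≤ bnd h m := Nat.cast_nonneg _
        have e3 : (⌊(1 + κ i) * bnd h m⌋₊ : ℝ) ≤ (1 + κ i) * bnd h m :=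
          Nat.floor_le (mul_nonneg (by have := hκ i; linarith) hb0)
        have e4 : ((⌊(1 + κ i) * bnd h m⌋₊ : ℕ) : ℝ) ≤ (((⌊κ i⌋₊ + 2) * bnd h m : ℕ) : ℝ) := by
          push_cast
          nlinarith
        have e5 : ⌊(1 + κ i) * bnd h m⌋₊ ≤ (⌊κ i⌋₊ + 2) * bnd h m := by exact_mod_cast e4
        have e6 : (⌊κ i⌋₊ + 3) * bnd h m = (⌊κ i⌋₊ + 2) * bnd h m + bnd h m := by ring
        omega
      have hcard : {w : List α | u <+: w ∧ w ∈ E i ∧ (w.length : ℝ) ≤ (1 + κ i) * bnd h m}.ncard ≤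
          bnd h m * D i := by
        refine (Set.ncard_le_ncard hU hUfin).trans ?_
        have e1 : ∀ s : Finset ℕ, (⋃ l ∈ s, {w : List α | w.length = l ∧ u <+: w ∧ w ∈ E i ∧
            (l : ℝ) ≤ (1 + κ i) * bnd h m}).ncard ≤
            ∑ l ∈ s, {w : List α | w.length = l ∧ u <+: w ∧ w ∈ E i ∧ (l : ℝ) ≤ (1 + κ i) * bnd h m}.ncard := by
          intro s
          induction s using Finset.induction_on with
          | empty => simp
          | insert a s ha ih =>
            rw [Finset.sum_insert ha, Finset.set_biUnion_insert]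
            refine (Set.ncard_union_le _ _).trans ?_
            gcongr
        refine (e1 _).trans ?_
        have e2 : ∀ l ∈ Finset.range L,
            {w : List α | w.length = l ∧ u <+: w ∧ w ∈ E i ∧ (l : ℝ) ≤ (1 + κ i) * bnd h m}.ncard ≤ C i := by
          intro l _
          by_cases hl : (l : ℝ) ≤ (1 + κ i) * bnd h m
          · refine le_trans ?_ (hC i u l (by rw [hu]; exact hl))
            exact Set.ncard_le_ncard (fun w hw => ⟨hw.1, hw.2.1, hw.2.2.1⟩) (hfinl l)
          · have : {w : List α | w.length = l ∧ u <+: w ∧ w ∈ E i ∧ (l : ℝ) ≤ (1 + κ i) * bnd h m} = ∅ := by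
              rw [Set.eq_empty_iff_forall_notMem]
              rintro w ⟨-, -, -, h6⟩
              exact hl h6
            rw [this, Set.ncard_empty]
            exact Nat.zero_le _
        refine (Finset.sum_le_card_nsmul _ _ _ e2).trans ?_
        rw [Finset.card_range, smul_eq_mul]
        calc L * C i ≤ ((⌊κ i⌋₊ + 3) * bnd h m) * C i := Nat.mul_le_mul_right _ hLle
          _ = bnd h m * D i := by simp only [D]; ring
      have h3 := tsum_ind_le (fun w : List α => u <+: w ∧ w ∈ E i ∧ (w.length : ℝ) ≤ (1 + κ i) * bnd h m)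
        (hUfin.subset hU) _ hcard
      calc (c i : ℝ≥0∞) * _ ≤ (c i : ℝ≥0∞) * ((bnd h m * D i : ℕ) : ℝ≥0∞) := by gcongr
        _ = bnd h m * ((c i : ℝ≥0∞) * (D i : ℝ≥0∞)) := by
          push_cast
          ring
        _ ≤ bnd h m * ε i := by
          gcongr
          exact hcD i
    refine (ENNReal.tsum_le_tsum e2).trans ?_
    rw [ENNReal.tsum_mul_left]
    calc (bnd h m : ℝ≥0∞) * ∑' p, (ε p : ℝ≥0∞) ≤ bnd h m * 1 := by
          gcongr
      _ = bnd h m := mul_one _
  have hcard1 : (1 : ℝ) < Fintype.card α := by exact_mod_cast Fintype.one_lt_card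
  have hlq : 0 < log (Fintype.card α : ℝ) := log_pos hcard1
  -- moves in a window
  have hwin : ∀ (i : ι) (m t n : ℕ) (x : ℕ → α), bnd h m ≤ t → t ≤ bnd h (m + 1) → t ≤ n →
      (n : ℝ) ≤ (1 + κ i) * bnd h m → play x n ∈ E i →
      ((moves σ x t : ℝ) - moves σ x (bnd h m)) * log (Fintype.card α) ≤ log n + |log (c i)| := by
    intro i m t n x h2 h3 h4 h5 h6
    have e1 := one_window (f m) σ x (bnd h m) t h2 (by
      intro r hr1 hr2
      simp only [σ, play_length]
      rw [win_eq h hr1 (by omega)])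
    have e2 := hstart m (play x (bnd h m)) (play_length x _)
    have e3 : (c i : ℝ≥0∞) ≤ wt (f m) (play x t) := by
      unfold wt
      refine le_trans ?_ (ENNReal.le_tsum (play x n))
      rw [if_pos (play_take x h4)]
      refine le_trans ?_ (ENNReal.le_tsum i)
      rw [if_pos ⟨h6, by rw [play_length]; exact h5⟩, mul_one]
    have e4 : (Fintype.card α : ℝ≥0∞) ^ (moves σ x t - moves σ x (bnd h m)) * (c i : ℝ≥0∞) ≤ bnd h m := by
      refine le_trans ?_ (e1.trans e2)
      gcongr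
    have e5 : (Fintype.card α : ℝ) ^ (moves σ x t - moves σ x (bnd h m)) * (c i : ℝ) ≤ bnd h m := by
      have := ENNReal.toReal_mono (by simp) e4
      rw [ENNReal.toReal_mul, ENNReal.toReal_pow, ENNReal.toReal_natCast, ENNReal.coe_toReal] at this
      simpa using this
    have hcp : (0 : ℝ) < c i := by exact_mod_cast hc i
    have hb1 : (1 : ℝ) ≤ bnd h m := by exact_mod_cast (by have := bnd_gt h m; omega : 1 ≤ bnd h m)
    have e6 := log_le_log (by positivity) e5
    rw [log_mul (by positivity) hcp.ne', log_pow, Nat.cast_sub (moves_mono σ x h2)] at e6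
    have e7 : log (bnd h m : ℝ) ≤ log n := log_le_log (by linarith) (by exact_mod_cast h2.trans h4)
    have e8 := neg_abs_le (log ((c i : NNReal) : ℝ))
    linarith
  refine ⟨σ, fun i δ hδ hδ1 => ?_⟩
  set c' : ℝ := |log ((c i : NNReal) : ℝ)| with hc'
  have hc'0 : 0 ≤ c' := abs_nonneg _
  have hκi := hκ i
  have hδ0 : 0 < δ := by
    by_contra hcon
    push Not at hcon
    have : δ * (1 + κ i) ≤ 0 := mul_nonpos_of_nonpos_of_nonneg hcon (by linarith)
    linarith
  set η : ℝ := δ * (1 + κ i) - 1 with hη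
  have hη0 : 0 < η := by linarith
  -- thresholds
  obtain ⟨S, hS⟩ := (Filter.tendsto_atTop.1 hlim ⌈2 / η⌉₊).exists_forall_of_atTop
  obtain ⟨n₀, hn₀⟩ : ∃ n₀ : ℕ, 3 ≤ n₀ ∧ (2 * (S : ℝ) + 4) / δ ≤ n₀ ∧ 4 * (1 + κ i) / η ≤ n₀ := by
    refine ⟨3 + ⌈(2 * (S : ℝ) + 4) / δ⌉₊ + ⌈4 * (1 + κ i) / η⌉₊, by omega, ?_, ?_⟩
    · push_cast
      have := Nat.le_ceil ((2 * (S : ℝ) + 4) / δ)
      have h0 : (0 : ℝ) ≤ ⌈4 * (1 + κ i) / η⌉₊ := Nat.cast_nonneg _
      linarith
    · push_cast
      have := Nat.le_ceil (4 * (1 + κ i) / η)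
      have h0 : (0 : ℝ) ≤ ⌈(2 * (S : ℝ) + 4) / δ⌉₊ := Nat.cast_nonneg _
      linarith
  refine ⟨(2 * κ i + 1) * (1 + c') / log (Fintype.card α), n₀, fun x n hn hxE => ?_⟩
  obtain ⟨hn3, hnS, hnη⟩ := hn₀
  have hnr : (n₀ : ℝ) ≤ n := by exact_mod_cast hn
  have hn3' : (3 : ℝ) ≤ n := by
    have : (3 : ℝ) ≤ n₀ := by exact_mod_cast hn3
    linarith
  set a := ⌊δ * n⌋₊ with ha
  have hδn : 2 * (S : ℝ) + 4 ≤ δ * n := by
    rw [div_le_iff₀ hδ0] at hnS
    nlinarith
  have haf : δ * n - 1 < a := by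
    have := Nat.lt_floor_add_one (δ * n)
    linarith
  have hS0 : (0 : ℝ) ≤ S := Nat.cast_nonneg _
  have ha1 : 1 ≤ a := by
    apply Nat.le_floor
    push_cast
    linarith
  have han : a ≤ n := by
    have : (a : ℝ) ≤ n := (Nat.floor_le (by positivity)).trans (by nlinarith)
    exact_mod_cast this
  set m1 := win h a with hm1
  set m2 := win h n with hm2
  have hb1 := bnd_win_le h ha1
  have hb2 := lt_bnd_win h a
  have hb3 := bnd_win_le h (show 1 ≤ n by omega)
  have hb4 := lt_bnd_win h n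
  rw [← hm1] at hb1 hb2
  rw [← hm2] at hb3 hb4
  have h12 : m1 ≤ m2 := by
    have : m1 < m2 + 1 := (bnd_mono h).lt_iff_lt.mp (by omega)
    omega
  -- the beginning of the first window
  have hsucc : (bnd h (m1 + 1) : ℝ) ≤ bnd h m1 * (1 + 1 / (h (bnd h m1) : ℝ)) + 1 := by
    rw [bnd]
    push_cast
    have : ((bnd h m1 / h (bnd h m1) : ℕ) : ℝ) ≤ (bnd h m1 : ℝ) / h (bnd h m1) := Nat.cast_div_le
    have e : (bnd h m1 : ℝ) * (1 + 1 / (h (bnd h m1) : ℝ)) = bnd h m1 + (bnd h m1 : ℝ) / h (bnd h m1) := by ring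
    linarith
  have hb2' : (a : ℝ) + 1 ≤ bnd h (m1 + 1) := by exact_mod_cast hb2
  have hbS : S ≤ bnd h m1 := by
    have e1 : (1 : ℝ) / (h (bnd h m1) : ℝ) ≤ 1 := by
      rw [div_le_one (by exact_mod_cast h1 _)]
      exact_mod_cast h1 _
    have hb0 : (0 : ℝ) ≤ bnd h m1 := Nat.cast_nonneg _
    have e2 : (bnd h (m1 + 1) : ℝ) ≤ 2 * bnd h m1 + 1 := by nlinarith
    have e3 : (S : ℝ) ≤ bnd h m1 := by linarith
    exact_mod_cast e3
  have hhS : 2 / η ≤ h (bnd h m1) := (Nat.le_ceil _).trans (by exact_mod_cast hS _ hbS)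
  have hnb : (n : ℝ) ≤ (1 + κ i) * bnd h m1 := by
    have hb0 : (0 : ℝ) ≤ bnd h m1 := Nat.cast_nonneg _
    have e1 : (1 : ℝ) / (h (bnd h m1) : ℝ) ≤ η / 2 := by
      rw [div_le_div_iff₀ (by exact_mod_cast h1 _) (by norm_num)]
      rw [div_le_iff₀ hη0] at hhS
      linarith
    have e2 : (bnd h (m1 + 1) : ℝ) ≤ bnd h m1 * (1 + η / 2) + 1 := by nlinarith
    have e3 : δ * n ≤ bnd h m1 * (1 + η / 2) + 1 := by linarith
    -- `(1 + η) n = δ (1 + κ) n ≤ (1 + κ) b (1 + η / 2) + (1 + κ)`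
    have e4 : (1 + η) * n ≤ (1 + κ i) * bnd h m1 * (1 + η / 2) + (1 + κ i) := by
      have : (1 + η) * n = (δ * n) * (1 + κ i) := by rw [hη]; ring
      rw [this]
      calc (δ * n) * (1 + κ i) ≤ (bnd h m1 * (1 + η / 2) + 1) * (1 + κ i) :=
            mul_le_mul_of_nonneg_right e3 (by linarith)
        _ = _ := by ring
    have e5 : 4 * (1 + κ i) ≤ η * n := by
      rw [div_le_iff₀ hη0] at hnη
      nlinarith
    -- `(1 + κ) ≤ η n / 4`
    by_contra hcon
    push Not at hcon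
    have e6 : (1 + κ i) * bnd h m1 * (1 + η / 2) ≤ n * (1 + η / 2) :=
      mul_le_mul_of_nonneg_right hcon.le (by linarith)
    nlinarith
  -- sum over the windows
  have hsum : ∀ d : ℕ, m1 + d ≤ m2 →
      ((moves σ x (bnd h (m1 + d)) : ℝ) - moves σ x (bnd h m1)) * log (Fintype.card α) ≤ d * (log n + c') := by
    intro d
    induction d with
    | zero => intro _; simp
    | succ d ih =>
      intro hd
      have e1 := ih (by omega)
      have e2 : bnd h (m1 + (d + 1)) ≤ n := ((bnd_mono h).monotone hd).trans hb3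
      have e3 : bnd h (m1 + d) ≤ bnd h (m1 + d + 1) := (bnd_lt_succ h _).le
      have e4 : (n : ℝ) ≤ (1 + κ i) * bnd h (m1 + d) := by
        refine hnb.trans (mul_le_mul_of_nonneg_left ?_ (by linarith))
        exact_mod_cast (bnd_mono h).monotone (Nat.le_add_right m1 d)
      have e5 := hwin i (m1 + d) (bnd h (m1 + d + 1)) n x e3 le_rfl e2 e4 hxE
      rw [← Nat.add_assoc]
      push_cast
      linarith
  have hlast := hwin i m2 n n x hb3 (by omega) le_rfl (by
    refine hnb.trans (mul_le_mul_of_nonneg_left ?_ (by linarith))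
    exact_mod_cast (bnd_mono h).monotone h12) hxE
  have hmid := hsum (m2 - m1) (by omega)
  rw [Nat.add_sub_cancel' h12] at hmid
  -- the number of windows
  have hhn1 : (1 : ℝ) ≤ h n := by exact_mod_cast h1 n
  have hnum : ((m2 - m1 : ℕ) : ℝ) ≤ 2 * κ i * h n := by
    have e1 := bnd_growth h hm h1 n m1 (m2 - m1) (by rw [Nat.add_sub_cancel' h12]; exact hb3)
    rw [Nat.add_sub_cancel' h12] at e1
    have hb0 : (1 : ℝ) ≤ bnd h m1 := by exact_mod_cast (by have := bnd_gt h m1; omega : 1 ≤ bnd h m1)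
    have e2 : (bnd h m1 : ℝ) * (1 + 1 / (h n : ℝ)) ^ (m2 - m1) ≤ bnd h m1 * (1 + κ i) := by
      refine e1.trans ?_
      have : (bnd h m2 : ℝ) ≤ n := by exact_mod_cast hb3
      linarith
    have e3 : (1 + 1 / (h n : ℝ)) ^ (m2 - m1) ≤ 1 + κ i := le_of_mul_le_mul_left e2 (by linarith)
    have e4 := log_le_log (by positivity) e3
    rw [log_pow] at e4
    have e5 : log (1 + κ i) ≤ κ i := by
      have := log_le_sub_one_of_pos (show 0 < 1 + κ i by linarith)
      linarith
    have e6 : 1 / (2 * (h n : ℝ)) ≤ log (1 + 1 / (h n : ℝ)) := by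
      have e7 := one_sub_inv_le_log_of_pos (show 0 < 1 + 1 / (h n : ℝ) by positivity)
      refine le_trans ?_ e7
      have e8 : 1 - (1 + 1 / (h n : ℝ))⁻¹ = 1 / (h n + 1) := by
        field_simp
        ring
      rw [e8]
      apply one_div_le_one_div_of_le (by linarith)
      linarith
    have e9 : ((m2 - m1 : ℕ) : ℝ) * (1 / (2 * (h n : ℝ))) ≤ κ i :=
      (mul_le_mul_of_nonneg_left e6 (Nat.cast_nonneg _)).trans (e4.trans e5)
    rw [mul_one_div, div_le_iff₀ (by linarith)] at e9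
    linarith
  have hlogn : 1 ≤ log (n : ℝ) := by
    rw [le_log_iff_exp_le (by linarith)]
    have := exp_one_lt_d9
    linarith
  have hma : (moves σ x (bnd h m1) : ℝ) ≤ moves σ x a := by exact_mod_cast moves_mono σ x hb1
  have htot : ((moves σ x n : ℝ) - moves σ x a) * log (Fintype.card α) ≤
      (((m2 - m1 : ℕ) : ℝ) + 1) * (log n + c') := by
    have : ((moves σ x n : ℝ) - moves σ x a) * log (Fintype.card α) ≤
        ((moves σ x n : ℝ) - moves σ x (bnd h m1)) * log (Fintype.card α) :=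
      mul_le_mul_of_nonneg_right (by linarith) hlq.le
    linarith
  have hfin : (((m2 - m1 : ℕ) : ℝ) + 1) * (log n + c') ≤ (2 * κ i + 1) * (1 + c') * h n * log n := by
    have e1 : ((m2 - m1 : ℕ) : ℝ) + 1 ≤ (2 * κ i + 1) * h n := by nlinarith
    have e2 : log n + c' ≤ (1 + c') * log n := by nlinarith
    calc (((m2 - m1 : ℕ) : ℝ) + 1) * (log n + c') ≤ ((2 * κ i + 1) * h n) * ((1 + c') * log n) := by
          apply mul_le_mul e1 e2 (by linarith) (by positivity)
      _ = _ := by ring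
  have h9 := htot.trans hfin
  rw [← le_div_iff₀ hlq] at h9
  refine h9.trans (le_of_eq ?_)
  ring

/-- **The game in fine windows**, for digits. -/
theorem fine_game {ι : Type*} [Countable ι] {b : ℕ} (hb : 2 ≤ b)
    (h : ℕ → ℕ) (hm : Monotone h) (h1 : ∀ n, 1 ≤ h n) (hlim : Tendsto h atTop atTop)
    (E : ι → Set (List ℕ)) (κ : ι → ℝ) (hκ : ∀ i, 0 < κ i)
    (hE : ∀ i, ∃ C : ℕ, ∀ (u : List ℕ) (l : ℕ), (∀ d ∈ u, d < b) → (l : ℝ) ≤ (1 + κ i) * u.length →
      {w : List ℕ | w.length = l ∧ (∀ d ∈ w, d < b) ∧ u <+: w ∧ w ∈ E i}.ncard ≤ C) :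
    ∃ σ : List ℕ → ℕ, (∀ u, σ u < b) ∧ ∀ i, ∀ δ : ℝ, 1 < δ * (1 + κ i) → δ ≤ 1 → ∃ K : ℝ, ∃ n₀ : ℕ,
      ∀ (x : ℕ → ℕ), (∀ i, x i < b) → ∀ n : ℕ, n₀ ≤ n →
        K * h n * log n < (moves σ x n : ℝ) - moves σ x ⌊δ * n⌋₊ → play x n ∉ E i := by
  classical
  haveI : Nontrivial (Fin b) := Fin.nontrivial_iff_two_le.mpr hb
  haveI : NeZero b := ⟨by omega⟩
  let toF : ℕ → Fin b := fun d => Fin.ofNat b d
  obtain ⟨σ, hσ⟩ := fine_core (α := Fin b) (ι := ι) h hm h1 hlim (fun i => {w | w.map Fin.val ∈ E i}) κ hκ (by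
    intro i
    obtain ⟨C, hC⟩ := hE i
    refine ⟨C, fun u l hl => ?_⟩
    have hinj : Function.Injective (List.map (Fin.val : Fin b → ℕ)) :=
      List.map_injective_iff.mpr Fin.val_injective
    rw [← Set.ncard_image_of_injective _ hinj]
    have hsub : (List.map (Fin.val : Fin b → ℕ)) '' {w : List (Fin b) | w.length = l ∧ u <+: w ∧
        w ∈ {w : List (Fin b) | w.map Fin.val ∈ E i}} ⊆
        {w : List ℕ | w.length = l ∧ (∀ d ∈ w, d < b) ∧ u.map Fin.val <+: w ∧ w ∈ E i} := by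
      rintro _ ⟨w, ⟨h1, h2, h3⟩, rfl⟩
      refine ⟨by simpa using h1, ?_, h2.map _, h3⟩
      intro d hd
      rw [List.mem_map] at hd
      obtain ⟨e, -, rfl⟩ := hd
      exact e.isLt
    refine (Set.ncard_le_ncard hsub ((words_finite b l).subset fun w hw => ⟨hw.1, hw.2.1⟩)).trans ?_
    apply hC (u.map Fin.val) l
    · intro d hd
      rw [List.mem_map] at hd
      obtain ⟨e, -, rfl⟩ := hd
      exact e.isLt
    · simpa using hl)
  let σ' : List ℕ → ℕ := fun u => (σ (u.map toF)).val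
  refine ⟨σ', fun u => (σ (u.map toF)).isLt, fun i δ hδ hδ1 => ?_⟩
  obtain ⟨K, n₀, hK⟩ := hσ i δ hδ hδ1
  refine ⟨K, n₀, fun x hx n hn hmov hE => ?_⟩
  have hpl : ∀ t, play (fun i => toF (x i)) t = (play x t).map toF := by
    intro t
    unfold play
    rw [List.map_map]
    rfl
  have hmv : ∀ t, moves σ' x t = moves σ (fun i => toF (x i)) t := by
    intro t
    unfold moves
    congr 1
    apply Finset.filter_congr
    intro i _
    rw [hpl]
    constructor
    · intro h1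
      show toF (x i) = _
      rw [h1]
      apply Fin.ext
      show (Fin.ofNat b (σ ((play x i).map toF)).val).val = _
      rw [Fin.val_ofNat]
      exact Nat.mod_eq_of_lt (σ ((play x i).map toF)).isLt
    · intro h1
      show x i = (σ ((play x i).map toF)).val
      rw [← h1]
      show x i = (Fin.ofNat b (x i)).val
      rw [Fin.val_ofNat]
      exact (Nat.mod_eq_of_lt (hx i)).symm
  have hmap : ((play x n).map toF).map Fin.val = play x n := by
    rw [List.map_map]
    unfold play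
    rw [List.map_map]
    apply List.map_congr_left
    intro k _
    show (Fin.ofNat b (x k)).val = x k
    rw [Fin.val_ofNat]
    exact Nat.mod_eq_of_lt (hx k)
  have h1 := hK (fun i => toF (x i)) n hn (by
    show (play (fun i => toF (x i)) n).map Fin.val ∈ E i
    rw [hpl, hmap]
    exact hE)
  rw [← hmv, ← hmv] at h1
  linarith

end Pool.Agent.H48.GM
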