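import Mathlib
import Pool.Agent.H48.GM.Universal

set_option autoImplicit false

/-!
# The digit game for sets of integers with at most `C N ^ ρ` members up to `N`
-/

namespace Pool.Agent.H48.GM

open Real

/-- counting from dyadic windows -/
theorem count_dyadic (E : Set ℕ) (C ρ : ℝ) (hρ : 0 < ρ)
    (h : ∀ j : ℕ, ({m : ℕ | m ∈ E ∧ 2 ^ j ≤ m ∧ m < 2 ^ (j + 1)}.ncard : ℝ) ≤ C * ((2 : ℝ) ^ j) ^ ρ) (n : ℕ) :
    {m : ℕ | m ∈ E ∧ log ((m : ℝ) + 1) ≤ n}.Finite ∧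
      ({m : ℕ | m ∈ E ∧ log ((m : ℝ) + 1) ≤ n}.ncard : ℝ) ≤
        (1 + C / (1 - (2 : ℝ) ^ (-ρ))) * exp (ρ * n) := by
  classical
  have hC : 0 ≤ C := by
    have h1 := h 0
    have h0 : (0 : ℝ) ≤ ({m : ℕ | m ∈ E ∧ 2 ^ 0 ≤ m ∧ m < 2 ^ (0 + 1)}.ncard : ℝ) := Nat.cast_nonneg _
    simp only [pow_zero, one_rpow, mul_one] at h1
    simp only [pow_zero] at h0
    linarith
  have hle : ∀ m : ℕ, log ((m : ℝ) + 1) ≤ n → (m : ℝ) + 1 ≤ exp n := by
    intro m hm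
    have hm0 : (0 : ℝ) < (m : ℝ) + 1 := by positivity
    rwa [log_le_iff_le_exp hm0] at hm
  have hfin : {m : ℕ | m ∈ E ∧ log ((m : ℝ) + 1) ≤ n}.Finite := by
    apply (Set.finite_Iic ⌊exp n⌋₊).subset
    rintro m ⟨-, hm⟩
    exact Nat.le_floor (by linarith [hle m hm])
  refine ⟨hfin, ?_⟩
  set J : ℕ := ⌊(n : ℝ) / log 2⌋₊ with hJ
  have hl2 : 0 < log 2 := log_pos (by norm_num)
  have hJn : (J : ℝ) * log 2 ≤ n := by
    have := Nat.floor_le (show 0 ≤ (n : ℝ) / log 2 by positivity)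
    rw [← hJ, le_div_iff₀ hl2] at this
    exact this
  let W : ℕ → Set ℕ := fun j => {m : ℕ | m ∈ E ∧ 2 ^ j ≤ m ∧ m < 2 ^ (j + 1)}
  have hWfin : ∀ j, (W j).Finite := fun j => (Set.finite_Iio (2 ^ (j + 1))).subset fun m hm => hm.2.2
  have hsub : {m : ℕ | m ∈ E ∧ log ((m : ℝ) + 1) ≤ n} ⊆ {0} ∪ ⋃ j ∈ Finset.range (J + 1), W j := by
    rintro m ⟨hmE, hm⟩
    rcases Nat.eq_zero_or_pos m with h0 | h0
    · left; exact h0
    · right
      rw [Set.mem_iUnion₂]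
      refine ⟨Nat.log 2 m, ?_, hmE, Nat.pow_log_le_self 2 (by omega), Nat.lt_pow_succ_log_self (by norm_num) m⟩
      rw [Finset.mem_range, Nat.lt_succ_iff]
      apply Nat.le_floor
      rw [le_div_iff₀ hl2]
      have h1 : ((2 : ℝ) ^ (Nat.log 2 m)) ≤ exp n := by
        have e1 : ((2 ^ (Nat.log 2 m) : ℕ) : ℝ) ≤ m := by exact_mod_cast Nat.pow_log_le_self 2 (by omega)
        push_cast at e1
        linarith [hle m hm]
      have h2 := log_le_log (by positivity) h1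
      rwa [log_pow, log_exp] at h2
  have hUfin : (({0} : Set ℕ) ∪ ⋃ j ∈ Finset.range (J + 1), W j).Finite :=
    (Set.finite_singleton 0).union (Set.Finite.biUnion (Finset.finite_toSet _) fun j _ => hWfin j)
  have h1 : (⋃ j ∈ Finset.range (J + 1), W j).ncard ≤ ∑ j ∈ Finset.range (J + 1), (W j).ncard := by
    clear hsub hUfin
    generalize J + 1 = m
    induction m with
    | zero => simp
    | succ J ih =>
      rw [Finset.sum_range_succ, Finset.range_add_one, Finset.set_biUnion_insert, Set.union_comm]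
      refine (Set.ncard_union_le _ _).trans ?_
      gcongr
  have h2 : ({m : ℕ | m ∈ E ∧ log ((m : ℝ) + 1) ≤ n}.ncard : ℝ) ≤
      1 + ∑ j ∈ Finset.range (J + 1), C * ((2 : ℝ) ^ j) ^ ρ := by
    have e1 : {m : ℕ | m ∈ E ∧ log ((m : ℝ) + 1) ≤ n}.ncard ≤ 1 + ∑ j ∈ Finset.range (J + 1), (W j).ncard := by
      refine (Set.ncard_le_ncard hsub hUfin).trans ((Set.ncard_union_le _ _).trans ?_)
      rw [Set.ncard_singleton]
      omega
    have e2 : ({m : ℕ | m ∈ E ∧ log ((m : ℝ) + 1) ≤ n}.ncard : ℝ) ≤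
        1 + ∑ j ∈ Finset.range (J + 1), ((W j).ncard : ℝ) := by exact_mod_cast e1
    refine e2.trans ?_
    gcongr with j _
    exact h j
  refine h2.trans ?_
  have hq : (2 : ℝ) ^ (-ρ) < 1 := rpow_lt_one_of_one_lt_of_neg (by norm_num) (by linarith)
  have hq0 : (0 : ℝ) < (2 : ℝ) ^ (-ρ) := by positivity
  have hgeo : ∀ J : ℕ, ∑ j ∈ Finset.range (J + 1), C * ((2 : ℝ) ^ j) ^ ρ ≤
      C / (1 - (2 : ℝ) ^ (-ρ)) * ((2 : ℝ) ^ J) ^ ρ := by
    intro J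
    induction J with
    | zero =>
      simp only [zero_add, Finset.range_one, Finset.sum_singleton, pow_zero, one_rpow, mul_one]
      rw [le_div_iff₀ (by linarith)]
      nlinarith
    | succ J ih =>
      rw [Finset.sum_range_succ]
      refine (add_le_add_left ih _).trans ?_
      have e1 : ((2 : ℝ) ^ J) ^ ρ = (2 : ℝ) ^ (-ρ) * ((2 : ℝ) ^ (J + 1)) ^ ρ := by
        rw [← rpow_natCast, ← rpow_natCast, ← rpow_mul (by norm_num), ← rpow_mul (by norm_num),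
          ← rpow_add (by norm_num)]
        congr 1
        push_cast
        ring
      rw [e1]
      have e2 : (0 : ℝ) < 1 - (2 : ℝ) ^ (-ρ) := by linarith
      have e3 : C / (1 - (2 : ℝ) ^ (-ρ)) * ((2 : ℝ) ^ (-ρ) * ((2 : ℝ) ^ (J + 1)) ^ ρ) +
          C * ((2 : ℝ) ^ (J + 1)) ^ ρ = C / (1 - (2 : ℝ) ^ (-ρ)) * ((2 : ℝ) ^ (J + 1)) ^ ρ := by
        field_simp
        ring
      exact e3.le
  have h3 : ((2 : ℝ) ^ J) ^ ρ ≤ exp (ρ * n) := by
    rw [rpow_def_of_pos (by positivity), log_pow]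
    apply exp_le_exp.mpr
    nlinarith
  have h4 : (1 : ℝ) ≤ exp (ρ * n) := one_le_exp (by positivity)
  have h5 : 0 ≤ C / (1 - (2 : ℝ) ^ (-ρ)) := div_nonneg hC (by linarith)
  calc 1 + ∑ j ∈ Finset.range (J + 1), C * ((2 : ℝ) ^ j) ^ ρ
      ≤ 1 + C / (1 - (2 : ℝ) ^ (-ρ)) * ((2 : ℝ) ^ J) ^ ρ := by gcongr; exact hgeo J
    _ ≤ exp (ρ * n) + C / (1 - (2 : ℝ) ^ (-ρ)) * exp (ρ * n) := by gcongr
    _ = _ := by ring

/-- **The digit game for sets with at most `C N ^ ρ` members up to `N`.** -/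
theorem pow_game {ι : Type*} [Countable ι] {b : ℕ} (hb : 2 ≤ b) (E : ι → Set ℕ) (ρ : ι → ℝ)
    (hρ : ∀ i, 0 < ρ i)
    (h : ∀ i, ∃ C : ℝ, ∀ j : ℕ, ({m : ℕ | m ∈ E i ∧ 2 ^ j ≤ m ∧ m < 2 ^ (j + 1)}.ncard : ℝ) ≤
      C * ((2 : ℝ) ^ j) ^ (ρ i)) :
    ∃ σ : List ℕ → ℕ, (∀ u, σ u < b) ∧ ∀ i, ∀ κ : ℝ, ρ i < κ → ∃ C : ℝ,
      ∀ (x : ℕ → ℕ) (n D : ℕ), κ * D + C < moves σ x n →
      ∀ m : ℕ, (Nat.digits b m).length ≤ D → play x n <+: (Nat.digits b m).reverse → m ∉ E i := by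
  obtain ⟨σ, hσb, hσ⟩ := digit_game hb E (fun m => log ((m : ℝ) + 1))
    (fun m => log_nonneg (by have : (0 : ℝ) ≤ m := Nat.cast_nonneg _; linarith)) ρ (fun i => (hρ i).le)
    (fun i => by
      obtain ⟨C, hC⟩ := h i
      exact ⟨_, count_dyadic (E i) C (ρ i) (hρ i) hC⟩)
  have hb' : (1 : ℝ) < b := by exact_mod_cast hb
  have hlb : 0 < log (b : ℝ) := log_pos hb'
  refine ⟨σ, hσb, fun i κ hκ => ?_⟩
  obtain ⟨C', hC'⟩ := hσ i (κ - ρ i) (by linarith)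
  refine ⟨C' / log b, fun x n D hmov m hm hpre hmE => ?_⟩
  have h1 := hC' x n m hmE hpre
  rw [show ρ i + (κ - ρ i) = κ by ring] at h1
  have h2 : log ((m : ℝ) + 1) ≤ D * log b := by
    have e1 : m + 1 ≤ b ^ D := (Nat.lt_base_pow_length_digits (by omega)).trans_le
      (Nat.pow_le_pow_right (by omega) hm)
    have e2 : (m : ℝ) + 1 ≤ (b : ℝ) ^ D := by exact_mod_cast e1
    have e3 := log_le_log (by positivity) e2
    rwa [log_pow] at e3
  have h3 := mul_lt_mul_of_pos_right hmov hlb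
  have h4 : (κ * D + C' / log b) * log b = κ * (D * log b) + C' := by
    field_simp
  rw [h4] at h3
  have hκ0 : 0 < κ := (hρ i).trans hκ
  have h5 : κ * log ((m : ℝ) + 1) ≤ κ * (D * log b) := by gcongr
  linarith

end Pool.Agent.H48.GM
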