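import Mathlib
import Pool.Agent.H48.GM.PowGame

set_option autoImplicit false

/-!
# The digit game of the height: exceptional sets with at most `C N ^ ε` members of size at most `N`
-/

namespace Pool.Agent.H48.GM

open Real

/-- **The game of the height.** `Exc i B N` are sets of objects (of size at most `N`) with at most `C N ^ ε` members if
`B ≥ B(ε)`, and they do not change much with `N`. One rule: a player who makes more than `κ D + C` of the moves,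
`κ > 0` as small as we want, makes sure that no object of size `m` is exceptional, where `m` is the number of at most `D`
digits written down. -/
theorem height_game {ι : Type*} [Countable ι] {X : ι → Type*} (size : ∀ i, X i → ℕ)
    (Exc : ∀ i, ℝ → ℝ → Set (X i))
    (h : ∀ i (ε : ℝ), 0 < ε → ∃ B C T₀ : ℝ, ∀ N : ℝ, T₀ ≤ N →
      (Exc i B N).Finite ∧ ((Exc i B N).ncard : ℝ) ≤ C * N ^ ε)
    (hmono : ∀ i (B B' n N : ℝ) (x : X i), B ≤ B' → 0 ≤ B' → 1 ≤ n → n ≤ N → N ≤ n ^ 2 →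
      x ∈ Exc i (2 * B') n → x ∈ Exc i B N) {b : ℕ} (hb : 2 ≤ b) :
    ∃ σ : List ℕ → ℕ, (∀ u, σ u < b) ∧ ∀ i (κ : ℝ), 0 < κ → ∃ B C : ℝ,
      ∀ (x : ℕ → ℕ) (n D : ℕ), κ * D + C < moves σ x n →
      ∀ m : ℕ, (Nat.digits b m).length ≤ D → play x n <+: (Nat.digits b m).reverse →
        ∀ s : X i, size i s = m → s ∉ Exc i B m := by
  classical
  have hpos : ∀ k : ℕ, (0 : ℝ) < 1 / ((k : ℝ) + 1) := fun k => by positivity
  have h' : ∀ p : ι × ℕ, ∃ B C T₀ : ℝ, ∀ N : ℝ, T₀ ≤ N →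
      (Exc p.1 B N).Finite ∧ ((Exc p.1 B N).ncard : ℝ) ≤ C * N ^ (1 / ((p.2 : ℝ) + 1)) :=
    fun p => h p.1 _ (hpos p.2)
  choose B C T₀ hBC using h'
  let E : ι × ℕ → Set ℕ := fun p =>
    {m | m < 2 ∨ (m : ℝ) < T₀ p ∨ ∃ s : X p.1, size p.1 s = m ∧ s ∈ Exc p.1 (2 * max (B p) 0) m}
  obtain ⟨σ, hσb, hσ⟩ := pow_game hb E (fun p => 1 / ((p.2 : ℝ) + 1)) (fun p => hpos p.2) (by
    intro p
    refine ⟨2 + |T₀ p| + 1 + |C p| * 2, fun j => ?_⟩
    have hε : (0 : ℝ) ≤ 1 / ((p.2 : ℝ) + 1) := (hpos p.2).le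
    have hε1 : 1 / ((p.2 : ℝ) + 1) ≤ 1 := by
      rw [div_le_one (by positivity)]
      have : (0 : ℝ) ≤ p.2 := Nat.cast_nonneg _
      linarith
    set N : ℝ := (2 : ℝ) ^ (j + 1) with hN
    have h2j : (1 : ℝ) ≤ (2 : ℝ) ^ j := one_le_pow₀ (by norm_num)
    have hpow1 : (1 : ℝ) ≤ ((2 : ℝ) ^ j) ^ (1 / ((p.2 : ℝ) + 1)) := one_le_rpow h2j hε
    -- the exceptional sizes
    have hsub : {m : ℕ | m ∈ E p ∧ 2 ^ j ≤ m ∧ m < 2 ^ (j + 1)} ⊆
        ({m : ℕ | m < 2} ∪ {m : ℕ | (m : ℝ) < T₀ p}) ∪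
          {m : ℕ | T₀ p ≤ N ∧ ∃ s : X p.1, size p.1 s = m ∧ s ∈ Exc p.1 (B p) N} := by
      rintro m ⟨h1, h2, h3⟩
      by_cases hm2 : m < 2
      · exact Or.inl (Or.inl hm2)
      by_cases hmT : (m : ℝ) < T₀ p
      · exact Or.inl (Or.inr hmT)
      rcases h1 with h1 | h1 | ⟨s, h4, h5⟩
      · exact absurd h1 hm2
      · exact absurd h1 hmT
      · right
        have h3' : (m : ℝ) ≤ N := by
          rw [hN]
          exact_mod_cast h3.le
        refine ⟨(not_lt.1 hmT).trans h3', s, h4, ?_⟩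
        refine hmono p.1 (B p) (max (B p) 0) m N s (le_max_left _ _) (le_max_right _ _) ?_ h3' ?_ h5
        · exact_mod_cast (by omega : 1 ≤ m)
        · have h6 : 2 * m ≤ m ^ 2 := by nlinarith
          have h7 : 2 ^ (j + 1) ≤ 2 * m := by rw [pow_succ]; omega
          rw [hN]
          exact_mod_cast h7.trans h6
    have hf1 : {m : ℕ | m < 2}.Finite := Set.finite_lt_nat 2
    have hf2 : {m : ℕ | (m : ℝ) < T₀ p}.Finite := by
      refine (Set.finite_lt_nat ⌈T₀ p⌉₊).subset fun m hm => ?_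
      exact Nat.lt_ceil.2 hm
    have hc1 : ({m : ℕ | m < 2}.ncard : ℝ) ≤ 2 := by
      have : {m : ℕ | m < 2}.ncard = 2 := by
        have h1 : {m : ℕ | m < 2} = ((Finset.range 2 : Finset ℕ) : Set ℕ) := by ext m; simp
        rw [h1, Set.ncard_coe_finset, Finset.card_range]
      rw [this]
      norm_num
    have hc2 : ({m : ℕ | (m : ℝ) < T₀ p}.ncard : ℝ) ≤ |T₀ p| + 1 := by
      have h1 : {m : ℕ | (m : ℝ) < T₀ p} ⊆ ((Finset.range ⌈T₀ p⌉₊ : Finset ℕ) : Set ℕ) := by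
        intro m hm
        rw [Finset.coe_range]
        exact Nat.lt_ceil.2 hm
      have h2 := Set.ncard_le_ncard h1 (Finset.finite_toSet _)
      rw [Set.ncard_coe_finset, Finset.card_range] at h2
      have h3 : (⌈T₀ p⌉₊ : ℝ) ≤ |T₀ p| + 1 := by
        rcases le_or_gt (T₀ p) 0 with h4 | h4
        · rw [Nat.ceil_eq_zero.2 h4]
          have := abs_nonneg (T₀ p)
          push_cast
          linarith
        · have := Nat.ceil_lt_add_one h4.le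
          have := le_abs_self (T₀ p)
          linarith
      have h4 : ({m : ℕ | (m : ℝ) < T₀ p}.ncard : ℝ) ≤ (⌈T₀ p⌉₊ : ℝ) := by exact_mod_cast h2
      linarith
    have hc3 : {m : ℕ | T₀ p ≤ N ∧ ∃ s : X p.1, size p.1 s = m ∧ s ∈ Exc p.1 (B p) N}.Finite ∧
        ({m : ℕ | T₀ p ≤ N ∧ ∃ s : X p.1, size p.1 s = m ∧ s ∈ Exc p.1 (B p) N}.ncard : ℝ) ≤
        |C p| * 2 * ((2 : ℝ) ^ j) ^ (1 / ((p.2 : ℝ) + 1)) := by
      by_cases hT : T₀ p ≤ N
      · obtain ⟨h1, h2⟩ := hBC p N hT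
        have h3 : {m : ℕ | T₀ p ≤ N ∧ ∃ s : X p.1, size p.1 s = m ∧ s ∈ Exc p.1 (B p) N} ⊆
            size p.1 '' Exc p.1 (B p) N := by
          rintro m ⟨-, s, h4, h5⟩
          exact ⟨s, h5, h4⟩
        refine ⟨(h1.image _).subset h3, ?_⟩
        have h4 := (Set.ncard_le_ncard h3 (h1.image _)).trans (Set.ncard_image_le h1)
        have h5 : N ^ (1 / ((p.2 : ℝ) + 1)) ≤ 2 * ((2 : ℝ) ^ j) ^ (1 / ((p.2 : ℝ) + 1)) := by
          rw [hN, pow_succ, mul_comm ((2 : ℝ) ^ j) 2, mul_rpow (by norm_num) (by positivity)]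
          gcongr
          calc (2 : ℝ) ^ (1 / ((p.2 : ℝ) + 1)) ≤ (2 : ℝ) ^ (1 : ℝ) :=
                rpow_le_rpow_of_exponent_le (by norm_num) hε1
            _ = 2 := rpow_one 2
        calc ({m : ℕ | T₀ p ≤ N ∧ ∃ s : X p.1, size p.1 s = m ∧ s ∈ Exc p.1 (B p) N}.ncard : ℝ)
            ≤ ((Exc p.1 (B p) N).ncard : ℝ) := by exact_mod_cast h4
          _ ≤ C p * N ^ (1 / ((p.2 : ℝ) + 1)) := h2
          _ ≤ |C p| * N ^ (1 / ((p.2 : ℝ) + 1)) := by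
            gcongr
            exact le_abs_self _
          _ ≤ |C p| * (2 * ((2 : ℝ) ^ j) ^ (1 / ((p.2 : ℝ) + 1))) := by gcongr
          _ = _ := by ring
      · have h1 : {m : ℕ | T₀ p ≤ N ∧ ∃ s : X p.1, size p.1 s = m ∧ s ∈ Exc p.1 (B p) N} = ∅ := by
          ext m
          simp only [Set.mem_ofPred_eq, Set.mem_empty_iff_false, iff_false, not_and]
          exact fun h => absurd h hT
        rw [h1]
        refine ⟨Set.finite_empty, ?_⟩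
        rw [Set.ncard_empty]
        push_cast
        positivity
    have hfin := (hf1.union hf2).union hc3.1
    have h1 := Set.ncard_le_ncard hsub hfin
    have h2 := Set.ncard_union_le ({m : ℕ | m < 2} ∪ {m : ℕ | (m : ℝ) < T₀ p})
      {m : ℕ | T₀ p ≤ N ∧ ∃ s : X p.1, size p.1 s = m ∧ s ∈ Exc p.1 (B p) N}
    have h3 := Set.ncard_union_le {m : ℕ | m < 2} {m : ℕ | (m : ℝ) < T₀ p}
    have h4 : ({m : ℕ | m ∈ E p ∧ 2 ^ j ≤ m ∧ m < 2 ^ (j + 1)}.ncard : ℝ) ≤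
        ({m : ℕ | m < 2}.ncard : ℝ) + ({m : ℕ | (m : ℝ) < T₀ p}.ncard : ℝ) +
          ({m : ℕ | T₀ p ≤ N ∧ ∃ s : X p.1, size p.1 s = m ∧ s ∈ Exc p.1 (B p) N}.ncard : ℝ) := by
      exact_mod_cast h1.trans (h2.trans (Nat.add_le_add_right h3 _))
    have h5 := hc3.2
    have h6 : (0 : ℝ) ≤ 2 + |T₀ p| + 1 := by positivity
    calc ({m : ℕ | m ∈ E p ∧ 2 ^ j ≤ m ∧ m < 2 ^ (j + 1)}.ncard : ℝ)
        ≤ (2 + |T₀ p| + 1) * 1 + |C p| * 2 * ((2 : ℝ) ^ j) ^ (1 / ((p.2 : ℝ) + 1)) := by linarith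
      _ ≤ (2 + |T₀ p| + 1) * ((2 : ℝ) ^ j) ^ (1 / ((p.2 : ℝ) + 1)) +
          |C p| * 2 * ((2 : ℝ) ^ j) ^ (1 / ((p.2 : ℝ) + 1)) := by gcongr
      _ = _ := by ring)
  refine ⟨σ, hσb, fun i κ hκ => ?_⟩
  obtain ⟨k, hk⟩ := exists_nat_one_div_lt hκ
  obtain ⟨C', hC'⟩ := hσ (i, k) κ hk
  refine ⟨2 * max (B (i, k)) 0, C', fun x n D hmov m hm hpre s hs hE => ?_⟩
  exact hC' x n D hmov m hm hpre (Or.inr (Or.inr ⟨s, hs, hE⟩))

end Pool.Agent.H48.GM
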