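import Mathlib
import Pool.Agent.H48.GM.Trunc
import Pool.Agent.H48.GM.Universal

set_option autoImplicit false

/-!
# One rule for countably many sets of words, counted by their lengths

If `E i` has at most `B i n` words of length `n`, one rule is followed at most `log B + (1 + ε) log n + C` times (in units of
`log |α|`) by the words of `E i` of length `n`.
-/

namespace Pool.Agent.H48.GM

open scoped ENNReal
open Real

/-- sums over words, by length -/
theorem tsum_length_le {α : Type*} (F : List α → ℝ≥0∞) (a : ℕ → ℝ≥0∞)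
    (h : ∀ n, ∑' w : {w : List α // w.length = n}, F w.1 ≤ a n) : ∑' w, F w ≤ ∑' n, a n := by
  have h1 : ∑' w, F w = ∑' n : ℕ, ∑' w : {w : List α // w.length = n}, F w.1 := by
    rw [← (Equiv.sigmaFiberEquiv (fun w : List α => w.length)).tsum_eq]
    exact ENNReal.tsum_sigma' (fun p : (Σ n, {w : List α // w.length = n}) => F p.2.1)
  rw [h1]
  exact ENNReal.tsum_le_tsum h

/-- **One rule for countably many sets of words.** -/
theorem length_game {α ι : Type*} [DecidableEq α] [Fintype α] [Nontrivial α] [Countable ι]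
    (E : ι → Set (List α)) (B : ι → ℕ → ℝ) (hB : ∀ i n, 0 < B i n)
    (h : ∀ i n, 1 ≤ n → ({w : List α | w.length = n ∧ w ∈ E i}.ncard : ℝ) ≤ B i n) :
    ∃ σ : List α → α, ∀ i, ∀ ε : ℝ, 0 < ε → ∃ C : ℝ, ∀ w ∈ E i, 1 ≤ w.length →
      (obeys σ w : ℝ) * log (Fintype.card α) ≤ log (B i w.length) + (1 + ε) * log w.length + C := by
  classical
  let v : ι × ℕ → ℕ → ℝ := fun p n => (B p.1 n)⁻¹ * ((n : ℝ) ^ (1 + 1 / ((p.2 : ℝ) + 1)))⁻¹
  let g : ι × ℕ → List α → ℝ≥0∞ := fun p w => if w ∈ E p.1 ∧ 1 ≤ w.length then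
    ENNReal.ofReal (v p w.length) else 0
  have hg : ∀ p, ∑' w, g p w ≠ ⊤ := by
    rintro ⟨i, j⟩
    have hs : Summable fun n : ℕ => ((n : ℝ) ^ (1 + 1 / ((j : ℝ) + 1)))⁻¹ := by
      rw [Real.summable_nat_rpow_inv]
      have : (0 : ℝ) < 1 / ((j : ℝ) + 1) := by positivity
      linarith
    refine ne_top_of_le_ne_top ?_ (tsum_length_le (g (i, j))
      (fun n => ENNReal.ofReal (((n : ℝ) ^ (1 + 1 / ((j : ℝ) + 1)))⁻¹)) ?_)
    · rw [← ENNReal.ofReal_tsum_of_nonneg (fun n => by positivity) hs]
      exact ENNReal.ofReal_ne_top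
    · intro n
      by_cases hn : 1 ≤ n
      swap
      · have h0 : ∀ w : {w : List α // w.length = n}, g (i, j) w.1 = 0 := by
          rintro ⟨w, hw⟩
          simp only [g]
          rw [if_neg]
          rintro ⟨-, h1⟩
          omega
        rw [ENNReal.tsum_eq_zero.mpr h0]
        exact bot_le
      have hfin : {w : List α | w.length = n}.Finite := List.finite_length_eq α n
      haveI : Fintype {w : List α // w.length = n} := hfin.fintype
      rw [tsum_fintype]
      have e1 : ∀ w : {w : List α // w.length = n}, g (i, j) w.1 =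
          if w.1 ∈ E i then ENNReal.ofReal (v (i, j) n) else 0 := by
        rintro ⟨w, hw⟩
        simp only [g]
        by_cases hwE : w ∈ E i
        · rw [if_pos ⟨hwE, by omega⟩, if_pos hwE, hw]
        · rw [if_neg (fun hc => hwE hc.1), if_neg hwE]
      rw [Finset.sum_congr rfl fun w _ => e1 w, ← Finset.sum_filter, Finset.sum_const, nsmul_eq_mul]
      have e2 : ((Finset.univ.filter fun w : {w : List α // w.length = n} => w.1 ∈ E i).card : ℝ) ≤ B i n := by
        refine le_trans ?_ (h i n hn)
        rw [Nat.cast_le, ← Finset.card_image_of_injective _ Subtype.val_injective, ← Set.ncard_coe_finset]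
        apply Set.ncard_le_ncard _ (hfin.subset fun w hw => hw.1)
        intro w hw
        rw [Finset.mem_coe, Finset.mem_image] at hw
        obtain ⟨⟨u, hu⟩, h1, rfl⟩ := hw
        rw [Finset.mem_filter] at h1
        exact ⟨hu, h1.2⟩
      have hBn := hB i n
      have hv0 : 0 ≤ v (i, j) n := by
        simp only [v]
        positivity
      rw [← ENNReal.ofReal_natCast, ← ENNReal.ofReal_mul (Nat.cast_nonneg _)]
      apply ENNReal.ofReal_le_ofReal
      calc ((Finset.univ.filter fun w : {w : List α // w.length = n} => w.1 ∈ E i).card : ℝ) * v (i, j) n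
          ≤ B i n * v (i, j) n := mul_le_mul_of_nonneg_right e2 hv0
        _ = ((n : ℝ) ^ (1 + 1 / ((j : ℝ) + 1)))⁻¹ := by
          simp only [v]
          rw [← mul_assoc, mul_inv_cancel₀ hBn.ne', one_mul]
  obtain ⟨σ, hσ⟩ := universal_weights (fun w : List α => w) g hg
  refine ⟨σ, fun i ε hε => ?_⟩
  obtain ⟨j, hj⟩ := exists_nat_one_div_lt hε
  obtain ⟨c, hc, hce⟩ := hσ (i, j)
  refine ⟨log (c.toReal + 1), fun w hw hw1 => ?_⟩
  have h1 := hce w
  have h2 : g (i, j) w = ENNReal.ofReal (v (i, j) w.length) := by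
    simp only [g]
    rw [if_pos ⟨hw, hw1⟩]
  rw [h2] at h1
  have hBn := hB i w.length
  have hwl : (1 : ℝ) ≤ w.length := by exact_mod_cast hw1
  have hv : 0 < v (i, j) w.length := by
    simp only [v]
    positivity
  have h3 := ENNReal.toReal_mono hc h1
  rw [ENNReal.toReal_mul, ENNReal.toReal_pow, ENNReal.toReal_natCast, ENNReal.toReal_ofReal hv.le] at h3
  have hcard : (1 : ℝ) < Fintype.card α := by exact_mod_cast Fintype.one_lt_card
  have hc0 : 0 ≤ c.toReal := ENNReal.toReal_nonneg
  have h4 : (Fintype.card α : ℝ) ^ obeys σ w * v (i, j) w.length ≤ c.toReal + 1 := by linarith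
  have h5 := log_le_log (by positivity) h4
  have h6 : log (v (i, j) w.length) = -log (B i w.length) - (1 + 1 / ((j : ℝ) + 1)) * log w.length := by
    simp only [v]
    rw [log_mul (by positivity) (by positivity), log_inv, log_inv, log_rpow (by linarith)]
    ring
  rw [log_mul (by positivity) hv.ne', log_pow, h6] at h5
  have h7 : (1 + 1 / ((j : ℝ) + 1)) * log w.length ≤ (1 + ε) * log w.length := by
    apply mul_le_mul_of_nonneg_right _ (log_nonneg hwl)
    linarith
  linarith

/-- **One rule for countably many sets of words in digits.** -/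
theorem length_digits {ι : Type*} [Countable ι] {b : ℕ} (hb : 2 ≤ b) (E : ι → Set (List ℕ)) (B : ι → ℕ → ℝ)
    (hB : ∀ i n, 0 < B i n)
    (h : ∀ i n, 1 ≤ n → ({w : List ℕ | w.length = n ∧ (∀ d ∈ w, d < b) ∧ w ∈ E i}.ncard : ℝ) ≤ B i n) :
    ∃ σ : List ℕ → ℕ, (∀ u, σ u < b) ∧ ∀ i, ∀ ε : ℝ, 0 < ε → ∃ C : ℝ,
      ∀ (x : ℕ → ℕ), (∀ i, x i < b) → ∀ n : ℕ, 1 ≤ n →
        log (B i n) + (1 + ε) * log n + C < moves σ x n * log b → play x n ∉ E i := by
  classical
  haveI : Nontrivial (Fin b) := Fin.nontrivial_iff_two_le.mpr hb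
  haveI : NeZero b := ⟨by omega⟩
  let toF : ℕ → Fin b := fun d => Fin.ofNat b d
  obtain ⟨σ, hσ⟩ := length_game (α := Fin b) (ι := ι) (fun i => {w | w.map Fin.val ∈ E i}) B hB (by
    intro i n hn
    refine le_trans ?_ (h i n hn)
    have hinj : Function.Injective (List.map (Fin.val : Fin b → ℕ)) :=
      List.map_injective_iff.mpr Fin.val_injective
    rw [Nat.cast_le, ← Set.ncard_image_of_injective _ hinj]
    apply Set.ncard_le_ncard _ ((words_finite b n).subset fun w hw => ⟨hw.1, hw.2.1⟩)
    rintro _ ⟨w, ⟨h1, h3⟩, rfl⟩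
    refine ⟨by simpa using h1, ?_, h3⟩
    intro d hd
    rw [List.mem_map] at hd
    obtain ⟨e, -, rfl⟩ := hd
    exact e.isLt)
  let σ' : List ℕ → ℕ := fun u => (σ (u.map toF)).val
  refine ⟨σ', fun u => (σ (u.map toF)).isLt, fun i ε hε => ?_⟩
  obtain ⟨C, hC⟩ := hσ i ε hε
  refine ⟨C, fun x hx n hn hmov hE => ?_⟩
  have hpl : ∀ t, play (fun i => toF (x i)) t = (play x t).map toF := by
    intro t
    unfold play
    rw [List.map_map]
    rfl
  have hmv : moves σ' x n = moves σ (fun i => toF (x i)) n := by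
    unfold moves
    congr 1
    apply Finset.filter_congr
    intro i _
    rw [hpl]
    constructor
    · intro h1
      show toF (x i) = _
      rw [h1]
      apply Fin.ext
      show (Fin.ofNat b (σ ((play x i).map toF)).val).val = _
      rw [Fin.val_ofNat]
      exact Nat.mod_eq_of_lt (σ ((play x i).map toF)).isLt
    · intro h1
      show x i = (σ ((play x i).map toF)).val
      rw [← h1]
      show x i = (Fin.ofNat b (x i)).val
      rw [Fin.val_ofNat]
      exact (Nat.mod_eq_of_lt (hx i)).symm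
  have hmap : ((play x n).map toF).map Fin.val = play x n := by
    rw [List.map_map]
    unfold play
    rw [List.map_map]
    apply List.map_congr_left
    intro k _
    show (Fin.ofNat b (x k)).val = x k
    rw [Fin.val_ofNat]
    exact Nat.mod_eq_of_lt (hx k)
  have h1 := hC (play (fun i => toF (x i)) n) (by
    show (play (fun i => toF (x i)) n).map Fin.val ∈ E i
    rw [hpl, hmap]
    exact hE) (by rw [play_length]; exact hn)
  rw [← moves_eq, ← hmv, play_length, Fintype.card_fin] at h1
  linarith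

end Pool.Agent.H48.GM
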