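import Mathlib

set_option autoImplicit false

/-!
# The binary tree of the ordered Markov triples
-/

namespace Pool.Agent.H48.GM.Markov

/-- `(a, b, m)` is an ordered Markov triple with largest entry `m` -/
def Triple (t : ℕ × ℕ × ℕ) : Prop :=
  1 ≤ t.1 ∧ t.1 ≤ t.2.1 ∧ t.2.1 ≤ t.2.2 ∧
    t.1 ^ 2 + t.2.1 ^ 2 + t.2.2 ^ 2 = 3 * t.1 * t.2.1 * t.2.2

/-- the two triples below the ordered triple `(a, b, m)` -/
def child (d : Bool) (t : ℕ × ℕ × ℕ) : ℕ × ℕ × ℕ :=
  if d then (t.1, t.2.2, 3 * t.1 * t.2.2 - t.2.1) else (t.2.1, t.2.2, 3 * t.2.1 * t.2.2 - t.1)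

/-- the triple reached from `(1, 2, 5)` by a finite sequence of steps -/
def node (w : List Bool) : ℕ × ℕ × ℕ := w.foldl (fun t d => child d t) (1, 2, 5)

theorem node_nil : node [] = (1, 2, 5) := rfl

theorem node_snoc (w : List Bool) (d : Bool) : node (w ++ [d]) = child d (node w) := by
  simp [node, List.foldl_append]

/-- strict ordered triples -/
def Strict (t : ℕ × ℕ × ℕ) : Prop :=
  1 ≤ t.1 ∧ t.1 < t.2.1 ∧ t.2.1 < t.2.2 ∧
    t.1 ^ 2 + t.2.1 ^ 2 + t.2.2 ^ 2 = 3 * t.1 * t.2.1 * t.2.2

theorem Strict.triple {t : ℕ × ℕ × ℕ} (h : Strict t) : Triple t :=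
  ⟨h.1, h.2.1.le, h.2.2.1.le, h.2.2.2⟩

theorem child_strict {t : ℕ × ℕ × ℕ} (h : Strict t) (d : Bool) :
    Strict (child d t) ∧ t.2.2 < (child d t).2.2 ∧ (child d t).2.1 = t.2.2 := by
  obtain ⟨a, b, m⟩ := t
  obtain ⟨h1, h2, h3, h4⟩ := h
  simp only at h1 h2 h3 h4
  cases d
  · simp only [child, Bool.false_eq_true, if_false, Strict]
    have e1 : a ≤ 3 * b * m := by nlinarith
    obtain ⟨c, hc⟩ := Nat.exists_eq_add_of_le e1
    rw [hc, Nat.add_sub_cancel_left]
    have hcm : m < c := by nlinarith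
    refine ⟨⟨by omega, h3, hcm, ?_⟩, hcm, trivial⟩
    have : (b : ℤ) ^ 2 + m ^ 2 + c ^ 2 = 3 * b * m * c := by
      have hc' : (3 : ℤ) * b * m = a + c := by exact_mod_cast hc
      have h4' : (a : ℤ) ^ 2 + b ^ 2 + m ^ 2 = 3 * a * b * m := by exact_mod_cast h4
      linear_combination h4' + (a - c) * hc'
    rw [← hc]
    exact_mod_cast this
  · simp only [child, if_true, Strict]
    have e1 : b ≤ 3 * a * m := by nlinarith
    obtain ⟨c, hc⟩ := Nat.exists_eq_add_of_le e1
    rw [hc, Nat.add_sub_cancel_left]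
    have hcm : m < c := by nlinarith
    refine ⟨⟨by omega, by omega, hcm, ?_⟩, hcm, trivial⟩
    have : (a : ℤ) ^ 2 + m ^ 2 + c ^ 2 = 3 * a * m * c := by
      have hc' : (3 : ℤ) * a * m = b + c := by exact_mod_cast hc
      have h4' : (a : ℤ) ^ 2 + b ^ 2 + m ^ 2 = 3 * a * b * m := by exact_mod_cast h4
      linear_combination h4' + (b - c) * hc'
    rw [← hc]
    exact_mod_cast this

theorem node_strict (w : List Bool) : Strict (node w) := by
  induction w using List.reverseRecOn with
  | nil => rw [node_nil]; exact ⟨by norm_num, by norm_num, by norm_num, by norm_num⟩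
  | append_singleton w d ih => rw [node_snoc]; exact (child_strict ih d).1

theorem node_five (w : List Bool) : 5 ≤ (node w).2.2 := by
  induction w using List.reverseRecOn with
  | nil => rw [node_nil]
  | append_singleton w d ih =>
    rw [node_snoc]
    exact ih.trans (child_strict (node_strict w) d).2.1.le

theorem child_inj {t t' : ℕ × ℕ × ℕ} (h : Strict t) (h' : Strict t') {d d' : Bool}
    (e : child d t = child d' t') : d = d' ∧ t = t' := by
  obtain ⟨a, b, m⟩ := t
  obtain ⟨a', b', m'⟩ := t'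
  obtain ⟨h1, h2, h3, h4⟩ := h
  obtain ⟨h1', h2', h3', h4'⟩ := h'
  simp only at h1 h2 h3 h4 h1' h2' h3' h4'
  cases d <;> cases d' <;>
    simp only [child, Bool.false_eq_true, if_false, if_true, Prod.mk.injEq] at e <;>
    obtain ⟨e1, e2, e3⟩ := e <;> subst e1 <;> subst e2
  · have k1 : a ≤ 3 * b * m := by nlinarith
    have k2 : a' ≤ 3 * b * m := by nlinarith
    refine ⟨rfl, ?_⟩
    have : a = a' := by omega
    rw [this]
  · exfalso
    have k1 : a ≤ 3 * b * m := by nlinarith
    have k2 : b' ≤ 3 * b * m := by nlinarith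
    have : a = b' := by omega
    omega
  · exfalso
    have k1 : b ≤ 3 * a * m := by nlinarith
    have k2 : a' ≤ 3 * a * m := by nlinarith
    have : b = a' := by omega
    omega
  · have k1 : b ≤ 3 * a * m := by nlinarith
    have k2 : b' ≤ 3 * a * m := by nlinarith
    refine ⟨rfl, ?_⟩
    have : b = b' := by omega
    rw [this]

theorem node_inj : Function.Injective node := by
  intro w
  induction w using List.reverseRecOn with
  | nil =>
    intro w' h
    rcases List.eq_nil_or_concat w' with rfl | ⟨u, d, rfl⟩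
    · rfl
    · exfalso
      rw [List.concat_eq_append] at h
      rw [node_snoc, node_nil] at h
      have h1 := (child_strict (node_strict u) d).2.1
      have h2 := node_five u
      rw [← h] at h1
      simp only at h1
      omega
  | append_singleton w d ih =>
    intro w' h
    rcases List.eq_nil_or_concat w' with rfl | ⟨u, d', rfl⟩
    · exfalso
      rw [node_snoc, node_nil] at h
      have h1 := (child_strict (node_strict w) d).2.1
      have h2 := node_five w
      rw [h] at h1
      simp only at h1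
      omega
    · rw [List.concat_eq_append] at h ⊢
      rw [node_snoc, node_snoc] at h
      obtain ⟨e1, e2⟩ := child_inj (node_strict w) (node_strict u) h
      rw [e1, ih e2]

theorem strict_of_triple {t : ℕ × ℕ × ℕ} (h : Triple t) (h5 : 5 ≤ t.2.2) : Strict t := by
  obtain ⟨a, b, m⟩ := t
  obtain ⟨h1, h2, h3, h4⟩ := h
  simp only at h1 h2 h3 h4 h5
  refine ⟨h1, ?_, ?_, h4⟩
  · simp only
    by_contra hab
    have hab' : a = b := le_antisymm h2 (not_lt.mp hab)
    subst hab'
    -- 2 a² + m² = 3 a² m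
    have e1 : a ^ 2 * (3 * m - 2) = m ^ 2 := by
      have : a ^ 2 * (3 * m) = m ^ 2 + a ^ 2 * 2 := by nlinarith
      rw [Nat.mul_sub, this]
      omega
    have e2 : a ∣ m := by
      have : a ^ 2 ∣ m ^ 2 := ⟨_, e1.symm⟩
      exact (Nat.pow_dvd_pow_iff (by norm_num)).mp this
    obtain ⟨k, rfl⟩ := e2
    have e3 : k ^ 2 + 2 = 3 * (k * a) := by
      have : a ^ 2 * (k ^ 2 + 2) = a ^ 2 * (3 * (k * a)) := by nlinarith
      exact Nat.eq_of_mul_eq_mul_left (by positivity) this
    have e4 : k ∣ 2 := by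
      have h5 : k ∣ k ^ 2 + 2 := by rw [e3]; exact ⟨3 * a, by ring⟩
      exact (Nat.dvd_add_right ⟨k, by ring⟩).mp h5
    have e5 : k ≤ 2 := Nat.le_of_dvd (by norm_num) e4
    interval_cases k
    · omega
    · omega
    · omega
  · simp only
    by_contra hbm
    have hbm' : b = m := le_antisymm h3 (not_lt.mp hbm)
    subst hbm'
    have e1 : a ^ 2 + 2 * b ^ 2 = 3 * a * b ^ 2 := by nlinarith
    have e2 : a ≤ b := h2
    by_cases ha : a = 1
    · subst ha
      nlinarith
    · have : 2 ≤ a := by omega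
      nlinarith [Nat.mul_le_mul_right (b ^ 2) this, Nat.mul_le_mul e2 e2]

theorem exists_parent {t : ℕ × ℕ × ℕ} (h : Strict t) (h5 : 5 ≤ t.2.1) :
    ∃ (t' : ℕ × ℕ × ℕ) (d : Bool), Triple t' ∧ t'.2.2 = t.2.1 ∧ t = child d t' := by
  obtain ⟨a, b, m⟩ := t
  obtain ⟨h1, h2, h3, h4⟩ := h
  simp only at h1 h2 h3 h4 h5 ⊢
  have e0 : m < 3 * a * b := by
    by_contra hh
    push Not at hh
    nlinarith
  obtain ⟨c, hc⟩ := Nat.exists_eq_add_of_le e0.le
  have hcpos : 0 < c := by omega
  have hcm : c * m = a ^ 2 + b ^ 2 := by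
    have hc' : (3 : ℤ) * a * b = m + c := by exact_mod_cast hc
    have h4' : (a : ℤ) ^ 2 + b ^ 2 + m ^ 2 = 3 * a * b * m := by exact_mod_cast h4
    have : (c : ℤ) * m = a ^ 2 + b ^ 2 := by linear_combination -h4' - m * hc'
    exact_mod_cast this
  have hcb : c < b := by
    by_contra hh
    push Not at hh
    nlinarith
  have hq : a ^ 2 + c ^ 2 + b ^ 2 = 3 * a * c * b := by
    have hc' : (3 : ℤ) * a * b = m + c := by exact_mod_cast hc
    have h' : (c : ℤ) * m = a ^ 2 + b ^ 2 := by exact_mod_cast hcm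
    have : (a : ℤ) ^ 2 + c ^ 2 + b ^ 2 = 3 * a * c * b := by linear_combination -h' - c * hc'
    exact_mod_cast this
  rcases le_total a c with hac | hac
  · refine ⟨(a, c, b), true, ⟨h1, hac, hcb.le, hq⟩, rfl, ?_⟩
    simp only [child, if_true, Prod.mk.injEq]
    refine ⟨trivial, trivial, ?_⟩
    omega
  · refine ⟨(c, a, b), false, ⟨hcpos, hac, h2.le, by nlinarith⟩, rfl, ?_⟩
    simp only [child, Bool.false_eq_true, if_false, Prod.mk.injEq]
    refine ⟨trivial, trivial, ?_⟩
    omega

theorem base {t : ℕ × ℕ × ℕ} (h : Strict t) (h5 : t.2.1 < 5) (h5' : 5 ≤ t.2.2) : t = (1, 2, 5) := by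
  obtain ⟨a, b, m⟩ := t
  obtain ⟨h1, h2, h3, h4⟩ := h
  simp only at h1 h2 h3 h4 h5 h5'
  have e0 : m < 3 * a * b := by
    by_contra hh
    push Not at hh
    nlinarith
  have e1 : m < 60 := by
    have : 3 * a * b ≤ 3 * 4 * 4 := by
      have h6 : a ≤ 4 := by omega
      have h7 : b ≤ 4 := by omega
      calc 3 * a * b ≤ 3 * 4 * b := by gcongr
        _ ≤ 3 * 4 * 4 := by gcongr
    omega
  have hb2 : 2 ≤ b := by omega
  interval_cases b
  · have : a = 1 := by omega
    subst this
    have : m = 5 := by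
      interval_cases m <;> first | rfl | (exfalso; norm_num at h4)
    subst this
    rfl
  · have ha : a = 1 ∨ a = 2 := by omega
    exfalso
    rcases ha with rfl | rfl <;> interval_cases m <;> norm_num at h4
  · have ha : a = 1 ∨ a = 2 ∨ a = 3 := by omega
    exfalso
    rcases ha with rfl | rfl | rfl <;> interval_cases m <;> norm_num at h4

theorem exists_word : ∀ (n : ℕ) (t : ℕ × ℕ × ℕ), t.2.2 ≤ n → Triple t → 5 ≤ t.2.2 → ∃ w, node w = t := by
  intro n
  induction n with
  | zero => intro t h0 _ h5; omega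
  | succ n ih =>
    intro t hn h h5
    have hs := strict_of_triple h h5
    by_cases hb : 5 ≤ t.2.1
    · obtain ⟨t', d, h1, h2, h3⟩ := exists_parent hs hb
      have hlt := hs.2.2.1
      obtain ⟨w, hw⟩ := ih t' (by omega) h1 (by omega)
      exact ⟨w ++ [d], by rw [node_snoc, hw, ← h3]⟩
    · exact ⟨[], by rw [node_nil, base hs (by omega) h5]⟩

/-- the size of the entries at depth `n` -/
theorem node_le (w : List Bool) : 3 * (node w).2.2 ≤ 15 ^ (2 ^ w.length) := by
  induction w using List.reverseRecOn with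
  | nil => rw [node_nil]; norm_num
  | append_singleton w d ih =>
    rw [node_snoc]
    have h := node_strict w
    have h1 : (child d (node w)).2.2 ≤ 3 * (node w).2.2 * (node w).2.2 := by
      obtain ⟨h1, h2, h3, -⟩ := h
      cases d
      · simp only [child, Bool.false_eq_true, if_false]
        refine (Nat.sub_le _ _).trans ?_
        gcongr
      · simp only [child, if_true]
        refine (Nat.sub_le _ _).trans ?_
        gcongr
        omega
    calc 3 * (child d (node w)).2.2 ≤ 3 * (3 * (node w).2.2 * (node w).2.2) := by gcongr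
      _ = (3 * (node w).2.2) * (3 * (node w).2.2) := by ring
      _ ≤ 15 ^ (2 ^ w.length) * 15 ^ (2 ^ w.length) := Nat.mul_le_mul ih ih
      _ = 15 ^ (2 ^ (w ++ [d]).length) := by
        rw [List.length_append, List.length_singleton, ← pow_add, pow_succ]
        congr 1
        ring

end Pool.Agent.H48.GM.Markov
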