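import Mathlib
import Pool.Agent.H48.GM.Avoid

set_option autoImplicit false

/-!
# The digit game of the numerators of several fractions with the same denominator
-/

namespace Pool.Agent.H48.GM

open Real

/-- **The game of the numerators.** A property `Bad q x` of `r`-tuples of fractions of denominators at most `q` holds for
at most `C ∑_j ∏_(i ≠ j) |Y_i|` tuples of `Y_1 × … × Y_r`, for sets `Y_j` in `[α, β]` of diameter at most `q ^ (-δ)`. The last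
`L` digits of the numerators of `r` fractions of denominator `q` are written down, `b ^ L ≤ q ^ (1 - δ)`. A player who makes
at least `(r - 1) L + m` of the `r L` moves avoids `Bad`. -/
theorem numerator_game {r : ℕ} {Ω : Type*} (α β δ : ℝ) (Bad : Ω → ℕ → (Fin r → ℚ) → Prop)
    (h : ∃ (C : ℝ) (q₀ : ℕ), ∀ (ω : Ω) (q : ℕ), q₀ ≤ q → ∀ Y : Fin r → Finset ℚ,
      (∀ j, ∀ x ∈ Y j, α ≤ (x : ℝ) ∧ (x : ℝ) ≤ β ∧ x.den ≤ q) →
      (∀ j, ∀ x ∈ Y j, ∀ y ∈ Y j, |(x : ℝ) - y| ≤ (q : ℝ) ^ (-δ)) →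
      ({x : Fin r → ℚ | (∀ j, x j ∈ Y j) ∧ Bad ω q x}.ncard : ℝ) ≤
        C * ∑ j, ∏ i ∈ Finset.univ.erase j, ((Y i).card : ℝ)) :
    ∃ m q₁ : ℕ, ∀ (ω : Ω) (q : ℕ), q₁ ≤ q → ∀ (b L : ℕ) (a : Fin r → ℕ), 2 ≤ b → (b : ℝ) ^ L ≤ (q : ℝ) ^ (1 - δ) →
      (∀ j, α * q ≤ a j ∧ (a j : ℝ) + (b : ℝ) ^ L ≤ β * q + 1) → ∀ τ : Fin (r * L) ≃ Fin r × Fin L,
      ∃ σ : List ℕ → ℕ, (∀ u, σ u < b) ∧ ∀ x : ℕ → ℕ, (∀ j, x j < b) →
        (r - 1) * L + m ≤ moves σ x (r * L) → ¬ Bad ω q (fun j => (coords b r L a τ x j : ℚ) / q) := by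
  classical
  obtain ⟨C, q₀, h⟩ := h
  obtain ⟨m, hm⟩ : ∃ m : ℕ, r * |C| < 2 ^ m := by
    obtain ⟨m, hm⟩ := exists_nat_gt (r * |C|)
    refine ⟨m, hm.trans ?_⟩
    exact_mod_cast Nat.lt_two_pow_self
  refine ⟨m, max q₀ 1, fun ω q hq b L a hb hL ha τ => ?_⟩
  have hq0 : 1 ≤ q := (le_max_right _ _).trans hq
  have hqr : (0 : ℝ) < q := by exact_mod_cast hq0
  have hqQ : (q : ℚ) ≠ 0 := by exact_mod_cast (by omega : q ≠ 0)
  have hb1 : 1 ≤ b ^ L := Nat.one_le_pow _ _ (by omega)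
  let Y : Fin r → Finset ℚ := fun j => (Finset.Ico (a j) (a j + b ^ L)).image fun t : ℕ => (t : ℚ) / q
  have hinj : Function.Injective fun t : ℕ => (t : ℚ) / q := by
    intro t t' htt
    have h1 : (t : ℚ) / q = t' / q := htt
    rw [div_left_inj' hqQ] at h1
    exact_mod_cast h1
  have hcard : ∀ j, (Y j).card = b ^ L := by
    intro j
    rw [Finset.card_image_of_injective _ hinj, Nat.card_Ico]
    omega
  have hmem : ∀ j, ∀ x ∈ Y j, ∃ t : ℕ, a j ≤ t ∧ t < a j + b ^ L ∧ x = (t : ℚ) / q := by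
    intro j x hx
    obtain ⟨t, ht, rfl⟩ := Finset.mem_image.1 hx
    rw [Finset.mem_Ico] at ht
    exact ⟨t, ht.1, ht.2, rfl⟩
  have hcount := h ω q ((le_max_left _ _).trans hq) Y (fun j x hx => by
      obtain ⟨t, h1, h2, rfl⟩ := hmem j x hx
      obtain ⟨h3, h4⟩ := ha j
      have h5 : (a j : ℝ) ≤ t := by exact_mod_cast h1
      have h6 : (t : ℝ) + 1 ≤ (a j : ℝ) + (b : ℝ) ^ L := by exact_mod_cast h2
      have e : (((t : ℚ) / q : ℚ) : ℝ) = (t : ℝ) / q := by push_cast; ring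
      rw [e]
      refine ⟨?_, ?_, ?_⟩
      · rw [le_div_iff₀ hqr]
        linarith
      · rw [div_le_iff₀ hqr]
        linarith
      · have h7 : ((t : ℚ) / q).den ∣ q := by
          have := Rat.den_dvd (t : ℤ) (q : ℤ)
          rw [Rat.divInt_eq_div] at this
          exact_mod_cast this
        exact Nat.le_of_dvd hq0 h7)
    (fun j x hx y hy => by
      obtain ⟨t, h1, h2, rfl⟩ := hmem j x hx
      obtain ⟨t', h1', h2', rfl⟩ := hmem j y hy
      have e : (((t : ℚ) / q : ℚ) : ℝ) - (((t' : ℚ) / q : ℚ) : ℝ) = ((t : ℝ) - t') / q := by push_cast; ring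
      rw [e, abs_div, abs_of_pos hqr, div_le_iff₀ hqr]
      have h3 : |(t : ℝ) - t'| ≤ (b : ℝ) ^ L := by
        rw [abs_le]
        have g1 : (a j : ℝ) ≤ t := by exact_mod_cast h1
        have g2 : (t : ℝ) ≤ (a j : ℝ) + (b : ℝ) ^ L := by exact_mod_cast h2.le
        have g3 : (a j : ℝ) ≤ t' := by exact_mod_cast h1'
        have g4 : (t' : ℝ) ≤ (a j : ℝ) + (b : ℝ) ^ L := by exact_mod_cast h2'.le
        constructor <;> linarith
      refine h3.trans (hL.trans (le_of_eq ?_))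
      rw [show (1 : ℝ) - δ = -δ + 1 by ring, rpow_add hqr, rpow_one])
  have hsum : ∑ j, ∏ i ∈ Finset.univ.erase j, ((Y i).card : ℝ) = r * ((b : ℝ) ^ L) ^ (r - 1) := by
    simp only [hcard]
    push_cast
    simp [Finset.prod_const, Finset.card_erase_of_mem]
  rw [hsum] at hcount
  -- the box of the numerators
  have hfinY : {x : Fin r → ℚ | (∀ j, x j ∈ Y j) ∧ Bad ω q x}.Finite := by
    refine (Finset.finite_toSet (Fintype.piFinset Y)).subset fun x hx => ?_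
    rw [Finset.mem_coe, Fintype.mem_piFinset]
    exact hx.1
  have hbox : {t : Fin r → ℕ | (∀ i, a i ≤ t i ∧ t i < a i + b ^ L) ∧ Bad ω q (fun j => (t j : ℚ) / q)}.ncard ≤
      {x : Fin r → ℚ | (∀ j, x j ∈ Y j) ∧ Bad ω q x}.ncard := by
    have hinj' : Function.Injective fun (t : Fin r → ℕ) (j : Fin r) => (t j : ℚ) / q := by
      intro t t' htt
      funext j
      exact hinj (congrFun htt j)
    rw [← Set.ncard_image_of_injective _ hinj']
    refine Set.ncard_le_ncard ?_ hfinY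
    rintro _ ⟨t, ⟨ht1, ht2⟩, rfl⟩
    refine ⟨fun j => ?_, ht2⟩
    exact Finset.mem_image.2 ⟨t j, Finset.mem_Ico.2 (ht1 j), rfl⟩
  have hlt : {t : Fin r → ℕ | (∀ i, a i ≤ t i ∧ t i < a i + b ^ L) ∧
      t ∈ {t : Fin r → ℕ | Bad ω q (fun j => (t j : ℚ) / q)}}.ncard < b ^ ((r - 1) * L + m) := by
    have h1 : (({t : Fin r → ℕ | (∀ i, a i ≤ t i ∧ t i < a i + b ^ L) ∧
        t ∈ {t : Fin r → ℕ | Bad ω q (fun j => (t j : ℚ) / q)}}.ncard : ℕ) : ℝ) ≤
        C * (r * ((b : ℝ) ^ L) ^ (r - 1)) := le_trans (by exact_mod_cast hbox) hcount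
    have h2 : (0 : ℝ) < ((b : ℝ) ^ L) ^ (r - 1) := by
      have : (0 : ℝ) < b := by exact_mod_cast (by omega : 0 < b)
      positivity
    have h3 : C * (r * ((b : ℝ) ^ L) ^ (r - 1)) < ((b : ℝ) ^ L) ^ (r - 1) * (b : ℝ) ^ m := by
      calc C * (r * ((b : ℝ) ^ L) ^ (r - 1)) ≤ |C| * (r * ((b : ℝ) ^ L) ^ (r - 1)) :=
            mul_le_mul_of_nonneg_right (le_abs_self C) (by positivity)
        _ = ((b : ℝ) ^ L) ^ (r - 1) * (r * |C|) := by ring
        _ < ((b : ℝ) ^ L) ^ (r - 1) * (b : ℝ) ^ m := by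
            refine mul_lt_mul_of_pos_left (hm.trans_le ?_) h2
            exact pow_le_pow_left₀ (by norm_num) (by exact_mod_cast hb) m
    have h4 : ((b : ℝ) ^ L) ^ (r - 1) * (b : ℝ) ^ m = ((b ^ ((r - 1) * L + m) : ℕ) : ℝ) := by
      push_cast
      rw [← pow_mul, ← pow_add, mul_comm L]
    rw [h4] at h3
    exact_mod_cast lt_of_le_of_lt h1 h3
  obtain ⟨σ, hσb, hσ⟩ := avoid_box hb r L ((r - 1) * L + m) a τ _ hlt
  exact ⟨σ, hσb, fun x hx hmov => hσ x hx hmov⟩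

end Pool.Agent.H48.GM
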