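import Pool.Graph.R_pool_sql_team_seeded_35f281b4.K7.H72.MT.M
import Pool.Agent.H48.GM.BitRule

set_option autoImplicit false

/-!
# One rule for the binary digits of `t` and the parity of the coefficients of `V / f_1 ^ t`
-/

namespace Pool.Agent.H48.GM.PR

open PowerSeries Finset Pool.Agent.K7.H72.MT
open BR (moves digit rule grow)

/-- the exponent of the first nonzero coefficient -/
noncomputable def ord (U : S) : ℕ := by
  classical
  exact if h : ∃ m, coeff m U ≠ 0 then Nat.find h else 0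

theorem ord_spec (U : S) : (∀ i < ord U, coeff i U = 0) ∧ ((∃ m, coeff m U ≠ 0) → coeff 0 (unsh (ord U) U) = 1) := by
  classical
  unfold ord
  by_cases h : ∃ m, coeff m U ≠ 0
  · rw [dif_pos h]
    refine ⟨fun i hi => ?_, fun _ => ?_⟩
    · have := Nat.find_min h hi
      push Not at this
      exact this
    · rw [unsh, coeff_mk, zero_add]
      exact eq_one_of_ne (Nat.find_spec h)
  · rw [dif_neg h]
    exact ⟨fun i hi => absurd hi (Nat.not_lt_zero i), fun h2 => absurd h2 h⟩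

/-- the total weight after `k` steps -/
noncomputable def WW (G U : S) (k t : ℕ) : ℕ := W (desc G k [(unsh (ord U) U, fun _ => 0, fun _ => True)] t)

theorem WW_mod (G U : S) (k t : ℕ) : WW G U k (t % 2 ^ k) = WW G U k t := by
  unfold WW
  rw [desc_mod]

theorem desc_succ' (G : S) (k : ℕ) : ∀ (L : List El) (t : ℕ),
    desc G (k + 1) L t = ch G (t / 2 ^ k % 2) (desc G k L t) := by
  induction k with
  | zero =>
    intro L t
    simp [desc]
  | succ k ih =>
    intro L t
    rw [desc, ih, desc, Nat.div_div_eq_div_mul, pow_succ']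

theorem N1_zero (G U : S) (X t : ℕ) :
    N1 G X (U, fun _ => 0, fun _ => True) t = #{n ∈ range X | coeff n (U * G ^ t) ≠ 0} := by
  unfold N1
  simp only [true_and]

theorem WW_zero {G U : S} (hG : IsP G) (hU : ¬ ∃ m, coeff m U ≠ 0) (k t : ℕ) : WW G U k t = 0 := by
  push Not at hU
  have h0 : U = 0 := by
    ext n
    rw [hU n, map_zero]
  have hL0 : ∀ x ∈ [((unsh (ord U) U, fun _ => 0, fun _ => True) : El)], x.2 = (fun _ => 0, fun _ => True) := by
    intro x hx
    rw [List.mem_singleton] at hx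
    rw [hx]
  have h1 := gd_desc_le hG k _ t hL0
  have h2 := W_le_gd (desc G k [((unsh (ord U) U, fun _ => 0, fun _ => True) : El)] t)
  rw [NN_single] at h1
  have h3 : N1 G (2 ^ k * 12) (unsh (ord U) U, fun _ => 0, fun _ => True) t = 0 := by
    rw [N1_zero]
    refine card_eq_zero.2 (filter_eq_empty_iff.2 ?_)
    intro n _
    have e : unsh (ord U) U = 0 := by
      ext m
      unfold unsh
      rw [coeff_mk, h0, map_zero, map_zero]
    simp only [e]
    rw [zero_mul, map_zero]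
    simp
  unfold WW
  omega

theorem WW_pos {G U : S} (hG : IsP G) (hU : ∃ m, coeff m U ≠ 0) (k t : ℕ) : 0 < WW G U k t := by
  unfold WW
  apply W_desc_pos hG
  have := Phi_pos ((ord_spec U).2 hU)
  simp only [W, List.map_cons, List.map_nil, List.sum_cons, List.sum_nil, add_zero]
  omega

theorem WW_step {G : S} (hG : IsP G) (U : S) (k s : ℕ) (hs : s < 2 ^ k) :
    (WW G U k s ≤ WW G U (k + 1) s ∧ WW G U k s ≤ WW G U (k + 1) (s + 2 ^ k)) ∧
      57 * (WW G U k s * WW G U k s) ≤ 20 * (WW G U (k + 1) s * WW G U (k + 1) (s + 2 ^ k)) := by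
  have hp : 0 < 2 ^ k := by positivity
  have e0 : s / 2 ^ k % 2 = 0 := by rw [Nat.div_eq_of_lt hs]
  have e1 : (s + 2 ^ k) / 2 ^ k % 2 = 1 := by rw [Nat.add_div_right _ hp, Nat.div_eq_of_lt hs]
  have e2 : desc G k [((unsh (ord U) U, fun _ => 0, fun _ => True) : El)] (s + 2 ^ k) =
      desc G k [((unsh (ord U) U, fun _ => 0, fun _ => True) : El)] s := by
    rw [← desc_mod G k _ (s + 2 ^ k), Nat.add_mod_right, desc_mod]
  have h := W_ch hG (desc G k [((unsh (ord U) U, fun _ => 0, fun _ => True) : El)] s)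
  unfold WW
  rw [desc_succ', desc_succ', e0, e1, e2]
  exact ⟨⟨h.1, h.2.1⟩, h.2.2⟩

/-- the numbers of the potential -/
noncomputable def uu (G : S) (θ : ℝ) (V : S) (b β k s : ℕ) : ℝ :=
  (WW G (node G b β s V) (k - b) (s / 2 ^ b) : ℝ) ^ (-θ)

theorem uu_nonneg (G : S) (θ : ℝ) (V : S) (b β k s : ℕ) : 0 ≤ uu G θ V b β k s := by
  unfold uu
  positivity

theorem uu_le_one {G : S} (hG : IsP G) {θ : ℝ} (hθ : 0 < θ) (V : S) (b β k s : ℕ) : uu G θ V b β k s ≤ 1 := by
  unfold uu
  by_cases h : ∃ m, coeff m (node G b β s V) ≠ 0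
  · have := WW_pos hG h (k - b) (s / 2 ^ b)
    exact Real.rpow_le_one_of_one_le_of_nonpos (by exact_mod_cast this) (by linarith)
  · rw [WW_zero hG h, Nat.cast_zero, Real.zero_rpow (by linarith)]
    norm_num

theorem uu_add {G : S} {θ : ℝ} (V : S) {b : ℕ} (β : ℕ) {k s : ℕ} (hb : b ≤ k) (e : ℕ) :
    uu G θ V b β (k + 1) (s + 2 ^ k * e) =
      (WW G (node G b β s V) (k - b + 1) (s / 2 ^ b + 2 ^ (k - b) * e) : ℝ) ^ (-θ) := by
  unfold uu
  have h1 : 2 ^ k = 2 ^ b * 2 ^ (k - b) := by rw [← pow_add]; congr 1; omega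
  have h2 : node G b β (s + 2 ^ k * e) V = node G b β s V := by
    rw [← node_mod G b β (s + 2 ^ k * e), h1, mul_assoc, Nat.add_mul_mod_self_left, node_mod]
  have h3 : (s + 2 ^ k * e) / 2 ^ b = s / 2 ^ b + 2 ^ (k - b) * e := by
    rw [h1, mul_assoc, Nat.add_mul_div_left _ _ (by positivity)]
  rw [h2, h3, show k + 1 - b = k - b + 1 by omega]

theorem div_lt {b k s : ℕ} (hb : b ≤ k) (hs : s < 2 ^ k) : s / 2 ^ b < 2 ^ (k - b) := by
  rw [Nat.div_lt_iff_lt_mul (by positivity), ← pow_add]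
  rwa [Nat.sub_add_cancel hb]

theorem uu_mono {G : S} (hG : IsP G) {θ : ℝ} (hθ : 0 < θ) (V : S) (b β k s e : ℕ) (hb : b ≤ k) (hs : s < 2 ^ k)
    (he : e < 2) : uu G θ V b β (k + 1) (s + 2 ^ k * e) ≤ uu G θ V b β k s := by
  rw [uu_add V β hb e]
  unfold uu
  by_cases h : ∃ m, coeff m (node G b β s V) ≠ 0
  · have h0 := WW_pos hG h (k - b) (s / 2 ^ b)
    obtain ⟨⟨h1, h2⟩, -⟩ := WW_step hG (node G b β s V) (k - b) (s / 2 ^ b) (div_lt hb hs)
    refine Real.rpow_le_rpow_of_nonpos (by exact_mod_cast h0) ?_ (by linarith)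
    rcases (by omega : e = 0 ∨ e = 1) with rfl | rfl
    · rw [mul_zero, add_zero]
      exact_mod_cast h1
    · rw [mul_one]
      exact_mod_cast h2
  · rw [WW_zero hG h, WW_zero hG h]

theorem uu_sum {G : S} (hG : IsP G) {θ : ℝ} (hθ : 0 < θ) (V : S) (b β k s : ℕ) (hb : b ≤ k) (hs : s < 2 ^ k) :
    uu G θ V b β (k + 1) s + uu G θ V b β (k + 1) (s + 2 ^ k) ≤
      2 * ((1 + (20 / 57 : ℝ) ^ θ) / 2) * uu G θ V b β k s := by
  have e0 := uu_add (G := G) (θ := θ) V β (s := s) hb 0
  have e1 := uu_add (G := G) (θ := θ) V β (s := s) hb 1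
  rw [mul_zero, add_zero, mul_zero, add_zero] at e0
  rw [mul_one, mul_one] at e1
  rw [e0, e1, mul_div_cancel₀ _ (by norm_num)]
  unfold uu
  by_cases h : ∃ m, coeff m (node G b β s V) ≠ 0
  · have h0 := WW_pos hG h (k - b) (s / 2 ^ b)
    obtain ⟨⟨h1, h2⟩, h3⟩ := WW_step hG (node G b β s V) (k - b) (s / 2 ^ b) (div_lt hb hs)
    exact one_step hθ.le (by exact_mod_cast h0) (by exact_mod_cast h1) (by exact_mod_cast h2) (by exact_mod_cast h3)
  · rw [WW_zero hG h, WW_zero hG h, WW_zero hG h]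
    simp [Real.zero_rpow (by linarith : -θ ≠ 0)]

/-- the number of the `n < 2 ^ k` in a class with a coefficient different from `w` -/
noncomputable def count (f : S) (b β : ℕ) (w : ℕ → ZMod 2) (k : ℕ) : ℕ := #{n ∈ range (2 ^ k) | n % 2 ^ b = β ∧ coeff n f ≠ w n}

theorem count_mono (f : S) (b β : ℕ) (w : ℕ → ZMod 2) {k k' : ℕ} (h : k ≤ k') :
    count f b β w k ≤ count f b β w k' := by
  unfold count
  refine card_le_card (filter_subset_filter _ (range_subset_range.2 (Nat.pow_le_pow_right (by norm_num) h)))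

theorem count_congr {G : S} (hG : coeff 0 G = 1) (V : S) (b β : ℕ) (w : ℕ → ZMod 2) (k t : ℕ) :
    count (V * G ^ (t % 2 ^ k)) b β w k = count (V * G ^ t) b β w k := by
  unfold count
  congr 1
  refine filter_congr fun n hn => ?_
  rw [coeff_congr hG V (mem_range.1 hn) (Nat.mod_modEq t (2 ^ k))]

/-- a lower bound for the number of the nonzero coefficients -/
theorem WW_le_count {G : S} (hG : IsP G) (V : S) {b β : ℕ} (hβ : β < 2 ^ b) (t k : ℕ) (hk : b + ord (node G b β t V) ≤ k) :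
    WW G (node G b β t V) (k - b) (t / 2 ^ b) ≤ 63 * count (V * G ^ t) b β (fun _ => 0) (k + 4) := by
  set U := node G b β t V with hU
  have hL0 : ∀ x ∈ [((unsh (ord U) U, fun _ => 0, fun _ => True) : El)], x.2 = (fun _ => 0, fun _ => True) := by
    intro x hx
    rw [List.mem_singleton] at hx
    rw [hx]
  have h1 := gd_desc_le hG (k - b) _ (t / 2 ^ b) hL0
  have h2 := W_le_gd (desc G (k - b) [((unsh (ord U) U, fun _ => 0, fun _ => True) : El)] (t / 2 ^ b))
  rw [NN_single] at h1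
  refine h2.trans (Nat.mul_le_mul_left _ (h1.trans ?_))
  rw [N1_zero]
  unfold count
  refine card_le_card_of_injOn (fun m => β + 2 ^ b * (m + ord U)) ?_ ?_
  · intro m hm
    have hm' := mem_filter.1 hm
    have hm1 := mem_range.1 hm'.1
    have hm2 := hm'.2
    rw [mem_coe, mem_filter, mem_range]
    simp only
    have e1 : 2 ^ k = 2 ^ b * 2 ^ (k - b) := by rw [← pow_add]; congr 1; omega
    have e2 : ord U < 2 ^ (k - b) := (Nat.lt_two_pow_self).trans_le (Nat.pow_le_pow_right (by norm_num) (by omega))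
    refine ⟨?_, ?_, ?_⟩
    · have e3 : m + ord U + 1 ≤ 13 * 2 ^ (k - b) := by omega
      have e4 : β + 2 ^ b * (m + ord U) < 2 ^ b * (m + ord U + 1) := by
        rw [mul_add _ (m + ord U), mul_one]
        omega
      have e5 : 2 ^ b * (m + ord U + 1) ≤ 2 ^ b * (13 * 2 ^ (k - b)) := Nat.mul_le_mul_left _ e3
      have e6 : 2 ^ (k + 4) = 16 * (2 ^ b * 2 ^ (k - b)) := by rw [pow_add, e1]; ring
      have e7 : 2 ^ b * (13 * 2 ^ (k - b)) = 13 * (2 ^ b * 2 ^ (k - b)) := by ring
      omega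
    · rw [Nat.add_mul_mod_self_left, Nat.mod_eq_of_lt hβ]
    · rw [coeff_node G b β t _ V hβ, unsh_mul (ord_spec U).1]
      exact hm2
  · intro m _ m' _ h
    simp only at h
    have h3 : 2 ^ b * (m + ord U) = 2 ^ b * (m' + ord U) := by omega
    have h4 := Nat.eq_of_mul_eq_mul_left (by positivity) h3
    omega

/-- both choices of a digit together disagree with `w` as often as there are nonzero coefficients -/
theorem count_two {G : S} (hG : IsP G) (V : S) {b β : ℕ} (w : ℕ → ZMod 2) {k : ℕ} (hk : b ≤ k) (s : ℕ) :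
    count (V * G ^ s) b β (fun _ => 0) k ≤ count (V * G ^ s) b β w (k + 1) + count (V * G ^ (s + 2 ^ k)) b β w (k + 1) := by
  unfold count
  have h1 : #{n ∈ range (2 ^ k) | n % 2 ^ b = β ∧ coeff n (V * G ^ s) ≠ 0} ≤
      #({n ∈ range (2 ^ (k + 1)) | n % 2 ^ b = β ∧ coeff n (V * G ^ s) ≠ w n} ∪
        {n ∈ range (2 ^ (k + 1)) | n % 2 ^ b = β ∧ coeff n (V * G ^ (s + 2 ^ k)) ≠ w n}) := by
    refine card_le_card_of_injOn (fun n => n + 2 ^ k) ?_ ?_
    · intro n hn
      rw [mem_coe, mem_filter, mem_range] at hn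
      obtain ⟨hn1, hn2, hn3⟩ := hn
      have e0 : n + 2 ^ k < 2 ^ (k + 1) := by rw [pow_succ]; omega
      have e1 : (n + 2 ^ k) % 2 ^ b = β := by
        obtain ⟨c, rfl⟩ : ∃ c, k = b + c := ⟨k - b, by omega⟩
        rw [pow_add, Nat.add_mul_mod_self_left]
        exact hn2
      have e2 := coeff_flip hG.zero hG.one (V * G ^ s) k 0 (n + 2 ^ k) (fun i hi => absurd hi (Nat.not_lt_zero i))
        (by omega) (by omega)
      rw [Nat.add_sub_cancel, mul_assoc, ← pow_add] at e2
      rw [mem_coe, mem_union, mem_filter, mem_filter, mem_range]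
      by_cases h : coeff (n + 2 ^ k) (V * G ^ s) = w (n + 2 ^ k)
      · refine Or.inr ⟨e0, e1, ?_⟩
        simp only
        rw [e2, h]
        intro h4
        exact hn3 (by simpa using h4)
      · exact Or.inl ⟨e0, e1, h⟩
    · intro n _ n' _ h
      simp only at h
      omega
  exact h1.trans (card_union_le _ _)

end Pool.Agent.H48.GM.PR
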