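import Pool.Agent.H48.GM.ParityRule

set_option autoImplicit false

/-!
# One rule for the binary digits of `t` and the parity of the coefficients of `V / f_1 ^ t`: the growth
-/

namespace Pool.Agent.H48.GM.PR

open PowerSeries Finset Pool.Agent.K7.H72.MT
open BR (moves digit rule grow)

theorem grow_add_le {J : ℕ} (hJ : 2 ≤ J) (m n : ℕ) : grow J (m + n) ≤ grow J m + n := by
  induction n with
  | zero => simp
  | succ n ih =>
    rw [← add_assoc, BR.grow_succ hJ]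
    split_ifs <;> omega

theorem grow_mono {J : ℕ} (hJ : 2 ≤ J) {m n : ℕ} (h : m ≤ n) : grow J m ≤ grow J n := by
  obtain ⟨d, rfl⟩ := Nat.exists_eq_add_of_le h
  clear h
  induction d with
  | zero => simp
  | succ d ih =>
    rw [← add_assoc, BR.grow_succ hJ]
    omega

theorem exists_theta' {ε : ℝ} (hε : 0 < ε) (hε1 : ε ≤ 1) :
    ∃ θ : ℝ, 0 < θ ∧ (1 + (20 / 57 : ℝ) ^ θ) / 2 ≤ ((57 / 20 : ℝ) ^ ((1 - ε) / 2)) ^ (-θ) := by
  set a : ℝ := Real.log (57 / 20) with ha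
  have ha0 : 0 < a := Real.log_pos (by norm_num)
  refine ⟨ε / a, by positivity, ?_⟩
  have h1 : (20 / 57 : ℝ) ^ (ε / a) = Real.exp (-ε) := by
    rw [Real.rpow_def_of_pos (by norm_num)]
    congr 1
    have : Real.log (20 / 57) = -a := by
      rw [ha, ← Real.log_inv]
      norm_num
    rw [this]
    field_simp
  have h2 : ((57 / 20 : ℝ) ^ ((1 - ε) / 2)) ^ (-(ε / a)) = Real.exp (-(ε * (1 - ε) / 2)) := by
    rw [← Real.rpow_mul (by norm_num), Real.rpow_def_of_pos (by norm_num), ← ha]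
    congr 1
    field_simp
  rw [h1, h2]
  have h3 := exp_le (x := -ε) (by rw [abs_neg, abs_of_pos hε]; exact hε1)
  have h4 := Real.add_one_le_exp (-(ε * (1 - ε) / 2))
  nlinarith

theorem uu_mod (G : S) (θ : ℝ) (V : S) {b : ℕ} (β : ℕ) {k : ℕ} (hb : b ≤ k) (t : ℕ) :
    uu G θ V b β k (t % 2 ^ k) = (WW G (node G b β t V) (k - b) (t / 2 ^ b) : ℝ) ^ (-θ) := by
  unfold uu
  have h1 : 2 ^ k = 2 ^ b * 2 ^ (k - b) := by rw [← pow_add]; congr 1; omega
  have h2 : node G b β (t % 2 ^ k) V = node G b β t V := by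
    rw [← node_mod G b β (t % 2 ^ k), h1, Nat.mod_mul_right_mod, node_mod]
  have h3 : t % 2 ^ k / 2 ^ b = t / 2 ^ b % 2 ^ (k - b) := by
    rw [h1, Nat.mod_mul_right_div_self]
  rw [h2, h3, WW_mod]

/-- the count of the nonzero coefficients, if the potential is small -/
theorem claim_one {G : S} (hG : IsP G) (V : S) {b β : ℕ} (hβ : β < 2 ^ b) {θ lam R : ℝ} (hθ : 0 < θ)
    (hR : 1 ≤ R) (hlam : 0 < lam) (hlR : lam ≤ R ^ (-θ)) {J : ℕ} (hJ : 2 ≤ J) (p : ℕ) (m : ℕ → ℕ → ℕ)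
    (hm : ∀ t k, m t k ≤ k) (hm4 : ∀ t k, m t (k + 4) ≤ m t k + 4)
    (hpot : ∀ t k, b ≤ k → (1 / 2 : ℝ) ^ p * lam ^ b * uu G θ V b β k (t % 2 ^ k) ≤ 2 * lam ^ grow J (m t k)) :
    ∃ K : ℝ, 0 < K ∧ ∀ t k : ℕ, (∃ n, coeff n (node G b β t V) ≠ 0) →
      R ^ grow J (m t k) ≤ K * (1 + count (V * G ^ t) b β (fun _ => 0) k) := by
  classical
  set v : ℕ := (range (2 ^ b)).sup fun s => ord (node G b β s V) with hv
  set c : ℝ := 2 * 2 ^ p * (lam ^ b)⁻¹ with hc
  have hc0 : 0 < c := by positivity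
  have hR0 : 0 < R := by linarith
  refine ⟨R ^ (b + v + 4) + R ^ 4 * c ^ (1 / θ) * 63, by positivity, fun t k hne => ?_⟩
  have hcnt : (0 : ℝ) ≤ count (V * G ^ t) b β (fun _ => 0) k := Nat.cast_nonneg _
  rcases Nat.lt_or_ge k (b + v + 4) with hk | hk
  · have h1 : R ^ grow J (m t k) ≤ R ^ (b + v + 4) :=
      pow_le_pow_right₀ hR ((BR.grow_le _ _).trans ((hm t k).trans hk.le))
    calc R ^ grow J (m t k) ≤ R ^ (b + v + 4) := h1
      _ ≤ (R ^ (b + v + 4) + R ^ 4 * c ^ (1 / θ) * 63) * 1 := by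
          have : 0 ≤ R ^ 4 * c ^ (1 / θ) * 63 := by positivity
          linarith
      _ ≤ _ := mul_le_mul_of_nonneg_left (by linarith) (by positivity)
  · obtain ⟨k', rfl⟩ : ∃ k', k = k' + 4 := ⟨k - 4, by omega⟩
    have hord : ord (node G b β t V) ≤ v := by
      rw [← node_mod G b β t V]
      exact Finset.le_sup (f := fun s => ord (node G b β s V)) (mem_range.2 (Nat.mod_lt _ (by positivity)))
    have h1 := WW_le_count hG V hβ t k' (by omega)
    have h2 := hpot t k' (by omega)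
    rw [uu_mod G θ V β (by omega)] at h2
    set X : ℝ := (WW G (node G b β t V) (k' - b) (t / 2 ^ b) : ℝ) with hX
    have hX1 : 1 ≤ X := by
      have := WW_pos hG hne (k' - b) (t / 2 ^ b)
      rw [hX]
      exact_mod_cast this
    have hX0 : 0 < X := by linarith
    set g := grow J (m t k') with hg
    have h3 : X ^ (-θ) ≤ c * (R ^ g) ^ (-θ) := by
      have e1 : lam ^ g ≤ (R ^ g) ^ (-θ) := by
        calc lam ^ g ≤ (R ^ (-θ)) ^ g := pow_le_pow_left₀ hlam.le hlR g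
          _ = (R ^ g) ^ (-θ) := by
              rw [← Real.rpow_natCast, ← Real.rpow_natCast, ← Real.rpow_mul hR0.le, ← Real.rpow_mul hR0.le, mul_comm]
      have e2 : X ^ (-θ) = c / 2 * ((1 / 2 : ℝ) ^ p * lam ^ b * X ^ (-θ)) := by
        rw [hc]
        have : (1 / 2 : ℝ) ^ p * 2 ^ p = 1 := by rw [← mul_pow]; norm_num
        have h5 : lam ^ b * (lam ^ b)⁻¹ = 1 := mul_inv_cancel₀ (by positivity)
        calc X ^ (-θ) = ((1 / 2 : ℝ) ^ p * 2 ^ p) * (lam ^ b * (lam ^ b)⁻¹) * X ^ (-θ) := by rw [this, h5]; ring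
          _ = _ := by ring
      rw [e2]
      calc c / 2 * ((1 / 2 : ℝ) ^ p * lam ^ b * X ^ (-θ)) ≤ c / 2 * (2 * lam ^ g) :=
            mul_le_mul_of_nonneg_left h2 (by positivity)
        _ = c * lam ^ g := by ring
        _ ≤ _ := mul_le_mul_of_nonneg_left e1 hc0.le
    have h4 : R ^ g ≤ c ^ (1 / θ) * X := by
      have hRg : 0 < R ^ g := by positivity
      have e1 : (R ^ g) ^ θ ≤ c * X ^ θ := by
        rw [Real.rpow_neg hX0.le, Real.rpow_neg hRg.le] at h3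
        have e3 : 0 < X ^ θ := by positivity
        have e4 : 0 < (R ^ g) ^ θ := by positivity
        rw [inv_le_iff_one_le_mul₀ e3] at h3
        calc (R ^ g) ^ θ = (R ^ g) ^ θ * 1 := by ring
          _ ≤ (R ^ g) ^ θ * (c * ((R ^ g) ^ θ)⁻¹ * X ^ θ) := mul_le_mul_of_nonneg_left h3 e4.le
          _ = c * X ^ θ := by field_simp
      have e2 : ((R ^ g) ^ θ) ^ (1 / θ) ≤ (c * X ^ θ) ^ (1 / θ) :=
        Real.rpow_le_rpow (by positivity) e1 (by positivity)
      rw [← Real.rpow_mul hRg.le, Real.mul_rpow hc0.le (by positivity), ← Real.rpow_mul hX0.le,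
        mul_one_div_cancel hθ.ne', Real.rpow_one, Real.rpow_one] at e2
      exact e2
    have h5 : grow J (m t (k' + 4)) ≤ g + 4 :=
      (grow_mono hJ (hm4 t k')).trans (grow_add_le hJ _ _)
    have h6 : X ≤ 63 * count (V * G ^ t) b β (fun _ => 0) (k' + 4) := by
      rw [hX]
      exact_mod_cast h1
    calc R ^ grow J (m t (k' + 4)) ≤ R ^ (g + 4) := pow_le_pow_right₀ hR h5
      _ = R ^ 4 * R ^ g := by ring
      _ ≤ R ^ 4 * (c ^ (1 / θ) * (63 * count (V * G ^ t) b β (fun _ => 0) (k' + 4))) := by gcongr; exact h4.trans (by gcongr)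
      _ = (R ^ 4 * c ^ (1 / θ) * 63) * count (V * G ^ t) b β (fun _ => 0) (k' + 4) := by ring
      _ ≤ (R ^ (b + v + 4) + R ^ 4 * c ^ (1 / θ) * 63) * (1 + count (V * G ^ t) b β (fun _ => 0) (k' + 4)) := by
          have e1 : 0 ≤ R ^ 4 * c ^ (1 / θ) * 63 := by positivity
          have e2 : 0 ≤ R ^ (b + v + 4) := by positivity
          gcongr <;> linarith

/-- **Growth for all series, classes and prescribed sequences.** -/
theorem main {G : S} (hG : IsP G) {ι κ : Type} [Countable ι] [Nonempty ι] [Countable κ] [Nonempty κ]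
    (V : ι → S) (w : κ → ℕ → ZMod 2) (ε : ℝ) (hε : 0 < ε) :
    ∃ σ : List ℕ → ℕ, (∀ l, σ l < 2) ∧ ∀ (i : κ) (j : ι) (b β : ℕ), β < 2 ^ b → ∃ K : ℝ, 0 < K ∧ ∀ t k : ℕ,
      (∃ n, n % 2 ^ b = β ∧ coeff n (V j * G ^ t) ≠ 0) →
        (57 / 20 : ℝ) ^ ((1 - ε) * moves σ (digit t) k / 2) ≤ K * (1 + count (V j * G ^ t) b β (w i) k) := by
  classical
  set ε₁ : ℝ := min ε 1 / 2 with hε₁
  have hε₁0 : 0 < ε₁ := by rw [hε₁]; positivity
  have hε₁1 : ε₁ ≤ 1 / 2 := by rw [hε₁]; have := min_le_right ε 1; linarith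
  have hε₁2 : 2 * ε₁ ≤ ε := by rw [hε₁]; have := min_le_left ε 1; linarith
  obtain ⟨J₀, hJ₀⟩ := exists_nat_gt (1 / ε₁)
  set J := J₀ + 2 with hJdef
  have hJ : 2 ≤ J := by omega
  have hJr : 1 / ε₁ < J := by rw [hJdef]; push_cast; linarith
  have hJ0 : (0 : ℝ) < J := by positivity
  have hJε : 1 / (J : ℝ) ≤ ε₁ := by
    rw [div_le_iff₀ hJ0]
    rw [div_lt_iff₀ hε₁0] at hJr
    linarith
  obtain ⟨θ, hθ, hθR⟩ := exists_theta' hε₁0 (by linarith)
  set R : ℝ := (57 / 20 : ℝ) ^ ((1 - ε₁) / 2) with hRdef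
  have hR : 1 ≤ R := Real.one_le_rpow (by norm_num) (by linarith)
  have hR0 : 0 < R := by linarith
  set lam : ℝ := (1 + (20 / 57 : ℝ) ^ θ) / 2 with hlam
  have hlam0 : 0 < lam := by positivity
  have hlam1 : lam ≤ 1 := by
    have : (20 / 57 : ℝ) ^ θ ≤ 1 := Real.rpow_le_one (by norm_num) (by norm_num) hθ.le
    rw [hlam]
    linarith
  obtain ⟨fP, hfP⟩ := exists_surjective_nat (ι × ℕ × ℕ)
  obtain ⟨fR, hfR⟩ := exists_surjective_nat (κ × ι × ℕ × ℕ)
  obtain ⟨σ, hσ, hrule⟩ := BR.exists_rule (u := fun p k s => uu G θ (V (fP p).1) (fP p).2.1 (fP p).2.2 k s)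
    (b := fun p => (fP p).2.1) (lam := lam) (fun p k s => uu_nonneg _ _ _ _ _ _ _)
    (fun p k s => uu_le_one hG hθ _ _ _ _ _) hlam0 hlam1 (fun p k s e h1 h2 h3 => uu_mono hG hθ _ _ _ _ _ _ h1 h2 h3)
    (fun p k s h1 h2 => uu_sum hG hθ _ _ _ _ _ h1 h2)
    (fun r k s => count (V (fR r).2.1 * G ^ s) (fR r).2.2.1 (fR r).2.2.2 (w (fR r).1) k) hJ
  refine ⟨σ, hσ, fun i j b β hβ => ?_⟩
  obtain ⟨p, hp⟩ := hfP (j, b, β)
  obtain ⟨r, hr⟩ := hfR (i, j, b, β)
  obtain ⟨K, hK0, hK⟩ := claim_one hG (V j) hβ hθ hR hlam0 hθR hJ p (fun t k => moves σ (digit t) k)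
    (fun t k => BR.moves_le _ _ _) (fun t k => BR.moves_add_le _ _ _ _) (fun t k hk => by
      have h1 := (hrule t k).1 p (by simp only [hp]; exact hk)
      simp only [hp] at h1
      exact h1)
  set D : ℕ := J * 2 ^ r with hD
  have hD0 : 0 < D := by positivity
  refine ⟨R ^ (b + 1 + 2 * D) * (1 + 2 * K), by positivity, fun t k hne => ?_⟩
  set m := moves σ (digit t) k with hm
  have hcnt : (0 : ℝ) ≤ count (V j * G ^ t) b β (w i) k := Nat.cast_nonneg _
  -- from `R ^ g` to the exponent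
  have hexp : (57 / 20 : ℝ) ^ ((1 - ε) * m / 2) ≤ R ^ grow J m := by
    have e1 : (m : ℝ) * (1 - ε₁) ≤ grow J m := by
      unfold grow
      rw [Nat.cast_sub (Nat.div_le_self _ _)]
      have e2 : ((m / J : ℕ) : ℝ) ≤ m / J := Nat.cast_div_le
      have e3 : (m : ℝ) / J ≤ m * ε₁ := by
        rw [div_eq_mul_one_div]
        exact mul_le_mul_of_nonneg_left hJε (Nat.cast_nonneg _)
      linarith
    rw [hRdef, ← Real.rpow_natCast, ← Real.rpow_mul (by norm_num)]
    refine Real.rpow_le_rpow_of_exponent_le (by norm_num) ?_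
    have e4 : (0 : ℝ) ≤ m := Nat.cast_nonneg _
    calc (1 - ε) * (m : ℝ) / 2 ≤ (1 - ε₁) / 2 * (m * (1 - ε₁)) := by nlinarith [mul_nonneg e4 (sq_nonneg ε₁)]
      _ ≤ _ := mul_le_mul_of_nonneg_left e1 (by linarith)
  refine hexp.trans ?_
  -- few moves
  have hfew : m ≤ b + 1 + 2 * D → R ^ grow J m ≤ R ^ (b + 1 + 2 * D) * (1 + 2 * K) * (1 + count (V j * G ^ t) b β (w i) k) := by
    intro h
    calc R ^ grow J m ≤ R ^ (b + 1 + 2 * D) := pow_le_pow_right₀ hR ((BR.grow_le _ _).trans h)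
      _ = R ^ (b + 1 + 2 * D) * 1 * 1 := by ring
      _ ≤ _ := by gcongr <;> linarith
  rcases Nat.lt_or_ge m D with hmD | hmD
  · exact hfew (by omega)
  set q := m / D with hq
  have hq1 : 1 ≤ q := (Nat.one_le_div_iff hD0).2 hmD
  have hqm : D * q ≤ m := Nat.mul_div_le _ _
  have hqm2 : m < D * q + D := by
    have := Nat.lt_mul_div_succ m hD0
    rw [mul_add, mul_one] at this
    exact this
  set a := (q - 1) / 2 with ha
  have ha1 : 2 * a + 1 ≤ q := by omega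
  have ha2 : q ≤ 2 * a + 2 := by omega
  have hM : J * (2 ^ r * (2 * a + 1)) = D * (2 * a + 1) := by rw [hD]; ring
  have hMle : D * (2 * a + 1) ≤ m := (Nat.mul_le_mul_left _ ha1).trans hqm
  have hMge : m < D * (2 * a + 1) + 2 * D := by
    have : D * q ≤ D * (2 * a + 2) := Nat.mul_le_mul_left _ ha2
    have e : D * (2 * a + 2) = D * (2 * a + 1) + D := by ring
    omega
  obtain ⟨k', hk', h1, h2, h3⟩ := (hrule t k).2 r a (by rw [hM]; exact hMle)
  rw [hM] at h1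
  simp only [hr] at h2 h3
  rcases Nat.lt_or_ge k' b with hkb | hkb
  · apply hfew
    have := BR.moves_le σ (digit t) k'
    omega
  have hnode : ∃ n, coeff n (node G b β t (V j)) ≠ 0 := by
    obtain ⟨n, hn1, hn2⟩ := hne
    by_contra hcon
    push Not at hcon
    have h0 : node G b β t (V j) = 0 := by
      ext x
      rw [hcon x, map_zero]
    apply hn2
    have h4 := coeff_node G b β t (n / 2 ^ b) (V j) hβ
    rw [h0, zero_mul, map_zero, ← hn1, Nat.mod_add_div] at h4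
    exact h4
  have h4 := hK t k' hnode
  have h5 := count_two hG (V j) (β := β) (w i) hkb (t % 2 ^ k')
  have h6 : count (V j * G ^ (t % 2 ^ k')) b β (fun _ => 0) k' = count (V j * G ^ t) b β (fun _ => 0) k' :=
    count_congr hG.zero _ _ _ _ _ _
  have h7 : count (V j * G ^ (t % 2 ^ (k' + 1))) b β (w i) (k' + 1) ≤ count (V j * G ^ t) b β (w i) k := by
    rw [count_congr hG.zero]
    exact count_mono _ _ _ _ hk'
  rw [h6] at h5
  have h8 : (count (V j * G ^ t) b β (fun _ => 0) k' : ℝ) ≤ 2 * count (V j * G ^ t) b β (w i) k := by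
    have : count (V j * G ^ t) b β (fun _ => 0) k' ≤ 2 * count (V j * G ^ t) b β (w i) k := by omega
    exact_mod_cast this
  have h9 : grow J m ≤ grow J (moves σ (digit t) k') + 2 * D := by
    have e1 : m ≤ moves σ (digit t) k' + 2 * D := by omega
    exact (grow_mono hJ e1).trans (grow_add_le hJ _ _)
  calc R ^ grow J m ≤ R ^ (grow J (moves σ (digit t) k') + 2 * D) := pow_le_pow_right₀ hR h9
    _ = R ^ (2 * D) * R ^ grow J (moves σ (digit t) k') := by ring
    _ ≤ R ^ (2 * D) * (K * (1 + count (V j * G ^ t) b β (fun _ => 0) k')) := by gcongr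
    _ ≤ R ^ (2 * D) * (K * (1 + 2 * count (V j * G ^ t) b β (w i) k)) := by gcongr
    _ ≤ R ^ (b + 1 + 2 * D) * ((1 + 2 * K) * (1 + count (V j * G ^ t) b β (w i) k)) := by
        have e1 : R ^ (2 * D) ≤ R ^ (b + 1 + 2 * D) := pow_le_pow_right₀ hR (by omega)
        have e2 : K * (1 + 2 * (count (V j * G ^ t) b β (w i) k : ℝ)) ≤
            (1 + 2 * K) * (1 + count (V j * G ^ t) b β (w i) k) := by nlinarith
        exact mul_le_mul e1 e2 (by positivity) (by positivity)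
    _ = _ := by ring

end Pool.Agent.H48.GM.PR
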