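import Mathlib
import Pool.Agent.H48.GM.Trunc

set_option autoImplicit false

/-!
# The digit game for truncated expansions, each family with a rate of its own
-/

namespace Pool.Agent.H48.GM

open Real

/-- **The digit game for truncated expansions, with rates.** -/
theorem trunc_game_rates {ι : Type*} [Countable ι] {b : ℕ} (hb : 2 ≤ b) (E : ι → Set (List ℕ))
    (ρ : ι → ℝ) (hρ : ∀ i, 0 ≤ ρ i)
    (h : ∀ i, ∃ C : ℝ, ∀ n : ℕ,
      ({w : List ℕ | w.length = n ∧ (∀ d ∈ w, d < b) ∧ w ∈ E i}.ncard : ℝ) ≤ C * ((b : ℝ) ^ n) ^ (ρ i)) :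
    ∃ σ : List ℕ → ℕ, (∀ u, σ u < b) ∧ ∀ i, ∀ δ : ℝ, ρ i < δ → ∃ C : ℝ,
      ∀ (x : ℕ → ℕ), (∀ i, x i < b) → ∀ n : ℕ, δ * n + C < moves σ x n → play x n ∉ E i := by
  classical
  haveI : Nontrivial (Fin b) := Fin.nontrivial_iff_two_le.mpr hb
  haveI : NeZero b := ⟨by omega⟩
  have hb' : (1 : ℝ) < b := by exact_mod_cast hb
  have hlb : 0 < log (b : ℝ) := log_pos hb'
  let toF : ℕ → Fin b := fun d => Fin.ofNat b d
  obtain ⟨σ, hσ⟩ := universal (α := Fin b) (β := List (Fin b)) (ι := ι × ℕ) id
    (fun p => {w | w.map Fin.val ∈ E p.1}) (fun w => w.length) (fun w => Nat.cast_nonneg _)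
    (fun p => ρ p.1 * log b + 1 / ((p.2 : ℝ) + 1)) (fun p => by have := hρ p.1; positivity) (by
      rintro ⟨i, j⟩
      set δ : ℝ := ρ i * log b + 1 / ((j : ℝ) + 1) with hδ
      have hδ0 : 0 < δ := by have := hρ i; positivity
      have hδ1 : ρ i * log b ≤ δ := by
        rw [hδ]
        have : 0 < 1 / ((j : ℝ) + 1) := by positivity
        linarith
      obtain ⟨C, hC⟩ := h i
      have hCnn : 0 ≤ C := by
        have h1 := hC 0
        have h0 : (0 : ℝ) ≤ ({w : List ℕ | w.length = 0 ∧ (∀ d ∈ w, d < b) ∧ w ∈ E i}.ncard : ℝ) :=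
          Nat.cast_nonneg _
        simp only [pow_zero, one_rpow, mul_one] at h1
        linarith
      have hC' : ∀ n : ℕ, ({w : List ℕ | w.length = n ∧ (∀ d ∈ w, d < b) ∧ w ∈ E i}.ncard : ℝ) ≤
          C * exp (δ * n) := by
        intro n
        refine (hC n).trans ?_
        rw [rpow_def_of_pos (by positivity), log_pow]
        apply mul_le_mul_of_nonneg_left _ hCnn
        apply exp_le_exp.mpr
        have : (0 : ℝ) ≤ n := Nat.cast_nonneg _
        nlinarith
      have hfin : ∀ n : ℕ, {w : List (Fin b) | w.length = n}.Finite := fun n => List.finite_length_eq _ _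
      have hone : ∀ n : ℕ, ({w : List (Fin b) | w.length = n ∧ w.map Fin.val ∈ E i}.ncard : ℝ) ≤
          C * exp (δ * n) := by
        intro n
        refine le_trans ?_ (hC' n)
        have hinj : Function.Injective (List.map (Fin.val : Fin b → ℕ)) :=
          List.map_injective_iff.mpr Fin.val_injective
        rw [← Set.ncard_image_of_injective _ hinj]
        have hsub : (List.map (Fin.val : Fin b → ℕ)) '' {w : List (Fin b) | w.length = n ∧ w.map Fin.val ∈ E i} ⊆
            {w : List ℕ | w.length = n ∧ (∀ d ∈ w, d < b) ∧ w ∈ E i} := by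
          rintro _ ⟨w, ⟨hl, hw⟩, rfl⟩
          refine ⟨by simpa using hl, ?_, hw⟩
          intro d hd
          rw [List.mem_map] at hd
          obtain ⟨c, -, rfl⟩ := hd
          exact c.isLt
        exact_mod_cast Set.ncard_le_ncard hsub ((words_finite b n).subset fun w hw => ⟨hw.1, hw.2.1⟩)
      refine ⟨C / (1 - exp (-δ)), fun n => ?_⟩
      have hU : {w : List (Fin b) | w ∈ {w : List (Fin b) | w.map Fin.val ∈ E i} ∧ ((w.length : ℕ) : ℝ) ≤ n} ⊆
          ⋃ l ∈ Finset.range (n + 1), {w : List (Fin b) | w.length = l ∧ w.map Fin.val ∈ E i} := by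
        rintro w ⟨hw, hl⟩
        rw [Set.mem_iUnion₂]
        have : w.length ≤ n := by exact_mod_cast hl
        exact ⟨w.length, Finset.mem_range.mpr (by omega), rfl, hw⟩
      have hUfin : (⋃ l ∈ Finset.range (n + 1),
          {w : List (Fin b) | w.length = l ∧ w.map Fin.val ∈ E i}).Finite :=
        Set.Finite.biUnion (Finset.finite_toSet _) fun l _ => (hfin l).subset fun w hw => hw.1
      refine ⟨hUfin.subset hU, ?_⟩
      have h1 : (⋃ l ∈ Finset.range (n + 1),
          {w : List (Fin b) | w.length = l ∧ w.map Fin.val ∈ E i}).ncard ≤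
          ∑ l ∈ Finset.range (n + 1), {w : List (Fin b) | w.length = l ∧ w.map Fin.val ∈ E i}.ncard := by
        generalize n + 1 = m
        induction m with
        | zero => simp
        | succ J ih =>
          rw [Finset.sum_range_succ, Finset.range_add_one, Finset.set_biUnion_insert, Set.union_comm]
          refine (Set.ncard_union_le _ _).trans ?_
          gcongr
      have h2 : ({w : List (Fin b) | w ∈ {w : List (Fin b) | w.map Fin.val ∈ E i} ∧
          ((w.length : ℕ) : ℝ) ≤ n}.ncard : ℝ) ≤ ∑ l ∈ Finset.range (n + 1), C * exp (δ * l) := by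
        refine le_trans ?_ (Finset.sum_le_sum fun l _ => hone l)
        exact_mod_cast (Set.ncard_le_ncard hU hUfin).trans h1
      refine h2.trans ?_
      have hq : exp (-δ) < 1 := by rw [exp_lt_one_iff]; linarith
      have hgeo : ∀ m : ℕ, ∑ l ∈ Finset.range (m + 1), C * exp (δ * l) ≤ C / (1 - exp (-δ)) * exp (δ * m) := by
        intro m
        induction m with
        | zero =>
          simp only [zero_add, Finset.range_one, Finset.sum_singleton, Nat.cast_zero, mul_zero, exp_zero, mul_one]
          rw [le_div_iff₀ (by linarith)]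
          nlinarith [exp_pos (-δ)]
        | succ m ih =>
          rw [Finset.sum_range_succ]
          refine (add_le_add_left ih _).trans ?_
          have e1 : exp (δ * m) = exp (-δ) * exp (δ * ((m + 1 : ℕ) : ℝ)) := by
            rw [← exp_add]
            congr 1
            push_cast
            ring
          rw [e1]
          have e2 : (0 : ℝ) < 1 - exp (-δ) := by linarith
          have e3 : C / (1 - exp (-δ)) * (exp (-δ) * exp (δ * ((m + 1 : ℕ) : ℝ))) +
              C * exp (δ * ((m + 1 : ℕ) : ℝ)) = C / (1 - exp (-δ)) * exp (δ * ((m + 1 : ℕ) : ℝ)) := by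
            field_simp
            ring
          exact e3.le
      exact hgeo n)
  let σ' : List ℕ → ℕ := fun u => (σ (u.map toF)).val
  refine ⟨σ', fun u => (σ (u.map toF)).isLt, fun i δ hδ => ?_⟩
  have hgap : 0 < (δ - ρ i) * log b / 2 := by
    have : 0 < δ - ρ i := by linarith
    positivity
  obtain ⟨j, hj⟩ := exists_nat_one_div_lt hgap
  obtain ⟨C', hC'⟩ := hσ (i, j) ((δ - ρ i) * log b / 2) hgap
  refine ⟨C' / log b, fun x hx n hmov hE => ?_⟩
  have hmap : ((play x n).map toF).map Fin.val = play x n := by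
    rw [List.map_map]
    unfold play
    rw [List.map_map]
    apply List.map_congr_left
    intro k _
    show (Fin.ofNat b (x k)).val = x k
    rw [Fin.val_ofNat]
    exact Nat.mod_eq_of_lt (hx k)
  have h1 := hC' ((play x n).map toF) (by
    show ((play x n).map toF).map Fin.val ∈ E i
    rw [hmap]
    exact hE)
  simp only [id_eq, List.length_map, play_length, Fintype.card_fin] at h1
  have h2 : moves σ' x n ≤ obeys σ ((play x n).map toF) := by
    rw [moves_eq]
    unfold obeys
    rw [List.length_map]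
    apply Finset.card_le_card
    intro i hi
    rw [Finset.mem_filter] at hi ⊢
    refine ⟨hi.1, ?_⟩
    rw [List.getElem?_map, hi.2, Option.map_some, ← List.map_take]
    congr 1
    show Fin.ofNat b (σ (((play x n).take i).map toF)).val = _
    apply Fin.ext
    rw [Fin.val_ofNat]
    exact Nat.mod_eq_of_lt (σ (((play x n).take i).map toF)).isLt
  have h3 : ((moves σ' x n : ℕ) : ℝ) ≤ (obeys σ ((play x n).map toF) : ℝ) := by exact_mod_cast h2
  have h4 := mul_le_mul_of_nonneg_right h3 hlb.le
  have h5 := mul_lt_mul_of_pos_right hmov hlb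
  have h6 : (δ * n + C' / log b) * log b = δ * log b * n + C' := by
    field_simp
  rw [h6] at h5
  have hn : (0 : ℝ) ≤ n := Nat.cast_nonneg _
  have h7 : (ρ i * log b + 1 / ((j : ℝ) + 1) + (δ - ρ i) * log b / 2) * n ≤ (δ * log b) * n := by
    apply mul_le_mul_of_nonneg_right _ hn
    linarith
  linarith

end Pool.Agent.H48.GM
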