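import Mathlib
import Pool.Agent.H48.GM.TruncRates

set_option autoImplicit false

/-!
# Truncated expansions in a finite set of rational numbers of height at most `(a + 1) b ^ n`
-/

namespace Pool.Agent.H48.GM

open Real NumberField

/-- `HeightLe F T x`: `x = a / c` with algebraic integers `a`, `c` of `F`, all of whose conjugates are at
most `T` in absolute value. -/
def HtLe (F : Type) [Field F] [NumberField F] (T : ℝ) (x : F) : Prop :=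
  ∃ a c : 𝓞 F, c ≠ 0 ∧ (∀ φ : F →+* ℂ, ‖φ a‖ ≤ T ∧ ‖φ c‖ ≤ T) ∧ x = a / c

theorem int_norm (k : ℤ) (φ : ℚ →+* ℂ) : ‖φ ((algebraMap ℤ (𝓞 ℚ) k : 𝓞 ℚ) : ℚ)‖ = |(k : ℝ)| := by
  have h1 : ((algebraMap ℤ (𝓞 ℚ) k : 𝓞 ℚ) : ℚ) = (k : ℚ) := by simp
  rw [h1, map_intCast, Complex.norm_intCast]

theorem point_height {b : ℕ} (hb : 2 ≤ b) (a : ℕ) (w : List ℕ) (hw : ∀ d ∈ w, d < b) :
    HtLe ℚ (((a : ℝ) + 1) * (b : ℝ) ^ w.length) ((a : ℚ) + val b w) := by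
  obtain ⟨z, hz⟩ := val_int hb w
  have e1 := val_nonneg b w
  have e2 := val_lt_one hb w hw
  have hbq : (0 : ℚ) < (b : ℚ) ^ w.length := by
    have : (0 : ℚ) < b := by exact_mod_cast (by omega : 0 < b)
    positivity
  have hbr : (1 : ℝ) ≤ (b : ℝ) ^ w.length := one_le_pow₀ (by exact_mod_cast (by omega : 1 ≤ b))
  have ha0 : (0 : ℝ) ≤ a := Nat.cast_nonneg _
  have hcne : ((b ^ w.length : ℕ) : ℤ) ≠ 0 := by positivity
  refine ⟨algebraMap ℤ (𝓞 ℚ) (a * b ^ w.length + z), algebraMap ℤ (𝓞 ℚ) ((b ^ w.length : ℕ) : ℤ), ?_, ?_, ?_⟩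
  · rw [Ne, map_eq_zero_iff _ (FaithfulSMul.algebraMap_injective ℤ (𝓞 ℚ))]
    exact hcne
  · intro φ
    rw [int_norm, int_norm]
    have hz0 : (0 : ℚ) ≤ z := by rw [hz]; positivity
    have hz1 : (z : ℚ) ≤ (b : ℚ) ^ w.length := by rw [hz]; nlinarith
    have hz0' : (0 : ℝ) ≤ z := by exact_mod_cast hz0
    have hz1' : (z : ℝ) ≤ (b : ℝ) ^ w.length := by exact_mod_cast hz1
    constructor
    · push_cast
      rw [abs_of_nonneg (by positivity)]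
      linarith
    · push_cast
      rw [abs_of_nonneg (by positivity)]
      nlinarith
  · have h1 : (((algebraMap ℤ (𝓞 ℚ) (a * b ^ w.length + z) : 𝓞 ℚ)) : ℚ) = (a : ℚ) * b ^ w.length + z := by
      simp
    have h2 : (((algebraMap ℤ (𝓞 ℚ) ((b ^ w.length : ℕ) : ℤ) : 𝓞 ℚ)) : ℚ) = (b : ℚ) ^ w.length := by
      simp
    rw [h1, h2, hz, eq_div_iff hbq.ne']
    ring

/-- the words of length `n` whose point lies in an exceptional set -/
theorem point_count {b : ℕ} (hb : 2 ≤ b) (a : ℕ) (ε C₁ T₀ : ℝ) (hε : 0 < ε) (P : ℕ → ℚ → Prop)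
    (h : ∀ n : ℕ, T₀ ≤ ((a : ℝ) + 1) * (b : ℝ) ^ n → ∃ E : Finset ℚ,
      (E.card : ℝ) ≤ C₁ * (((a : ℝ) + 1) * (b : ℝ) ^ n) ^ ε ∧
        ∀ w : List ℕ, w.length = n → (∀ d ∈ w, d < b) → P n ((a : ℚ) + val b w) → ((a : ℚ) + val b w) ∈ E) :
    ∃ C : ℝ, ∀ n : ℕ,
      ({w : List ℕ | w.length = n ∧ (∀ d ∈ w, d < b) ∧ P n ((a : ℚ) + val b w)}.ncard : ℝ) ≤
        C * ((b : ℝ) ^ n) ^ ε := by
  classical
  have ha0 : (0 : ℝ) ≤ a := Nat.cast_nonneg _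
  have hb1 : (1 : ℝ) ≤ b := by exact_mod_cast (by omega : 1 ≤ b)
  refine ⟨|C₁| * ((a : ℝ) + 1) ^ ε + |T₀|, fun n => ?_⟩
  set W : Set (List ℕ) := {w : List ℕ | w.length = n ∧ (∀ d ∈ w, d < b) ∧ P n ((a : ℚ) + val b w)} with hW
  have hWfin : W.Finite := (words_finite b n).subset fun w hw => ⟨hw.1, hw.2.1⟩
  have hbn : (1 : ℝ) ≤ (b : ℝ) ^ n := one_le_pow₀ hb1
  have hbe : (1 : ℝ) ≤ ((b : ℝ) ^ n) ^ ε := one_le_rpow hbn hε.le
  by_cases hT : T₀ ≤ ((a : ℝ) + 1) * (b : ℝ) ^ n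
  · obtain ⟨E, hE, hmem⟩ := h n hT
    have hinj : Set.InjOn (fun w => (a : ℚ) + val b w) W := by
      intro w hw v hv he
      exact val_inj hb w v hw.2.1 hv.2.1 (hw.1.trans hv.1.symm) (by simpa using he)
    have hsub : (fun w => (a : ℚ) + val b w) '' W ⊆ (E : Set ℚ) := by
      rintro _ ⟨w, hw, rfl⟩
      exact hmem w hw.1 hw.2.1 hw.2.2
    have h1 : W.ncard ≤ E.card := by
      rw [← Set.ncard_image_of_injOn hinj, ← Set.ncard_coe_finset]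
      exact Set.ncard_le_ncard hsub (Finset.finite_toSet _)
    have h2 : (W.ncard : ℝ) ≤ C₁ * (((a : ℝ) + 1) * (b : ℝ) ^ n) ^ ε := by
      have : (W.ncard : ℝ) ≤ E.card := by exact_mod_cast h1
      linarith
    rw [mul_rpow (by positivity) (by positivity)] at h2
    have h3 : C₁ * (((a : ℝ) + 1) ^ ε * ((b : ℝ) ^ n) ^ ε) ≤ |C₁| * ((a : ℝ) + 1) ^ ε * ((b : ℝ) ^ n) ^ ε := by
      rw [← mul_assoc]
      gcongr
      exact le_abs_self _
    have h4 := abs_nonneg T₀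
    nlinarith [mul_nonneg h4 (zero_le_one.trans hbe)]
  · push Not at hT
    have h1 : W.ncard ≤ b ^ n := (Set.ncard_le_ncard
      (show W ⊆ {w : List ℕ | w.length = n ∧ ∀ d ∈ w, d < b} from fun w hw => ⟨hw.1, hw.2.1⟩)
      (words_finite b n)).trans (words_card b n)
    have h2 : (W.ncard : ℝ) ≤ (b : ℝ) ^ n := by exact_mod_cast h1
    have h3 : (b : ℝ) ^ n ≤ |T₀| := by
      have := le_abs_self T₀
      nlinarith
    have h5 := abs_nonneg T₀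
    have h6 : 0 ≤ |C₁| * ((a : ℝ) + 1) ^ ε := by positivity
    nlinarith [mul_nonneg h6 (zero_le_one.trans hbe), mul_le_mul_of_nonneg_left hbe h5]

end Pool.Agent.H48.GM
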