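import Mathlib
import Pool.Agent.H48.GM.Window

set_option autoImplicit false

/-!
# From short intervals to the hypothesis of the window game
-/

namespace Pool.Agent.H48.GM

open Real

theorem val_append {b : ℕ} (hb : 2 ≤ b) (u v : List ℕ) :
    val b (u ++ v) = val b u + val b v / (b : ℚ) ^ u.length := by
  have hb' : (b : ℚ) ≠ 0 := by exact_mod_cast (by omega : b ≠ 0)
  induction u with
  | nil => simp [val]
  | cons d u ih =>
    rw [List.cons_append, val, ih, val, List.length_cons, pow_succ]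
    field_simp
    ring

theorem val_prefix {b : ℕ} (hb : 2 ≤ b) {u w : List ℕ} (h : u <+: w) (hw : ∀ d ∈ w, d < b) :
    val b u ≤ val b w ∧ val b w ≤ val b u + 1 / (b : ℚ) ^ u.length := by
  obtain ⟨v, rfl⟩ := h
  have hb' : (0 : ℚ) < (b : ℚ) ^ u.length := by
    have : (0 : ℚ) < b := by exact_mod_cast (by omega : 0 < b)
    positivity
  rw [val_append hb]
  have h1 := val_nonneg b v
  have h2 := val_lt_one hb v fun d hd => hw d (List.mem_append_right _ hd)
  constructor
  · have : 0 ≤ val b v / (b : ℚ) ^ u.length := by positivity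
    linarith
  · gcongr

/-- exceptional words with a given prefix -/
theorem short_windows {b : ℕ} (hb : 2 ≤ b) (a : ℤ) (P : ℝ → ℚ → Prop)
    (h : ∀ δ : ℝ, 0 < δ → ∃ (C : ℕ) (T₀ : ℝ), ∀ T : ℝ, T₀ ≤ T → ∀ Y : Finset ℚ,
      (∀ x ∈ Y, (a : ℝ) ≤ x ∧ (x : ℝ) ≤ a + 1 ∧ (x.den : ℝ) ≤ T) → (∀ x ∈ Y, P T x) →
      (∀ x ∈ Y, ∀ y ∈ Y, |(x : ℝ) - y| ≤ T ^ (-δ)) → Y.card ≤ C) (g : ℕ) :
    ∃ C : ℕ, ∀ (u : List ℕ) (l : ℕ), (∀ d ∈ u, d < b) → l ≤ 2 ^ g * u.length →
      {w : List ℕ | w.length = l ∧ (∀ d ∈ w, d < b) ∧ u <+: w ∧ P ((b : ℝ) ^ l) (a + val b w)}.ncard ≤ C := by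
  classical
  obtain ⟨C, T₀, hC⟩ := h (1 / 2 ^ g) (by positivity)
  refine ⟨C + ⌈T₀⌉₊, fun u l hu hl => ?_⟩
  set W : Set (List ℕ) := {w : List ℕ | w.length = l ∧ (∀ d ∈ w, d < b) ∧ u <+: w ∧
    P ((b : ℝ) ^ l) (a + val b w)} with hW
  have hWfin : W.Finite := (words_finite b l).subset fun w hw => ⟨hw.1, hw.2.1⟩
  set T : ℝ := (b : ℝ) ^ l with hT
  have hb1 : (1 : ℝ) < b := by exact_mod_cast (by omega : 1 < b)
  by_cases hT0 : T₀ ≤ T
  · set Y : Finset ℚ := hWfin.toFinset.image fun w => (a : ℚ) + val b w with hY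
    have hinj : Set.InjOn (fun w => (a : ℚ) + val b w) (hWfin.toFinset : Set (List ℕ)) := by
      intro w hw v hv he
      rw [Set.Finite.coe_toFinset] at hw hv
      exact val_inj hb w v hw.2.1 hv.2.1 (hw.1.trans hv.1.symm) (by simpa using he)
    have h1 := hC T hT0 Y (by
      intro x hx
      rw [hY, Finset.mem_image] at hx
      obtain ⟨w, hw, rfl⟩ := hx
      rw [hWfin.mem_toFinset] at hw
      obtain ⟨hwl, hd, -, -⟩ := hw
      have e1 := val_nonneg b w
      have e2 := val_lt_one hb w hd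
      obtain ⟨z, hz⟩ := val_int hb w
      have e3 : ((a : ℚ) + val b w).den ≤ b ^ l := by
        apply den_le (by positivity) (a * b ^ l + z)
        push_cast
        rw [hz, hwl]
        ring
      refine ⟨?_, ?_, ?_⟩
      · push_cast
        have : (0 : ℝ) ≤ (val b w : ℝ) := by exact_mod_cast e1
        linarith
      · push_cast
        have : (val b w : ℝ) ≤ 1 := by exact_mod_cast e2.le
        linarith
      · rw [hT]
        exact_mod_cast e3) (by
      intro x hx
      rw [hY, Finset.mem_image] at hx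
      obtain ⟨w, hw, rfl⟩ := hx
      rw [hWfin.mem_toFinset] at hw
      exact hw.2.2.2) (by
      intro x hx y hy
      rw [hY, Finset.mem_image] at hx hy
      obtain ⟨w, hw, rfl⟩ := hx
      obtain ⟨v, hv, rfl⟩ := hy
      rw [hWfin.mem_toFinset] at hw hv
      have e1 := val_prefix hb hw.2.2.1 hw.2.1
      have e2 := val_prefix hb hv.2.2.1 hv.2.1
      have e3 : |(((a : ℚ) + val b w : ℚ) : ℝ) - (((a : ℚ) + val b v : ℚ) : ℝ)| ≤ 1 / (b : ℝ) ^ u.length := by
        have f1 : |(((a : ℚ) + val b w) - ((a : ℚ) + val b v))| ≤ 1 / (b : ℚ) ^ u.length := by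
          rw [abs_le]
          constructor <;> linarith [e1.1, e1.2, e2.1, e2.2]
        have f2 := (Rat.cast_le (K := ℝ)).mpr f1
        rw [Rat.cast_abs] at f2
        push_cast at f2 ⊢
        exact f2
      refine e3.trans ?_
      rw [one_div, ← rpow_natCast, ← rpow_neg (by linarith), hT, ← rpow_natCast, ← rpow_mul (by linarith)]
      apply rpow_le_rpow_of_exponent_le hb1.le
      have e4 : (l : ℝ) ≤ 2 ^ g * u.length := by exact_mod_cast hl
      have e5 : (l : ℝ) * (1 / 2 ^ g) ≤ u.length := by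
        rw [mul_one_div, div_le_iff₀ (by positivity)]
        linarith
      linarith)
    rw [hY, Finset.card_image_of_injOn hinj] at h1
    rw [Set.ncard_eq_toFinset_card W hWfin]
    omega
  · push Not at hT0
    have h1 : W.ncard ≤ b ^ l := (Set.ncard_le_ncard
      (show W ⊆ {w : List ℕ | w.length = l ∧ ∀ d ∈ w, d < b} from fun w hw => ⟨hw.1, hw.2.1⟩)
      (words_finite b l)).trans (words_card b l)
    have h2 : b ^ l ≤ ⌈T₀⌉₊ := by
      have : ((b ^ l : ℕ) : ℝ) ≤ ⌈T₀⌉₊ := by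
        push_cast
        exact hT0.le.trans (Nat.le_ceil _)
      exact_mod_cast this
    omega

end Pool.Agent.H48.GM
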